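import Mathlib

/-!
# Conservative random walk: model, block model and the statements of the lemma jobs
-/

set_option autoImplicit false

open MeasureTheory ProbabilityTheory Filter Finset

namespace Pool.Agent.Q293.CR

/-- The `2 d` directions of the lattice: an axis and a sign. -/
abbrev Dir (d : ℕ) := Fin d × Bool

/-- The unit coordinate vector of a direction: `true` is the positive one. -/
def vec {d : ℕ} (u : Dir d) : Fin d → ℤ := fun i => if i = u.1 then (if u.2 then 1 else -1) else 0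

/-- The direction `Y n` of the step number `n` (`n = 1, 2, ...`): `Y 1` is fresh, and for `n ≥ 2`
the direction is fresh if the flag `b n` is on and is kept otherwise. (`Y 0` is not used.) -/
def dirAt {d : ℕ} (b : ℕ → Bool) (x : ℕ → Dir d) : ℕ → Dir d
  | 0 => x 0
  | n + 1 => if n = 0 ∨ b (n + 1) = true then x (n + 1) else dirAt b x n

/-- `S n = Y 1 + ... + Y n`. -/
def walk {d : ℕ} (b : ℕ → Bool) (x : ℕ → Dir d) (n : ℕ) : Fin d → ℤ :=
  ∑ k ∈ Finset.Icc 1 n, vec (dirAt b x k)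

/-- The uniform law on the directions. -/
noncomputable def unif (d : ℕ) [NeZero d] : Measure (Dir d) :=
  (PMF.uniformOfFintype (Dir d)).toMeasure

/-- The law of a sequence of independent uniform directions. -/
noncomputable def iid (d : ℕ) [NeZero d] : Measure (ℕ → Dir d) :=
  Measure.infinitePi (fun _ : ℕ => unif d)

/-- The law of the flags: independent, `b n` is on with probability `p n`. -/
noncomputable def flags (p : ℕ → unitInterval) : Measure (ℕ → Bool) :=
  Measure.infinitePi (fun n : ℕ => bernoulliMeasure true false (p n))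

/-- The joint law of flags and fresh directions (independent). -/
noncomputable def law (d : ℕ) [NeZero d] (p : ℕ → unitInterval) :
    Measure ((ℕ → Bool) × (ℕ → Dir d)) := (flags p).prod (iid d)

/-- Euclidean norm of an integer vector. -/
noncomputable def enorm2 {d : ℕ} (z : Fin d → ℤ) : ℝ := Real.sqrt (∑ i, ((z i : ℤ) : ℝ) ^ 2)

/-- Strong transience: almost surely the Euclidean norm of `S n` tends to infinity. -/
def StronglyTransient (d : ℕ) [NeZero d] (p : ℕ → unitInterval) : Prop :=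
  ∀ᵐ w ∂(law d p), Tendsto (fun n => enorm2 (walk w.1 w.2 n)) atTop atTop

/-! ## Block model -/

/-- Position before block `k` when block `j` has length `a j` and direction `V j`. -/
def W {d : ℕ} (a : ℕ → ℕ) (V : ℕ → Dir d) (k : ℕ) : Fin d → ℤ :=
  fun i => ∑ j ∈ Finset.range k, (a j : ℤ) * vec (V j) i

/-- The signed sum with plus signs on `T` and minus signs off `T`. -/
def sg {κ : Type} [DecidableEq κ] (a : κ → ℕ) (J T : Finset κ) : ℤ :=
  ∑ j ∈ J, (if j ∈ T then (a j : ℤ) else -(a j : ℤ))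

/-! ## Statements of the jobs -/

/-- LO (Erdos, Littlewood, Offord). -/
def S_LO : Prop :=
  ∀ (κ : Type) [DecidableEq κ] (J : Finset κ) (a : κ → ℕ) (c L : ℕ) (x : ℤ), 1 ≤ c →
    (∀ j ∈ J, c ≤ a j) →
    (((J.powerset.filter (fun T => |x + sg a J T| ≤ (L : ℤ))).card : ℕ) : ℝ)
      ≤ 2 ^ J.card * (((L / c + 1 : ℕ) : ℝ) / Real.sqrt ((J.card : ℝ) + 1))

/-- HA (few coincidences: better bound). -/
def S_HA : Prop :=
  ∀ (κ : Type) [DecidableEq κ] (J : Finset κ) (a : κ → ℕ) (L M : ℕ) (x : ℤ), 1 ≤ M →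
    (∀ j ∈ J, 1 ≤ a j) → (∀ v : ℕ, (J.filter (fun j => a j = v)).card ≤ M) →
    (((J.powerset.filter (fun T => |x + sg a J T| ≤ (L : ℤ))).card : ℕ) : ℝ)
      ≤ 2 ^ J.card * ((2 * (L : ℝ) + 1) * (12 * (M : ℝ)) / ((J.card : ℝ) + 1))

/-- BIN (inverse moments of a binomial variable, in counting form). -/
def S_Bin : Prop :=
  ∀ (κ : Type) [Fintype κ] [DecidableEq κ] (d : ℕ) (G : Finset κ) (i : Fin d),
    (∑ α : κ → Fin d, 1 / (((G.filter (fun j => α j = i)).card : ℝ) + 1)
        ≤ (d : ℝ) ^ Fintype.card κ * ((d : ℝ) / ((G.card : ℝ) + 1))) ∧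
    (∑ α : κ → Fin d, 1 / (((G.filter (fun j => α j = i)).card : ℝ) + 1) ^ 2
        ≤ (d : ℝ) ^ Fintype.card κ * (2 * (d : ℝ) ^ 2 / ((G.card : ℝ) + 1) ^ 2))

/-- SUM (summability criterion). -/
def S_Sum : Prop :=
  ∀ (a : ℕ → ℕ) (h : ℕ → ℝ) (C : ℝ), 0 ≤ C → (∀ k, 0 ≤ h k) →
    (∀ k, h k ≤ C / (((k : ℝ) + 1) *
      Real.sqrt ((((Finset.range k).filter (fun j => a k ≤ a j)).card : ℝ) + 1))) →
    (∀ (k : ℕ) (E : Finset ℕ) (M : ℕ), 1 ≤ M → E ⊆ Finset.range k →
      (∀ v : ℕ, (E.filter (fun j => a j = v)).card ≤ M) →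
      h k ≤ C * (M : ℝ) ^ 2 / ((E.card : ℝ) + 1) ^ 2) →
    Summable h

/-- SRW (planar simple random walk comes close to the origin with probability bounded below,
uniformly in the starting point of a bounded box). -/
def S_SRW : Prop :=
  ∃ c : ℝ, 0 < c ∧ ∀ B : ℕ, ∃ T : ℕ, ∀ y : Fin 2 → ℤ, (∀ i, |y i| ≤ (B : ℤ)) →
    c ≤ (iid 2).real {V | ∃ t ≤ T, ∀ i, |y i + W (fun _ => 1) V t i| ≤ 1}

/-- ONE (dimension one). -/
def S_One : Prop :=
  ∀ a : ℕ → ℕ, (∀ j, 1 ≤ a j) → ∀ᵐ V ∂(iid 1),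
    ¬ Tendsto (fun k => W a V k 0) atTop atTop ∧ ¬ Tendsto (fun k => W a V k 0) atTop atBot

end Pool.Agent.Q293.CR
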