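import Mathlib
import Pool.Agent.Q293.CR.Stm

set_option autoImplicit false
set_option linter.unusedSectionVars false

open Finset

namespace Pool.Agent.Q293.CR

section Step

variable {κ : Type} [Fintype κ] [DecidableEq κ]

theorem fib (J : Finset κ) (R : Finset κ → Prop) [DecidablePred R] :
    ((univ : Finset (Finset κ)).filter R).card
      = ∑ U ∈ (Jᶜ).powerset, (J.powerset.filter (fun T => R (T ∪ U))).card := by
  classical
  rw [card_eq_sum_card_fiberwise (f := fun T : Finset κ => T \ J) (t := (Jᶜ).powerset)]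
  · refine sum_congr rfl fun U hU => ?_
    rw [mem_powerset] at hU
    refine card_bij' (fun T _ => T ∩ J) (fun T _ => T ∪ U) ?_ ?_ ?_ ?_
    · intro T hT
      simp only [mem_filter, mem_univ, true_and, mem_powerset] at hT ⊢
      refine ⟨inter_subset_right, ?_⟩
      rw [← hT.2, union_comm, sdiff_union_inter]
      exact hT.1
    · intro T hT
      simp only [mem_filter, mem_univ, true_and, mem_powerset] at hT ⊢
      refine ⟨hT.2, ?_⟩
      ext j
      simp only [mem_sdiff, mem_union]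
      constructor
      · rintro ⟨h1 | h1, h2⟩
        · exact absurd (hT.1 h1) h2
        · exact h1
      · intro h
        exact ⟨Or.inr h, fun hj => by simpa using (mem_compl.1 (hU h)) hj⟩
    · intro T hT
      simp only [mem_filter, mem_univ, true_and] at hT
      rw [← hT.2, union_comm, sdiff_union_inter]
    · intro T hT
      simp only [mem_filter, mem_powerset] at hT
      ext j
      simp only [mem_inter, mem_union]
      constructor
      · rintro ⟨h1 | h1, h2⟩
        · exact h1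
        · exact absurd h2 (mem_compl.1 (hU h1))
      · intro h
        exact ⟨Or.inl h, hT.1 h⟩
  · intro T _
    simp only [coe_powerset, Set.mem_preimage, Set.mem_powerset_iff, coe_subset]
    intro j hj
    simp only [mem_sdiff] at hj
    exact mem_compl.2 hj.2

theorem sg_congr (a : κ → ℕ) (J T T' : Finset κ) (h : ∀ j ∈ J, j ∈ T ↔ j ∈ T') :
    sg a J T = sg a J T' := by
  unfold sg
  refine sum_congr rfl fun j hj => ?_
  by_cases h1 : j ∈ T
  · rw [if_pos h1, if_pos ((h j hj).1 h1)]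
  · rw [if_neg h1, if_neg (fun h2 => h1 ((h j hj).2 h2))]

theorem step (J : Finset κ) (q : ℝ) (P : ℤ → Prop) [DecidablePred P] (a : κ → ℕ)
    (hP : ∀ x : ℤ, (((J.powerset.filter (fun T => P (x + sg a J T))).card : ℕ) : ℝ)
      ≤ 2 ^ J.card * q)
    (x : Finset κ → ℤ) (Q : Finset κ → Prop) [DecidablePred Q]
    (hx : ∀ T, x (T \ J) = x T) (hQ : ∀ T, Q (T \ J) ↔ Q T) :
    ((((univ : Finset (Finset κ)).filter (fun T => P (x T + sg a J T) ∧ Q T)).card : ℕ) : ℝ)
      ≤ q * (((univ : Finset (Finset κ)).filter Q).card : ℝ) := by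
  classical
  rw [fib J, fib J Q]
  push_cast
  rw [mul_sum]
  refine sum_le_sum fun U hU => ?_
  rw [mem_powerset] at hU
  have hd : ∀ T ∈ J.powerset, (T ∪ U) \ J = U := by
    intro T hT
    rw [mem_powerset] at hT
    ext j
    simp only [mem_sdiff, mem_union]
    constructor
    · rintro ⟨h1 | h1, h2⟩
      · exact absurd (hT h1) h2
      · exact h1
    · intro h
      exact ⟨Or.inr h, mem_compl.1 (hU h)⟩
  by_cases hq : Q U
  · have e1 : (J.powerset.filter (fun T => P (x (T ∪ U) + sg a J (T ∪ U)) ∧ Q (T ∪ U)))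
        = J.powerset.filter (fun T => P (x U + sg a J T)) := by
      refine filter_congr fun T hT => ?_
      have h1 : x (T ∪ U) = x U := by rw [← hx (T ∪ U), hd T hT]
      have h2 : sg a J (T ∪ U) = sg a J T := by
        refine sg_congr a J _ _ fun j hj => ?_
        simp only [mem_union]
        constructor
        · rintro (h | h)
          · exact h
          · exact absurd hj (mem_compl.1 (hU h))
        · exact Or.inl
      have h3 : Q (T ∪ U) := by rw [← hQ, hd T hT]; exact hq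
      rw [h1, h2]
      simp [h3]
    have e2 : (J.powerset.filter (fun T => Q (T ∪ U))) = J.powerset := by
      refine filter_true_of_mem fun T hT => ?_
      rw [← hQ, hd T hT]; exact hq
    rw [e1, e2, card_powerset]
    push_cast
    rw [mul_comm]
    exact hP _
  · have e1 : (J.powerset.filter (fun T => P (x (T ∪ U) + sg a J (T ∪ U)) ∧ Q (T ∪ U)))
        = ∅ := by
      refine filter_false_of_mem fun T hT => ?_
      rintro ⟨_, h⟩
      rw [← hQ, hd T hT] at h
      exact hq h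
    have e2 : (J.powerset.filter (fun T => Q (T ∪ U))) = ∅ := by
      refine filter_false_of_mem fun T hT => ?_
      intro h
      rw [← hQ, hd T hT] at h
      exact hq h
    rw [e1, e2]
    simp

theorem sg_split (a : κ → ℕ) (J J' T : Finset κ) (h : J' ⊆ J) :
    sg a J T = sg a (J \ J') T + sg a J' T := by
  unfold sg
  rw [sum_sdiff h]

theorem sg_off (a : κ → ℕ) (J J' T : Finset κ) (h : Disjoint J J') :
    sg a J (T \ J') = sg a J T := by
  refine sg_congr a J _ _ fun j hj => ?_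
  simp only [mem_sdiff]
  constructor
  · exact fun h => h.1
  · exact fun h1 => ⟨h1, fun h2 => (disjoint_left.1 h hj h2)⟩

/-- peel one coordinate -/
theorem peel (J J' : Finset κ) (hJ : J' ⊆ J) (q : ℝ) (P : ℤ → Prop) [DecidablePred P]
    (a : κ → ℕ)
    (hP : ∀ x : ℤ, (((J'.powerset.filter (fun T => P (x + sg a J' T))).card : ℕ) : ℝ)
      ≤ 2 ^ J'.card * q)
    (Q : Finset κ → Prop) [DecidablePred Q] (hQ : ∀ T, Q (T \ J') ↔ Q T) :
    ((((univ : Finset (Finset κ)).filter (fun T => P (sg a J T) ∧ Q T)).card : ℕ) : ℝ)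
      ≤ q * (((univ : Finset (Finset κ)).filter Q).card : ℝ) := by
  have h := step J' q P a hP (fun T => sg a (J \ J') T) Q
    (fun T => sg_off a _ _ _ (sdiff_disjoint)) hQ
  simpa only [← sg_split a J J' _ hJ] using h

theorem two (J1 J1' J2 J2' : Finset κ) (h1 : J1' ⊆ J1) (h2 : J2' ⊆ J2)
    (h12 : Disjoint J1 J2) (q1 q2 : ℝ) (hq1 : 0 ≤ q1) (P1 P2 : ℤ → Prop)
    [DecidablePred P1] [DecidablePred P2] (a : κ → ℕ)
    (hP1 : ∀ x : ℤ, (((J1'.powerset.filter (fun T => P1 (x + sg a J1' T))).card : ℕ) : ℝ)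
      ≤ 2 ^ J1'.card * q1)
    (hP2 : ∀ x : ℤ, (((J2'.powerset.filter (fun T => P2 (x + sg a J2' T))).card : ℕ) : ℝ)
      ≤ 2 ^ J2'.card * q2) :
    ((((univ : Finset (Finset κ)).filter
      (fun T => P1 (sg a J1 T) ∧ P2 (sg a J2 T))).card : ℕ) : ℝ)
      ≤ q1 * (q2 * 2 ^ Fintype.card κ) := by
  classical
  refine (peel J1 J1' h1 q1 P1 a hP1 (fun T => P2 (sg a J2 T)) (fun T => by
    rw [sg_off a J2 J1' T (h12.symm.mono_right h1)])).trans ?_
  refine mul_le_mul_of_nonneg_left ?_ hq1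
  have h := peel J2 J2' h2 q2 P2 a hP2 (fun _ => True) (fun T => Iff.rfl)
  simp only [and_true] at h
  refine h.trans (le_of_eq ?_)
  congr 1
  simp

theorem three (J1 J1' J2 J2' J3 J3' : Finset κ) (h1 : J1' ⊆ J1) (h2 : J2' ⊆ J2) (h3 : J3' ⊆ J3)
    (h12 : Disjoint J1 J2) (h13 : Disjoint J1 J3) (h23 : Disjoint J2 J3)
    (q1 q2 q3 : ℝ) (hq1 : 0 ≤ q1) (hq2 : 0 ≤ q2) (P1 P2 P3 : ℤ → Prop)
    [DecidablePred P1] [DecidablePred P2] [DecidablePred P3] (a : κ → ℕ)
    (hP1 : ∀ x : ℤ, (((J1'.powerset.filter (fun T => P1 (x + sg a J1' T))).card : ℕ) : ℝ)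
      ≤ 2 ^ J1'.card * q1)
    (hP2 : ∀ x : ℤ, (((J2'.powerset.filter (fun T => P2 (x + sg a J2' T))).card : ℕ) : ℝ)
      ≤ 2 ^ J2'.card * q2)
    (hP3 : ∀ x : ℤ, (((J3'.powerset.filter (fun T => P3 (x + sg a J3' T))).card : ℕ) : ℝ)
      ≤ 2 ^ J3'.card * q3) :
    ((((univ : Finset (Finset κ)).filter
      (fun T => P1 (sg a J1 T) ∧ P2 (sg a J2 T) ∧ P3 (sg a J3 T))).card : ℕ) : ℝ)
      ≤ q1 * (q2 * (q3 * 2 ^ Fintype.card κ)) := by
  classical
  refine (peel J1 J1' h1 q1 P1 a hP1 (fun T => P2 (sg a J2 T) ∧ P3 (sg a J3 T)) (fun T => by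
    rw [sg_off a J2 J1' T (h12.symm.mono_right h1),
      sg_off a J3 J1' T (h13.symm.mono_right h1)])).trans ?_
  refine mul_le_mul_of_nonneg_left ?_ hq1
  exact two J2 J2' J3 J3' h2 h3 h23 q2 q3 hq2 P2 P3 a hP2 hP3

end Step

section Cnt

variable {κ : Type} [Fintype κ] [DecidableEq κ] {d : ℕ}

/-- configurations as pairs (axes, set of positive signs) -/
def cfg (κ : Type) [Fintype κ] [DecidableEq κ] (d : ℕ) :
    (κ → Dir d) ≃ (κ → Fin d) × Finset κ where
  toFun v := (fun j => (v j).1, univ.filter (fun j => (v j).2 = true))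
  invFun w := fun j => (w.1 j, decide (j ∈ w.2))
  left_inv v := by
    funext j
    simp
  right_inv w := by
    ext j
    · simp
    · simp

theorem cnt (R : (κ → Fin d) × Finset κ → Prop) [DecidablePred R] :
    ((univ : Finset (κ → Dir d)).filter (fun v => R (cfg κ d v))).card
      = ∑ α : κ → Fin d, ((univ : Finset (Finset κ)).filter (fun T => R (α, T))).card := by
  simp only [card_filter]
  rw [Fintype.sum_equiv (cfg κ d) (fun v => if R (cfg κ d v) then 1 else 0)
    (fun w => if R w then 1 else 0) (fun v => rfl), Fintype.sum_prod_type]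

/-- coordinate of the position -/
theorem pos_eq (a : κ → ℕ) (v : κ → Dir d) (i : Fin d) :
    ∑ j, (a j : ℤ) * vec (v j) i
      = sg a (univ.filter (fun j => (cfg κ d v).1 j = i)) (cfg κ d v).2 := by
  unfold sg cfg
  rw [sum_filter]
  refine sum_congr rfl fun j _ => ?_
  simp only [Equiv.coe_fn_mk, mem_filter, mem_univ, true_and, vec]
  by_cases h : (v j).1 = i
  · rw [if_pos h, if_pos h.symm]
    by_cases h2 : (v j).2 = true
    · simp [h2]
    · simp [h2]
  · rw [if_neg h, if_neg (fun h' => h h'.symm)]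
    simp

theorem disj (α : κ → Fin d) (i1 i2 : Fin d) (h : i1 ≠ i2) :
    Disjoint (univ.filter (fun j => α j = i1)) (univ.filter (fun j => α j = i2)) := by
  rw [disjoint_left]
  intro j hj hj2
  simp only [mem_filter, mem_univ, true_and] at hj hj2
  exact h (hj.symm.trans hj2)

theorem sum_inv_le (hB : S_Bin) (G1 G2 : Finset κ) (g : ℕ) (hg1 : G1.card = g)
    (hg2 : G2.card = g) (i1 i2 : Fin d) :
    ∑ α : κ → Fin d, (1 / (((G1.filter (fun j => α j = i1)).card : ℝ) + 1)) *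
      (1 / (((G2.filter (fun j => α j = i2)).card : ℝ) + 1))
      ≤ (d : ℝ) ^ Fintype.card κ * (2 * (d : ℝ) ^ 2 / ((g : ℝ) + 1) ^ 2) := by
  have h1 := (hB κ d G1 i1).2
  have h2 := (hB κ d G2 i2).2
  rw [hg1] at h1
  rw [hg2] at h2
  have h3 : ∀ α : κ → Fin d, (1 / (((G1.filter (fun j => α j = i1)).card : ℝ) + 1)) *
      (1 / (((G2.filter (fun j => α j = i2)).card : ℝ) + 1))
      ≤ (1 / 2) * (1 / (((G1.filter (fun j => α j = i1)).card : ℝ) + 1) ^ 2
        + 1 / (((G2.filter (fun j => α j = i2)).card : ℝ) + 1) ^ 2) := by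
    intro α
    set x := (1 / (((G1.filter (fun j => α j = i1)).card : ℝ) + 1))
    set y := (1 / (((G2.filter (fun j => α j = i2)).card : ℝ) + 1))
    have hx : 1 / (((G1.filter (fun j => α j = i1)).card : ℝ) + 1) ^ 2 = x ^ 2 := by
      rw [← one_div_pow]
    have hy : 1 / (((G2.filter (fun j => α j = i2)).card : ℝ) + 1) ^ 2 = y ^ 2 := by
      rw [← one_div_pow]
    rw [hx, hy]
    nlinarith [sq_nonneg (x - y)]
  refine (sum_le_sum fun α _ => h3 α).trans ?_
  rw [← mul_sum, sum_add_distrib]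
  linarith

/-- two small coordinates, few coincidences -/
theorem E3 (hHA : S_HA) (hB : S_Bin) (a : κ → ℕ) (R M : ℕ) (E : Finset κ) (hM : 1 ≤ M)
    (ha : ∀ j, 1 ≤ a j) (hE : ∀ v : ℕ, (E.filter (fun j => a j = v)).card ≤ M)
    (i1 i2 : Fin d) (h12 : i1 ≠ i2) :
    (((univ : Finset (κ → Dir d)).filter (fun v =>
      |∑ j, (a j : ℤ) * vec (v j) i1| ≤ (R : ℤ) ∧
      |∑ j, (a j : ℤ) * vec (v j) i2| ≤ (R : ℤ))).card : ℝ)
      ≤ (2 * (d : ℝ)) ^ Fintype.card κ *
        (((2 * (R : ℝ) + 1) * (12 * (M : ℝ))) ^ 2 * (2 * (d : ℝ) ^ 2 / ((E.card : ℝ) + 1) ^ 2))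
    := by
  classical
  set A : ℝ := (2 * (R : ℝ) + 1) * (12 * (M : ℝ)) with hA
  have hA0 : 0 ≤ A := by positivity
  have e0 : ((univ : Finset (κ → Dir d)).filter (fun v =>
      |∑ j, (a j : ℤ) * vec (v j) i1| ≤ (R : ℤ) ∧
      |∑ j, (a j : ℤ) * vec (v j) i2| ≤ (R : ℤ))).card
      = ∑ α : κ → Fin d, ((univ : Finset (Finset κ)).filter (fun T =>
          |sg a (univ.filter (fun j => α j = i1)) T| ≤ (R : ℤ) ∧
          |sg a (univ.filter (fun j => α j = i2)) T| ≤ (R : ℤ))).card := by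
    refine Eq.trans ?_ (cnt (κ := κ) (d := d) (fun w : (κ → Fin d) × Finset κ =>
          |sg a (univ.filter (fun j => w.1 j = i1)) w.2| ≤ (R : ℤ) ∧
          |sg a (univ.filter (fun j => w.1 j = i2)) w.2| ≤ (R : ℤ)))
    refine congrArg card (filter_congr fun v _ => ?_)
    rw [pos_eq, pos_eq]
  rw [e0]
  push_cast
  have hα : ∀ α : κ → Fin d, ((((univ : Finset (Finset κ)).filter (fun T =>
      |sg a (univ.filter (fun j => α j = i1)) T| ≤ (R : ℤ) ∧
      |sg a (univ.filter (fun j => α j = i2)) T| ≤ (R : ℤ))).card : ℕ) : ℝ)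
      ≤ (2 ^ Fintype.card κ * A ^ 2) * ((1 / (((E.filter (fun j => α j = i1)).card : ℝ) + 1)) *
      (1 / (((E.filter (fun j => α j = i2)).card : ℝ) + 1))) := by
    intro α
    have key : ∀ i : Fin d, ∀ x : ℤ, ((((E.filter (fun j => α j = i)).powerset.filter
        (fun T => |x + sg a (E.filter (fun j => α j = i)) T| ≤ (R : ℤ))).card : ℕ) : ℝ)
        ≤ 2 ^ (E.filter (fun j => α j = i)).card *
          (A / (((E.filter (fun j => α j = i)).card : ℝ) + 1)) := by
      intro i x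
      refine hHA κ (E.filter (fun j => α j = i)) a R M x hM (fun j _ => ha j) (fun v => ?_)
      refine le_trans (card_le_card ?_) (hE v)
      intro j hj
      simp only [mem_filter] at hj ⊢
      exact ⟨hj.1.1, hj.2⟩
    have h := two (univ.filter (fun j => α j = i1)) (E.filter (fun j => α j = i1))
      (univ.filter (fun j => α j = i2)) (E.filter (fun j => α j = i2))
      (filter_subset_filter _ (subset_univ E)) (filter_subset_filter _ (subset_univ E))
      (disj α i1 i2 h12) (A / (((E.filter (fun j => α j = i1)).card : ℝ) + 1))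
      (A / (((E.filter (fun j => α j = i2)).card : ℝ) + 1)) (by positivity)
      (fun z => |z| ≤ (R : ℤ)) (fun z => |z| ≤ (R : ℤ)) a (key i1) (key i2)
    refine h.trans (le_of_eq ?_)
    ring
  refine (sum_le_sum fun α _ => hα α).trans ?_
  rw [← mul_sum]
  have h4 := mul_le_mul_of_nonneg_left (sum_inv_le hB E E E.card rfl rfl i1 i2)
    (by positivity : (0 : ℝ) ≤ 2 ^ Fintype.card κ * A ^ 2)
  refine h4.trans (le_of_eq ?_)
  rw [mul_pow]
  ring

theorem cs_alg (X Y D t g dd : ℝ) (hD : 0 ≤ D) (hg : 0 ≤ g) (hd1 : 1 ≤ dd)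
    (hX : X ≤ D * (2 * dd ^ 2 / (t + 1) ^ 2)) (hY : Y ≤ D * (dd / (g + 1)))
    (ht : 0 ≤ t) :
    Real.sqrt X * Real.sqrt Y ≤ D * (2 * dd ^ 2 / ((t + 1) * Real.sqrt (g + 1))) := by
  have hd0 : 0 ≤ dd := by linarith
  have h1 : Real.sqrt X * Real.sqrt Y ≤ Real.sqrt (D * (2 * dd ^ 2 / (t + 1) ^ 2)) *
      Real.sqrt (D * (dd / (g + 1))) :=
    mul_le_mul (Real.sqrt_le_sqrt hX) (Real.sqrt_le_sqrt hY) (Real.sqrt_nonneg _)
      (Real.sqrt_nonneg _)
  refine h1.trans ?_
  rw [← Real.sqrt_mul (by positivity)]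
  refine Real.sqrt_le_iff.2 ⟨by positivity, ?_⟩
  have hs : Real.sqrt (g + 1) ^ 2 = g + 1 := Real.sq_sqrt (by positivity)
  have e1 : (D * (2 * dd ^ 2 / ((t + 1) * Real.sqrt (g + 1)))) ^ 2
      = D ^ 2 * (4 * dd ^ 4) / ((t + 1) ^ 2 * (g + 1)) := by
    rw [mul_pow, div_pow, mul_pow, mul_pow, hs]
    ring
  have e2 : (D * (2 * dd ^ 2 / (t + 1) ^ 2)) * (D * (dd / (g + 1)))
      = D ^ 2 * (2 * dd ^ 3) / ((t + 1) ^ 2 * (g + 1)) := by
    have h2 : (t + 1) ≠ 0 := by positivity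
    have h3 : (g + 1) ≠ 0 := by positivity
    field_simp
  rw [e1, e2]
  refine div_le_div_of_nonneg_right ?_ (by positivity)
  refine mul_le_mul_of_nonneg_left ?_ (by positivity)
  have h3 : (0 : ℝ) ≤ dd ^ 3 := by positivity
  nlinarith [h3, hd1]

/-- three small coordinates -/
theorem E1 (hLO : S_LO) (hB : S_Bin) (a : κ → ℕ) (R c : ℕ) (hc : 1 ≤ c)
    (ha : ∀ j, 1 ≤ a j) (i1 i2 i3 : Fin d) (h12 : i1 ≠ i2) (h13 : i1 ≠ i3) (h23 : i2 ≠ i3) :
    (((univ : Finset (κ → Dir d)).filter (fun v =>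
      |∑ j, (a j : ℤ) * vec (v j) i1| ≤ (R : ℤ) ∧
      |∑ j, (a j : ℤ) * vec (v j) i2| ≤ (R : ℤ) ∧
      |∑ j, (a j : ℤ) * vec (v j) i3| ≤ ((c + R : ℕ) : ℤ))).card : ℝ)
      ≤ (2 * (d : ℝ)) ^ Fintype.card κ *
        (((R : ℝ) + 2) ^ 3 * (2 * (d : ℝ) ^ 2 / (((Fintype.card κ : ℝ) + 1) *
          Real.sqrt (((univ.filter (fun j => c ≤ a j)).card : ℝ) + 1)))) := by
  classical
  set G : Finset κ := univ.filter (fun j => c ≤ a j) with hG
  set n := Fintype.card κ with hn
  have hd1 : (1 : ℝ) ≤ (d : ℝ) := by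
    have : 1 ≤ d := Nat.one_le_iff_ne_zero.2 (fun h => by subst h; exact i1.elim0)
    exact_mod_cast this
  have e0 : ((univ : Finset (κ → Dir d)).filter (fun v =>
      |∑ j, (a j : ℤ) * vec (v j) i1| ≤ (R : ℤ) ∧
      |∑ j, (a j : ℤ) * vec (v j) i2| ≤ (R : ℤ) ∧
      |∑ j, (a j : ℤ) * vec (v j) i3| ≤ ((c + R : ℕ) : ℤ))).card
      = ∑ α : κ → Fin d, ((univ : Finset (Finset κ)).filter (fun T =>
          |sg a (univ.filter (fun j => α j = i1)) T| ≤ (R : ℤ) ∧
          |sg a (univ.filter (fun j => α j = i2)) T| ≤ (R : ℤ) ∧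
          |sg a (univ.filter (fun j => α j = i3)) T| ≤ ((c + R : ℕ) : ℤ))).card := by
    refine Eq.trans ?_ (cnt (κ := κ) (d := d) (fun w : (κ → Fin d) × Finset κ =>
          |sg a (univ.filter (fun j => w.1 j = i1)) w.2| ≤ (R : ℤ) ∧
          |sg a (univ.filter (fun j => w.1 j = i2)) w.2| ≤ (R : ℤ) ∧
          |sg a (univ.filter (fun j => w.1 j = i3)) w.2| ≤ ((c + R : ℕ) : ℤ)))
    refine congrArg card (filter_congr fun v _ => ?_)
    rw [pos_eq, pos_eq, pos_eq]
  rw [e0]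
  push_cast
  set N1 : (κ → Fin d) → ℝ := fun α => ((univ.filter (fun j => α j = i1)).card : ℝ) + 1 with hN1
  set N2 : (κ → Fin d) → ℝ := fun α => ((univ.filter (fun j => α j = i2)).card : ℝ) + 1 with hN2
  set N3 : (κ → Fin d) → ℝ := fun α => ((G.filter (fun j => α j = i3)).card : ℝ) + 1 with hN3
  have p1 : ∀ α, 0 < N1 α := fun α => by simp only [hN1]; positivity
  have p2 : ∀ α, 0 < N2 α := fun α => by simp only [hN2]; positivity
  have p3 : ∀ α, 0 < N3 α := fun α => by simp only [hN3]; positivity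
  have hα : ∀ α : κ → Fin d, ((((univ : Finset (Finset κ)).filter (fun T =>
      |sg a (univ.filter (fun j => α j = i1)) T| ≤ (R : ℤ) ∧
      |sg a (univ.filter (fun j => α j = i2)) T| ≤ (R : ℤ) ∧
      |sg a (univ.filter (fun j => α j = i3)) T| ≤ ((c : ℤ) + (R : ℤ)))).card : ℕ) : ℝ)
      ≤ (2 ^ n * ((R : ℝ) + 2) ^ 3) * ((1 / Real.sqrt (N1 α * N2 α)) * (1 / Real.sqrt (N3 α)))
      := by
    intro α
    have key : ∀ i : Fin d, ∀ x : ℤ, ((((univ.filter (fun j => α j = i)).powerset.filter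
        (fun T => |x + sg a (univ.filter (fun j => α j = i)) T| ≤ (R : ℤ))).card : ℕ) : ℝ)
        ≤ 2 ^ (univ.filter (fun j => α j = i)).card *
          (((R : ℝ) + 2) / Real.sqrt (((univ.filter (fun j => α j = i)).card : ℝ) + 1)) := by
      intro i x
      refine (hLO κ (univ.filter (fun j => α j = i)) a 1 R x le_rfl (fun j _ => ha j)).trans ?_
      refine mul_le_mul_of_nonneg_left ?_ (by positivity)
      refine div_le_div_of_nonneg_right ?_ (Real.sqrt_nonneg _)
      rw [Nat.div_one]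
      push_cast
      linarith
    have key3 : ∀ x : ℤ, ((((G.filter (fun j => α j = i3)).powerset.filter
        (fun T => |x + sg a (G.filter (fun j => α j = i3)) T| ≤ ((c : ℤ) + (R : ℤ)))).card : ℕ) : ℝ)
        ≤ 2 ^ (G.filter (fun j => α j = i3)).card *
          (((R : ℝ) + 2) / Real.sqrt (((G.filter (fun j => α j = i3)).card : ℝ) + 1)) := by
      intro x
      have h := hLO κ (G.filter (fun j => α j = i3)) a c (c + R) x hc (fun j hj => by
        simp only [hG, mem_filter, mem_univ, true_and] at hj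
        exact hj.1)
      push_cast at h
      refine h.trans ?_
      refine mul_le_mul_of_nonneg_left ?_ (by positivity)
      refine div_le_div_of_nonneg_right ?_ (Real.sqrt_nonneg _)
      have h5 : (c + R) / c ≤ R + 1 := by
        rw [Nat.add_div_left _ hc]
        have := Nat.div_le_self R c
        omega
      have h6 : (((c + R) / c : ℕ) : ℝ) ≤ (R : ℝ) + 1 := by exact_mod_cast h5
      linarith
    have h := three (univ.filter (fun j => α j = i1)) (univ.filter (fun j => α j = i1))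
      (univ.filter (fun j => α j = i2)) (univ.filter (fun j => α j = i2))
      (univ.filter (fun j => α j = i3)) (G.filter (fun j => α j = i3))
      subset_rfl subset_rfl (filter_subset_filter _ (subset_univ G))
      (disj α i1 i2 h12) (disj α i1 i3 h13) (disj α i2 i3 h23)
      (((R : ℝ) + 2) / Real.sqrt (N1 α)) (((R : ℝ) + 2) / Real.sqrt (N2 α))
      (((R : ℝ) + 2) / Real.sqrt (N3 α)) (by positivity) (by positivity)
      (fun z => |z| ≤ (R : ℤ)) (fun z => |z| ≤ (R : ℤ)) (fun z => |z| ≤ (c : ℤ) + (R : ℤ)) a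
      (key i1) (key i2) key3
    refine h.trans (le_of_eq ?_)
    rw [Real.sqrt_mul (p1 α).le]
    have s1 : Real.sqrt (N1 α) ≠ 0 := (Real.sqrt_pos.2 (p1 α)).ne'
    have s2 : Real.sqrt (N2 α) ≠ 0 := (Real.sqrt_pos.2 (p2 α)).ne'
    have s3 : Real.sqrt (N3 α) ≠ 0 := (Real.sqrt_pos.2 (p3 α)).ne'
    field_simp
    rfl
  refine (sum_le_sum fun α _ => hα α).trans ?_
  rw [← mul_sum]
  have hcs := Real.sum_mul_le_sqrt_mul_sqrt (univ : Finset (κ → Fin d))
    (fun α => 1 / Real.sqrt (N1 α * N2 α)) (fun α => 1 / Real.sqrt (N3 α))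
  have hX : ∑ α : κ → Fin d, (1 / Real.sqrt (N1 α * N2 α)) ^ 2
      ≤ (d : ℝ) ^ n * (2 * (d : ℝ) ^ 2 / ((n : ℝ) + 1) ^ 2) := by
    have e : ∀ α : κ → Fin d, (1 / Real.sqrt (N1 α * N2 α)) ^ 2
        = (1 / N1 α) * (1 / N2 α) := by
      intro α
      rw [div_pow, Real.sq_sqrt (mul_nonneg (p1 α).le (p2 α).le), one_pow]
      field_simp
    simp only [e]
    exact sum_inv_le hB univ univ n (card_univ) (card_univ) i1 i2
  have hY : ∑ α : κ → Fin d, (1 / Real.sqrt (N3 α)) ^ 2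
      ≤ (d : ℝ) ^ n * ((d : ℝ) / ((G.card : ℝ) + 1)) := by
    have e : ∀ α : κ → Fin d, (1 / Real.sqrt (N3 α)) ^ 2 = 1 / N3 α := by
      intro α
      rw [div_pow, Real.sq_sqrt (p3 α).le, one_pow]
    simp only [e]
    exact (hB κ d G i3).1
  have hfin : Real.sqrt (∑ α : κ → Fin d, (1 / Real.sqrt (N1 α * N2 α)) ^ 2) *
      Real.sqrt (∑ α : κ → Fin d, (1 / Real.sqrt (N3 α)) ^ 2)
      ≤ (d : ℝ) ^ n * (2 * (d : ℝ) ^ 2 / (((n : ℝ) + 1) * Real.sqrt ((G.card : ℝ) + 1))) := by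
    exact cs_alg _ _ _ _ _ _ (by positivity) (by positivity) hd1 hX hY (by positivity)
  have h7 := hcs.trans hfin
  refine (mul_le_mul_of_nonneg_left h7 (by positivity : (0 : ℝ) ≤ 2 ^ n * ((R : ℝ) + 2) ^ 3)).trans
    (le_of_eq ?_)
  rw [mul_pow]
  ring

end Cnt

end Pool.Agent.Q293.CR
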