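import Mathlib
import Pool.Agent.Q293.CR.Stm

set_option autoImplicit false
set_option linter.unusedSectionVars false

open MeasureTheory ProbabilityTheory

namespace Pool.Agent.Q293.CR

variable {d : ℕ} [NeZero d]

instance instUnif : IsProbabilityMeasure (unif d) := by unfold unif; infer_instance
instance instIid : IsProbabilityMeasure (iid d) := by unfold iid; infer_instance

theorem unif_singleton (u : Dir d) : unif d {u} = ((2 * d : ℕ) : ENNReal)⁻¹ := by
  unfold unif
  rw [PMF.toMeasure_apply_singleton _ _ (measurableSet_singleton u),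
    PMF.uniformOfFintype_apply]
  congr 2
  simp [mul_comm]

theorem unif_real_singleton (u : Dir d) : (unif d).real {u} = (2 * (d : ℝ))⁻¹ := by
  rw [Measure.real, unif_singleton]
  simp

/-- reindexing along an injection preserves the law -/
theorem mp_reindex (e : ℕ → ℕ) (he : Function.Injective e) :
    MeasurePreserving (fun V : ℕ → Dir d => fun j => V (e j)) (iid d) (iid d) := by
  refine ⟨by fun_prop, ?_⟩
  unfold iid
  refine Measure.eq_infinitePi _ fun s t ht => ?_
  rw [Measure.map_apply (by fun_prop) (MeasurableSet.pi s.countable_toSet fun i _ => ht i)]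
  have h1 : (fun V : ℕ → Dir d => fun j => V (e j)) ⁻¹' (Set.pi s t)
      = Set.pi (s.image e : Finset ℕ) (fun i => t (Function.invFun e i)) := by
    ext V
    simp only [Set.mem_preimage, Set.mem_pi, Finset.mem_coe, Finset.mem_image]
    constructor
    · rintro h _ ⟨j, hj, rfl⟩
      rw [Function.leftInverse_invFun he j]
      exact h j hj
    · intro h j hj
      have := h (e j) ⟨j, hj, rfl⟩
      rwa [Function.leftInverse_invFun he j] at this
  rw [h1, Measure.infinitePi_pi _ (fun i _ => ht _), Finset.prod_image (fun a _ b _ h => he h)]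
  refine Finset.prod_congr rfl fun j _ => ?_
  rw [Function.leftInverse_invFun he j]

/-- past and future glued at `n` -/
def glue (n : ℕ) (w : (ℕ → Dir d) × (ℕ → Dir d)) : ℕ → Dir d :=
  fun j => if j < n then w.1 j else w.2 (j - n)

theorem measurable_glue (n : ℕ) : Measurable (glue (d := d) n) := by
  refine measurable_pi_lambda _ fun j => ?_
  unfold glue
  by_cases h : j < n
  · simp only [if_pos h]
    fun_prop
  · simp only [if_neg h]
    fun_prop

theorem mp_glue (n : ℕ) : MeasurePreserving (glue (d := d) n) ((iid d).prod (iid d)) (iid d) := by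
  refine ⟨measurable_glue n, ?_⟩
  conv_rhs => unfold iid
  refine Measure.eq_infinitePi _ fun s t ht => ?_
  rw [Measure.map_apply (measurable_glue n)
    (MeasurableSet.pi s.countable_toSet fun i _ => ht i)]
  have h1 : (glue (d := d) n) ⁻¹' (Set.pi s t)
      = (Set.pi (s.filter (fun j => j < n) : Finset ℕ) t) ×ˢ
        (Set.pi ((s.filter (fun j => ¬ j < n)).image (fun j => j - n) : Finset ℕ)
          (fun i => t (i + n))) := by
    ext w
    simp only [Set.mem_preimage, Set.mem_pi, Finset.mem_coe, Finset.mem_image, Set.mem_prod,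
      Finset.mem_filter, glue]
    constructor
    · intro h
      refine ⟨fun j hj => ?_, ?_⟩
      · have := h j hj.1
        rwa [if_pos hj.2] at this
      · rintro _ ⟨j, hj, rfl⟩
        have := h j hj.1
        rw [if_neg hj.2] at this
        rwa [Nat.sub_add_cancel (not_lt.1 hj.2)]
    · rintro ⟨h1, h2⟩ j hj
      by_cases hjn : j < n
      · rw [if_pos hjn]
        exact h1 j ⟨hj, hjn⟩
      · rw [if_neg hjn]
        have := h2 (j - n) ⟨j, ⟨hj, hjn⟩, rfl⟩
        rwa [Nat.sub_add_cancel (not_lt.1 hjn)] at this
  rw [h1, Measure.prod_prod]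
  unfold iid
  rw [Measure.infinitePi_pi _ (fun i _ => ht _), Measure.infinitePi_pi _ (fun i _ => ht _),
    Finset.prod_image]
  · rw [← Finset.prod_filter_mul_prod_filter_not s (fun j => j < n)]
    congr 1
    refine Finset.prod_congr rfl fun j hj => ?_
    rw [Finset.mem_filter] at hj
    rw [Nat.sub_add_cancel (not_lt.1 hj.2)]
  · intro a ha b hb h
    simp only [Finset.coe_filter, Set.mem_ofPred_eq] at ha hb
    have h' : a - n = b - n := h
    omega

/-- factorization over past and future -/
theorem past_future (n : ℕ) (A : Set (ℕ → Dir d)) (B : Set (ℕ → Dir d)) (hA : MeasurableSet A)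
    (hB : MeasurableSet B)
    (hdep : ∀ V V' : ℕ → Dir d, (∀ j < n, V j = V' j) → (V ∈ A ↔ V' ∈ A)) :
    (iid d).real {V | V ∈ A ∧ (fun j => V (n + j)) ∈ B} = (iid d).real A * (iid d).real B := by
  have hm : MeasurableSet {V : ℕ → Dir d | V ∈ A ∧ (fun j => V (n + j)) ∈ B} := by
    refine hA.inter ?_
    have : Measurable (fun V : ℕ → Dir d => fun j => V (n + j)) := by fun_prop
    exact this hB
  rw [← (mp_glue (d := d) n).measureReal_preimage hm.nullMeasurableSet]
  have h1 : (glue (d := d) n) ⁻¹' {V | V ∈ A ∧ (fun j => V (n + j)) ∈ B} = A ×ˢ B := by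
    ext w
    simp only [Set.mem_preimage, Set.mem_ofPred_eq, Set.mem_prod]
    have e1 : glue n w ∈ A ↔ w.1 ∈ A := hdep _ _ (fun j hj => by simp [glue, hj])
    have e2 : (fun j => glue n w (n + j)) = w.2 := by
      funext j
      simp [glue]
    rw [e1, e2]
  rw [h1, measureReal_prod_prod]

/-- probability of an event depending on the first `k` directions -/
theorem iid_count (k : ℕ) (P : (Fin k → Dir d) → Prop) [DecidablePred P] :
    (iid d).real {V | P (fun j : Fin k => V j)}
      = ((Finset.univ.filter P).card : ℝ) / (2 * (d : ℝ)) ^ k := by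
  have h1 : {V : ℕ → Dir d | P (fun j : Fin k => V j)}
      = ⋃ v ∈ Finset.univ.filter P, {V : ℕ → Dir d | (fun j : Fin k => V j) = v} := by
    ext V
    simp
  have hm : ∀ v : Fin k → Dir d, MeasurableSet {V : ℕ → Dir d | (fun j : Fin k => V j) = v} := by
    intro v
    have h2 : Measurable (fun V : ℕ → Dir d => (fun j : Fin k => V j)) := by fun_prop
    exact h2 (measurableSet_singleton v)
  rw [h1, measureReal_biUnion_finset]
  · have h3 : ∀ v : Fin k → Dir d, (iid d).real {V : ℕ → Dir d | (fun j : Fin k => V j) = v}
        = ((2 * (d : ℝ)) ^ k)⁻¹ := by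
      intro v
      have h4 : {V : ℕ → Dir d | (fun j : Fin k => V j) = v}
          = Set.pi (Finset.range k : Finset ℕ)
            (fun j => if h : j < k then {v ⟨j, h⟩} else Set.univ) := by
        ext V
        simp only [Set.mem_ofPred_eq, Set.mem_pi, Finset.mem_coe, Finset.mem_range]
        constructor
        · rintro h j hj
          rw [dif_pos hj, ← h]
          exact Set.mem_singleton _
        · intro h
          funext j
          have := h j j.2
          rw [dif_pos j.2] at this
          exact this
      rw [Measure.real, h4]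
      unfold iid
      rw [Measure.infinitePi_pi _ (fun i _ => MeasurableSet.of_discrete), ENNReal.toReal_prod]
      have h5 : ∀ j ∈ Finset.range k, ((unif d) (if h : j < k then {v ⟨j, h⟩} else
          Set.univ)).toReal = (2 * (d : ℝ))⁻¹ := by
        intro j hj
        rw [dif_pos (Finset.mem_range.1 hj)]
        exact unif_real_singleton _
      rw [Finset.prod_congr rfl h5, Finset.prod_const, Finset.card_range, inv_pow]
    rw [Finset.sum_congr rfl (fun v _ => h3 v), Finset.sum_const, nsmul_eq_mul, div_eq_mul_inv]
  · intro v _ v' _ hvv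
    simp only [Function.onFun]
    rw [Set.disjoint_left]
    intro V hV hV'
    exact hvv (hV.symm.trans hV')
  · intro v _
    exact hm v

end Pool.Agent.Q293.CR
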