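import Mathlib
import Pool.Agent.Q293.CR.Count
import Pool.Agent.Q293.CR.Meas

set_option autoImplicit false

open MeasureTheory ProbabilityTheory Finset

namespace Pool.Agent.Q293.CR

theorem card_fin_range (k : ℕ) (p : ℕ → Prop) [DecidablePred p] :
    ((univ : Finset (Fin k)).filter (fun j : Fin k => p (j : ℕ))).card
      = ((Finset.range k).filter p).card := by
  rw [card_filter, card_filter, Finset.sum_range]

theorem W_fin {d : ℕ} (a : ℕ → ℕ) (V : ℕ → Dir d) (k : ℕ) (i : Fin d) :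
    W a V k i = ∑ j : Fin k, (a (j : ℕ) : ℤ) * vec (V (j : ℕ)) i := by
  unfold W
  rw [Finset.sum_range]

/-- the bad event on axis `α` -/
def bad {d : ℕ} (a : ℕ → ℕ) (R k : ℕ) (α : Fin d) : Set (ℕ → Dir d) :=
  {V | (∀ i, i ≠ α → |W a V k i| ≤ (R : ℤ)) ∧ |W a V k α| ≤ ((a k + R : ℕ) : ℤ)}

theorem measurable_vec {d : ℕ} : Measurable (vec : Dir d → (Fin d → ℤ)) :=
  measurable_of_countable _

theorem measurable_W {d : ℕ} (a : ℕ → ℕ) (k : ℕ) (i : Fin d) :
    Measurable (fun V : ℕ → Dir d => W a V k i) := by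
  unfold W
  refine Finset.measurable_sum _ fun j _ => ?_
  refine Measurable.const_mul ?_ _
  exact (measurable_pi_apply i).comp (measurable_vec.comp (measurable_pi_apply j))

theorem measurableSet_bad {d : ℕ} (a : ℕ → ℕ) (R k : ℕ) (α : Fin d) :
    MeasurableSet (bad a R k α) := by
  unfold bad
  have h1 : ∀ (i : Fin d) (c : ℤ), MeasurableSet {V : ℕ → Dir d | |W a V k i| ≤ c} := by
    intro i c
    exact (measurable_W a k i) (MeasurableSet.of_discrete (s := {z : ℤ | |z| ≤ c}))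
  have h2 : {V : ℕ → Dir d | (∀ i, i ≠ α → |W a V k i| ≤ (R : ℤ)) ∧
      |W a V k α| ≤ ((a k + R : ℕ) : ℤ)}
      = (⋂ i, ⋂ (_ : i ≠ α), {V : ℕ → Dir d | |W a V k i| ≤ (R : ℤ)}) ∩
        {V : ℕ → Dir d | |W a V k α| ≤ ((a k + R : ℕ) : ℤ)} := by
    ext V
    simp
  rw [h2]
  exact (MeasurableSet.iInter fun i => MeasurableSet.iInter fun _ => h1 i _).inter (h1 _ _)

theorem other_two {d : ℕ} (hd : 3 ≤ d) (α : Fin d) :
    ∃ i1 i2 : Fin d, i1 ≠ i2 ∧ i1 ≠ α ∧ i2 ≠ α := by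
  have h : 2 ≤ ((univ : Finset (Fin d)).erase α).card := by
    rw [card_erase_of_mem (mem_univ α), card_univ, Fintype.card_fin]
    omega
  obtain ⟨i1, h1, i2, h2, h12⟩ := Finset.one_lt_card.1 h
  exact ⟨i1, i2, h12, (mem_erase.1 h1).1, (mem_erase.1 h2).1⟩

variable {d : ℕ} [NeZero d]

theorem bad_le1 (hLO : S_LO) (hB : S_Bin) (hd : 3 ≤ d) (a : ℕ → ℕ) (ha : ∀ j, 1 ≤ a j)
    (R k : ℕ) (α : Fin d) :
    (iid d).real (bad a R k α)
      ≤ ((R : ℝ) + 2) ^ 3 * (2 * (d : ℝ) ^ 2 / (((k : ℝ) + 1) *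
          Real.sqrt ((((Finset.range k).filter (fun j => a k ≤ a j)).card : ℝ) + 1))) := by
  classical
  obtain ⟨i1, i2, h12, h1, h2⟩ := other_two hd α
  have hd0 : (0 : ℝ) < d := by exact_mod_cast (by omega : 0 < d)
  have hsub : bad a R k α ⊆ {V | (fun v : Fin k → Dir d =>
      |∑ j : Fin k, (a (j : ℕ) : ℤ) * vec (v j) i1| ≤ (R : ℤ) ∧
      |∑ j : Fin k, (a (j : ℕ) : ℤ) * vec (v j) i2| ≤ (R : ℤ) ∧
      |∑ j : Fin k, (a (j : ℕ) : ℤ) * vec (v j) α| ≤ ((a k + R : ℕ) : ℤ)) (fun j : Fin k => V j)} := by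
    intro V hV
    refine ⟨?_, ?_, ?_⟩
    · have := hV.1 i1 h1
      rwa [W_fin] at this
    · have := hV.1 i2 h2
      rwa [W_fin] at this
    · have := hV.2
      rwa [W_fin] at this
  refine (measureReal_mono hsub).trans ?_
  refine (iid_count (d := d) k (fun v : Fin k → Dir d =>
      |∑ j : Fin k, (a (j : ℕ) : ℤ) * vec (v j) i1| ≤ (R : ℤ) ∧
      |∑ j : Fin k, (a (j : ℕ) : ℤ) * vec (v j) i2| ≤ (R : ℤ) ∧
      |∑ j : Fin k, (a (j : ℕ) : ℤ) * vec (v j) α| ≤ ((a k + R : ℕ) : ℤ))).le.trans ?_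
  have h := E1 hLO hB (fun j : Fin k => a (j : ℕ)) R (a k) (ha k) (fun j => ha _) i1 i2 α h12 h1 h2
  rw [div_le_iff₀ (by positivity), mul_comm _ ((2 * (d : ℝ)) ^ k)]
  have h3 := card_fin_range k (fun j => a k ≤ a j)
  rw [← h3]
  simpa only [Fintype.card_fin] using h

theorem bad_le3 (hHA : S_HA) (hB : S_Bin) (hd : 3 ≤ d) (a : ℕ → ℕ) (ha : ∀ j, 1 ≤ a j)
    (R k : ℕ) (α : Fin d) (E : Finset ℕ) (M : ℕ) (hM : 1 ≤ M) (hE : E ⊆ Finset.range k)
    (hv : ∀ v : ℕ, (E.filter (fun j => a j = v)).card ≤ M) :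
    (iid d).real (bad a R k α)
      ≤ ((2 * (R : ℝ) + 1) * (12 * (M : ℝ))) ^ 2 * (2 * (d : ℝ) ^ 2 / ((E.card : ℝ) + 1) ^ 2) := by
  classical
  obtain ⟨i1, i2, h12, h1, h2⟩ := other_two hd α
  have hd0 : (0 : ℝ) < d := by exact_mod_cast (by omega : 0 < d)
  have hsub : bad a R k α ⊆ {V | (fun v : Fin k → Dir d =>
      |∑ j : Fin k, (a (j : ℕ) : ℤ) * vec (v j) i1| ≤ (R : ℤ) ∧
      |∑ j : Fin k, (a (j : ℕ) : ℤ) * vec (v j) i2| ≤ (R : ℤ)) (fun j : Fin k => V j)} := by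
    intro V hV
    refine ⟨?_, ?_⟩
    · have := hV.1 i1 h1
      rwa [W_fin] at this
    · have := hV.1 i2 h2
      rwa [W_fin] at this
  refine (measureReal_mono hsub).trans ?_
  refine (iid_count (d := d) k (fun v : Fin k → Dir d =>
      |∑ j : Fin k, (a (j : ℕ) : ℤ) * vec (v j) i1| ≤ (R : ℤ) ∧
      |∑ j : Fin k, (a (j : ℕ) : ℤ) * vec (v j) i2| ≤ (R : ℤ))).le.trans ?_
  have e1 : ((univ : Finset (Fin k)).filter (fun j : Fin k => (j : ℕ) ∈ E)).card = E.card := by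
    rw [card_fin_range k (fun j => j ∈ E)]
    congr 1
    ext j
    simp only [mem_filter]
    exact ⟨fun h => h.2, fun h => ⟨hE h, h⟩⟩
  have h := E3 hHA hB (fun j : Fin k => a (j : ℕ)) R M
    ((univ : Finset (Fin k)).filter (fun j : Fin k => (j : ℕ) ∈ E)) hM (fun j => ha _) (fun v => by
      refine le_trans (le_of_eq ?_) (hv v)
      rw [filter_filter, card_fin_range k (fun j => j ∈ E ∧ a j = v)]
      congr 1
      ext j
      simp only [mem_filter]
      exact ⟨fun h => h.2, fun h => ⟨hE h.1, h⟩⟩) i1 i2 h12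
  rw [e1] at h
  rw [div_le_iff₀ (by positivity), mul_comm _ ((2 * (d : ℝ)) ^ k)]
  simpa only [Fintype.card_fin] using h

theorem core3 (hLO : S_LO) (hHA : S_HA) (hB : S_Bin) (hS : S_Sum) (hd : 3 ≤ d)
    (a : ℕ → ℕ) (ha : ∀ j, 1 ≤ a j) (R : ℕ) :
    ∀ᵐ V ∂(iid d), ∀ᶠ k in Filter.atTop, ∀ s : ℕ, s ≤ a k →
      ∃ i, (R : ℤ) < |W a V k i + (s : ℤ) * vec (V k) i| := by
  set h : ℕ → ℝ := fun k => (iid d).real (⋃ α : Fin d, bad a R k α) with hh
  have hle : ∀ k, h k ≤ ∑ α : Fin d, (iid d).real (bad a R k α) := fun k =>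
    measureReal_iUnion_fintype_le _
  have hd0 : (0 : ℝ) < d := by exact_mod_cast (by omega : 0 < d)
  set C : ℝ := (d : ℝ) * ((((R : ℝ) + 2) ^ 3 + ((2 * (R : ℝ) + 1) * 12) ^ 2) * (2 * (d : ℝ) ^ 2))
    with hC
  have hsum : Summable h := by
    refine hS a h C (by positivity) (fun k => measureReal_nonneg) (fun k => ?_)
      (fun k E M hM hE hv => ?_)
    · refine (hle k).trans ?_
      refine (sum_le_sum fun α _ => bad_le1 hLO hB hd a ha R k α).trans ?_
      rw [sum_const, card_univ, Fintype.card_fin, nsmul_eq_mul]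
      set D := (((k : ℝ) + 1) *
          Real.sqrt ((((Finset.range k).filter (fun j => a k ≤ a j)).card : ℝ) + 1)) with hD
      have hD0 : 0 < D := by positivity
      rw [hC]
      have e : (d : ℝ) * (((R : ℝ) + 2) ^ 3 * (2 * (d : ℝ) ^ 2 / D))
          = ((d : ℝ) * ((((R : ℝ) + 2) ^ 3) * (2 * (d : ℝ) ^ 2))) / D := by
        field_simp
      rw [e]
      refine div_le_div_of_nonneg_right ?_ hD0.le
      have : 0 ≤ ((2 * (R : ℝ) + 1) * 12) ^ 2 := by positivity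
      gcongr
      linarith
    · refine (hle k).trans ?_
      refine (sum_le_sum fun α _ => bad_le3 hHA hB hd a ha R k α E M hM hE hv).trans ?_
      rw [sum_const, card_univ, Fintype.card_fin, nsmul_eq_mul]
      set D := ((E.card : ℝ) + 1) ^ 2 with hD
      have hD0 : 0 < D := by positivity
      rw [hC]
      have e : (d : ℝ) * (((2 * (R : ℝ) + 1) * (12 * (M : ℝ))) ^ 2 * (2 * (d : ℝ) ^ 2 / D))
          = ((d : ℝ) * (((2 * (R : ℝ) + 1) * 12) ^ 2 * (2 * (d : ℝ) ^ 2)) * (M : ℝ) ^ 2) / D := by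
        field_simp
      rw [e]
      refine div_le_div_of_nonneg_right ?_ hD0.le
      have : 0 ≤ ((R : ℝ) + 2) ^ 3 := by positivity
      gcongr
      linarith
  have hne : ∑' k, (iid d) (⋃ α : Fin d, bad a R k α) ≠ ⊤ := by
    have e : ∀ k, (iid d) (⋃ α : Fin d, bad a R k α) = ENNReal.ofReal (h k) := by
      intro k
      rw [hh]
      exact (ofReal_measureReal).symm
    simp only [e]
    exact hsum.tsum_ofReal_ne_top
  filter_upwards [ae_eventually_notMem hne] with V hV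
  filter_upwards [hV] with k hk s hs
  by_contra hcon
  push Not at hcon
  refine hk (Set.mem_iUnion.2 ⟨(V k).1, ?_, ?_⟩)
  · intro i hi
    have := hcon i
    have hv : vec (V k) i = 0 := by
      unfold vec
      rw [if_neg hi]
    rwa [hv, mul_zero, add_zero] at this
  · have h1 := hcon (V k).1
    have h2 : |(s : ℤ) * vec (V k) (V k).1| ≤ (a k : ℤ) := by
      unfold vec
      rw [if_pos rfl]
      split_ifs
      · simp
        exact_mod_cast hs
      · simp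
        exact_mod_cast hs
    have h3 := abs_sub (W a V k (V k).1 + (s : ℤ) * vec (V k) (V k).1)
      ((s : ℤ) * vec (V k) (V k).1)
    rw [add_sub_cancel_right] at h3
    push_cast
    linarith

end Pool.Agent.Q293.CR
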