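import Mathlib
import Pool.Agent.Q293.CR.Meas

set_option autoImplicit false
set_option linter.unusedSectionVars false

open MeasureTheory ProbabilityTheory

namespace Pool.Agent.Q293.CR

section Det

variable {d : ℕ}

theorem walk_zero (b : ℕ → Bool) (x : ℕ → Dir d) : walk b x 0 = 0 := by
  simp [walk]

theorem walk_succ (b : ℕ → Bool) (x : ℕ → Dir d) (n : ℕ) :
    walk b x (n + 1) = walk b x n + vec (dirAt b x (n + 1)) := by
  unfold walk
  rw [Finset.sum_Icc_succ_top (by omega)]

theorem dirAt_fresh (b : ℕ → Bool) (x : ℕ → Dir d) (n : ℕ)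
    (h : n = 0 ∨ b (n + 1) = true) : dirAt b x (n + 1) = x (n + 1) := by
  rw [dirAt, if_pos h]

theorem dirAt_keep (b : ℕ → Bool) (x : ℕ → Dir d) (n : ℕ)
    (h0 : n ≠ 0) (h : b (n + 1) = false) : dirAt b x (n + 1) = dirAt b x n := by
  rw [dirAt, if_neg (by simp [h0, h])]

/-- one block: fresh at `m + 1`, kept until `m + a` -/
theorem walk_block (b : ℕ → Bool) (x : ℕ → Dir d) (m a : ℕ)
    (h1 : m = 0 ∨ b (m + 1) = true)
    (h2 : ∀ j, 2 ≤ j → j ≤ a → b (m + j) = false) (s : ℕ) (hs : s ≤ a) :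
    walk b x (m + s) = walk b x m + (fun i => (s : ℤ) * vec (x (m + 1)) i) := by
  have hd : ∀ s, 1 ≤ s → s ≤ a → dirAt b x (m + s) = x (m + 1) := by
    intro s hs1
    induction s, hs1 using Nat.le_induction with
    | base => intro _; exact dirAt_fresh b x m h1
    | succ s hs1 ih =>
      intro hsa
      rw [← Nat.add_assoc, dirAt_keep b x (m + s) (by omega)
        (by rw [Nat.add_assoc]; exact h2 (s + 1) (by omega) hsa)]
      exact ih (by omega)
  induction s with
  | zero => funext i; simp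
  | succ s ih =>
    rw [← Nat.add_assoc, walk_succ, ih (by omega), Nat.add_assoc, hd (s + 1) (by omega) hs]
    funext i
    simp only [Pi.add_apply]
    push_cast
    ring

/-- `e` enumerates the reset times of `b` -/
structure Enum (b : ℕ → Bool) (e : ℕ → ℕ) : Prop where
  mono : StrictMono e
  zero : e 0 = 1
  iff : ∀ n, 2 ≤ n → (b n = true ↔ ∃ k, e k = n)

theorem exists_enum (b : ℕ → Bool) (h : ∀ N, ∃ n, N ≤ n ∧ b n = true) :
    ∃ e, Enum b e := by
  classical
  set A : ℕ → Prop := fun n => n = 1 ∨ (2 ≤ n ∧ b n = true) with hA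
  have hinf : (Set.ofPred A).Infinite := by
    rw [Set.infinite_iff_exists_gt]
    intro N
    obtain ⟨n, hn, hb⟩ := h (N + 2)
    exact ⟨n, Or.inr ⟨by omega, hb⟩, by omega⟩
  refine ⟨Nat.nth A, Nat.nth_strictMono hinf, ?_, ?_⟩
  · rw [Nat.nth_zero]
    have h1 : (1 : ℕ) ∈ Set.ofPred A := Or.inl rfl
    refine le_antisymm (Nat.sInf_le h1) ?_
    have h2 : sInf (Set.ofPred A) ∈ Set.ofPred A := Nat.sInf_mem ⟨1, h1⟩
    rcases h2 with h2 | h2
    · exact h2.ge
    · exact le_trans (by omega) h2.1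
  · intro n hn
    constructor
    · intro hb
      have h1 : A n := Or.inr ⟨hn, hb⟩
      have h2 : n ∈ Set.range (Nat.nth A) := by
        rw [Nat.range_nth_of_infinite hinf]
        exact h1
      exact h2
    · rintro ⟨k, rfl⟩
      have h1 := Nat.nth_mem_of_infinite hinf k
      rcases h1 with h1 | h1
      · omega
      · exact h1.2

variable {b : ℕ → Bool} {e : ℕ → ℕ}

theorem Enum.pos (he : Enum b e) (k : ℕ) : 1 ≤ e k := by
  rw [← he.zero]
  exact he.mono.monotone (Nat.zero_le k)

/-- block lengths -/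
def lens (e : ℕ → ℕ) (k : ℕ) : ℕ := e (k + 1) - e k

theorem Enum.lens_pos (he : Enum b e) (k : ℕ) : 1 ≤ lens e k := by
  have := he.mono (Nat.lt_succ_self k)
  unfold lens
  have h2 : e k < e (k + 1) := this
  omega

theorem Enum.block (he : Enum b e) (x : ℕ → Dir d) (k s : ℕ) (hs : s ≤ lens e k) :
    walk b x (e k - 1 + s) = walk b x (e k - 1) + (fun i => (s : ℤ) * vec (x (e k)) i) := by
  have hp := he.pos k
  have h := walk_block b x (e k - 1) (lens e k) ?_ ?_ s hs
  · rw [Nat.sub_add_cancel hp] at h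
    exact h
  · rcases Nat.eq_zero_or_pos (e k - 1) with h0 | h0
    · exact Or.inl h0
    · right
      rw [Nat.sub_add_cancel hp]
      exact (he.iff (e k) (by omega)).2 ⟨k, rfl⟩
  · intro j hj1 hj2
    unfold lens at hj2
    have h3 : e k < e (k + 1) := he.mono (Nat.lt_succ_self k)
    by_contra hcon
    rw [Bool.not_eq_false] at hcon
    obtain ⟨l, hl⟩ := (he.iff _ (by omega)).1 hcon
    have h4 : e k < e l := by omega
    have h5 : e l < e (k + 1) := by omega
    have h6 := he.mono.lt_iff_lt.1 h4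
    have h7 := he.mono.lt_iff_lt.1 h5
    omega

theorem Enum.walk_eq (he : Enum b e) (x : ℕ → Dir d) (k : ℕ) :
    walk b x (e k - 1) = W (lens e) (fun j => x (e j)) k := by
  induction k with
  | zero =>
    rw [he.zero]
    funext i
    simp [walk, W]
  | succ k ih =>
    have h1 := he.block x k (lens e k) le_rfl
    have h2 : e k - 1 + lens e k = e (k + 1) - 1 := by
      have := he.pos k
      have h3 : e k < e (k + 1) := he.mono (Nat.lt_succ_self k)
      unfold lens
      omega
    rw [h2] at h1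
    rw [h1, ih]
    funext i
    simp only [Pi.add_apply, W]
    rw [Finset.sum_range_succ]

/-- from the block model to the walk -/
theorem Enum.transfer (he : Enum b e) (x : ℕ → Dir d) (R : ℕ)
    (h : ∀ᶠ k in Filter.atTop, ∀ s : ℕ, s ≤ lens e k → ∃ i, (R : ℤ) <
      |W (lens e) (fun j => x (e j)) k i + (s : ℤ) * vec (x (e k)) i|) :
    ∀ᶠ n in Filter.atTop, ∃ i, (R : ℤ) < |walk b x n i| := by
  obtain ⟨K, hK⟩ := Filter.eventually_atTop.1 h
  refine Filter.eventually_atTop.2 ⟨e K, fun n hn => ?_⟩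
  have hex : ∃ k, n < e (k + 1) := ⟨n, lt_of_lt_of_le (Nat.lt_succ_self n)
    (he.mono.le_apply (x := n + 1))⟩
  classical
  set k := Nat.find hex with hk
  have h1 : n < e (k + 1) := Nat.find_spec hex
  have h2 : e k ≤ n := by
    rcases Nat.eq_zero_or_pos k with h0 | h0
    · rw [h0, he.zero]
      exact le_trans (he.pos K) hn
    · have h3 := Nat.find_min hex (m := k - 1) (by omega)
      rw [not_lt, Nat.sub_add_cancel h0] at h3
      exact h3
  have h3 : K ≤ k := by
    by_contra hcon
    have h4 : k + 1 ≤ K := by omega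
    have h5 := he.mono.monotone h4
    omega
  have hp := he.pos k
  obtain ⟨i, hi⟩ := hK k h3 (n + 1 - e k) (by unfold lens; omega)
  refine ⟨i, ?_⟩
  have h6 := he.block x k (n + 1 - e k) (by unfold lens; omega)
  have h7 : e k - 1 + (n + 1 - e k) = n := by omega
  rw [h7, he.walk_eq] at h6
  rw [h6]
  exact hi

/-- finitely many resets -/
theorem finite_resets (b : ℕ → Bool) (x : ℕ → Dir d) (N : ℕ)
    (h : ∀ n, N ≤ n → b n = false) (R : ℕ) :
    ∀ᶠ n in Filter.atTop, ∃ i, (R : ℤ) < |walk b x n i| := by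
  set M := N + 1 with hM
  have h1 : ∀ m, dirAt b x (M + m) = dirAt b x M := by
    intro m
    induction m with
    | zero => rfl
    | succ m ih =>
      rw [← Nat.add_assoc, dirAt_keep b x (M + m) (by omega) (h _ (by omega)), ih]
  have h2 : ∀ m i, walk b x (M + m) i = walk b x M i + (m : ℤ) * vec (dirAt b x M) i := by
    intro m i
    induction m with
    | zero => simp
    | succ m ih =>
      rw [← Nat.add_assoc, walk_succ, Pi.add_apply, ih, Nat.add_assoc, h1]
      push_cast
      ring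
  set i := (dirAt b x M).1 with hi
  have hv : |vec (dirAt b x M) i| = 1 := by
    unfold vec
    rw [if_pos rfl]
    split_ifs <;> simp
  refine Filter.eventually_atTop.2 ⟨M + (|walk b x M i|.toNat + R + 1), fun n hn => ⟨i, ?_⟩⟩
  obtain ⟨m, rfl⟩ := Nat.exists_eq_add_of_le (show M ≤ n by omega)
  rw [h2]
  have h3 : (|walk b x M i|.toNat + R + 1 : ℕ) ≤ m := by omega
  have h4 : (|walk b x M i|.toNat : ℤ) = |walk b x M i| := Int.toNat_of_nonneg (abs_nonneg _)
  have h5 : |walk b x M i| + R + 1 ≤ (m : ℤ) := by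
    rw [← h4]
    exact_mod_cast h3
  have h6 : |(m : ℤ) * vec (dirAt b x M) i| = m := by
    rw [abs_mul, hv, mul_one]
    simp
  have h7 := abs_sub (walk b x M i + (m : ℤ) * vec (dirAt b x M) i) (walk b x M i)
  rw [add_sub_cancel_left, h6] at h7
  linarith

/-- the Euclidean norm tends to infinity iff the walk leaves every box for ever -/
theorem tendsto_iff (f : ℕ → Fin d → ℤ) :
    Filter.Tendsto (fun n => enorm2 (f n)) Filter.atTop Filter.atTop ↔
      ∀ R : ℕ, ∀ᶠ n in Filter.atTop, ∃ i, (R : ℤ) < |f n i| := by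
  rw [Filter.tendsto_atTop]
  constructor
  · intro h R
    filter_upwards [h (Real.sqrt (d * (R : ℝ) ^ 2) + 1)] with n hn
    by_contra hcon
    push Not at hcon
    have h1 : enorm2 (f n) ≤ Real.sqrt (d * (R : ℝ) ^ 2) := by
      unfold enorm2
      refine Real.sqrt_le_sqrt ?_
      have h2 : ∀ i ∈ (Finset.univ : Finset (Fin d)), ((f n i : ℤ) : ℝ) ^ 2 ≤ (R : ℝ) ^ 2 := by
        intro i _
        refine sq_le_sq' ?_ ?_
        · have := (abs_le.1 (hcon i)).1
          exact_mod_cast this
        · have := (abs_le.1 (hcon i)).2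
          exact_mod_cast this
      refine (Finset.sum_le_sum h2).trans (le_of_eq ?_)
      simp
    linarith
  · intro h c
    obtain ⟨R, hR⟩ := exists_nat_ge c
    filter_upwards [h R] with n hn
    obtain ⟨i, hi⟩ := hn
    refine hR.trans ?_
    unfold enorm2
    refine Real.le_sqrt_of_sq_le ?_
    have h1 : ((f n i : ℤ) : ℝ) ^ 2 ≤ ∑ i, ((f n i : ℤ) : ℝ) ^ 2 :=
      Finset.single_le_sum (f := fun i => ((f n i : ℤ) : ℝ) ^ 2) (fun _ _ => sq_nonneg _)
        (Finset.mem_univ i)
    refine le_trans ?_ h1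
    have h2 : (R : ℝ) ≤ |((f n i : ℤ) : ℝ)| := by
      have : ((R : ℤ) : ℝ) < ((|f n i| : ℤ) : ℝ) := by exact_mod_cast hi
      rw [Int.cast_abs] at this
      exact this.le
    have h3 := pow_le_pow_left₀ (Nat.cast_nonneg R) h2 2
    rwa [sq_abs] at h3

theorem measurable_dirAt (n : ℕ) :
    Measurable (fun w : (ℕ → Bool) × (ℕ → Dir d) => dirAt w.1 w.2 n) := by
  induction n with
  | zero =>
    unfold dirAt
    fun_prop
  | succ n ih =>
    unfold dirAt
    refine Measurable.ite ?_ (by fun_prop) ih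
    by_cases h : n = 0
    · simp [h]
    · have h1 : {w : (ℕ → Bool) × (ℕ → Dir d) | n = 0 ∨ w.1 (n + 1) = true}
          = (fun w : (ℕ → Bool) × (ℕ → Dir d) => w.1 (n + 1)) ⁻¹' {true} := by
        ext w
        simp [h]
      rw [h1]
      have h2 : Measurable (fun w : (ℕ → Bool) × (ℕ → Dir d) => w.1 (n + 1)) := by fun_prop
      exact h2 (measurableSet_singleton true)

theorem measurable_walk (n : ℕ) (i : Fin d) :
    Measurable (fun w : (ℕ → Bool) × (ℕ → Dir d) => walk w.1 w.2 n i) := by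
  have hv : Measurable (vec : Dir d → (Fin d → ℤ)) := measurable_of_countable _
  have h : (fun w : (ℕ → Bool) × (ℕ → Dir d) => walk w.1 w.2 n i)
      = fun w => ∑ k ∈ Finset.Icc 1 n, vec (dirAt w.1 w.2 k) i := by
    funext w
    unfold walk
    rw [Finset.sum_apply]
  rw [h]
  refine Finset.measurable_sum _ fun k _ => ?_
  exact (measurable_pi_apply i).comp (hv.comp (measurable_dirAt k))

theorem measurableSet_st :
    MeasurableSet {w : (ℕ → Bool) × (ℕ → Dir d) |
      Filter.Tendsto (fun n => enorm2 (walk w.1 w.2 n)) Filter.atTop Filter.atTop} := by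
  have h : {w : (ℕ → Bool) × (ℕ → Dir d) |
      Filter.Tendsto (fun n => enorm2 (walk w.1 w.2 n)) Filter.atTop Filter.atTop}
      = ⋂ R : ℕ, ⋃ N : ℕ, ⋂ n : ℕ, ⋂ (_ : N ≤ n), ⋃ i : Fin d,
        {w : (ℕ → Bool) × (ℕ → Dir d) | (R : ℤ) < |walk w.1 w.2 n i|} := by
    ext w
    rw [Set.mem_ofPred_eq, tendsto_iff]
    simp [Filter.eventually_atTop]
  rw [h]
  refine MeasurableSet.iInter fun R => MeasurableSet.iUnion fun N => MeasurableSet.iInter fun n =>
    MeasurableSet.iInter fun _ => MeasurableSet.iUnion fun i => ?_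
  exact (measurable_walk n i) (MeasurableSet.of_discrete (s := {z : ℤ | (R : ℤ) < |z|}))

end Det

end Pool.Agent.Q293.CR
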