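import Mathlib
import Pool.Agent.Q293.CR.Red
import Pool.Agent.Q293.CR.Core3

set_option autoImplicit false
set_option linter.unusedSectionVars false

open MeasureTheory ProbabilityTheory Filter

namespace Pool.Agent.Q293.CR

/-- leaving every box for ever -/
def Esc {d : ℕ} (b : ℕ → Bool) (x : ℕ → Dir d) : Prop :=
  ∀ R : ℕ, ∀ᶠ n in atTop, ∃ i, (R : ℤ) < |walk b x n i|

theorem st_iff {d : ℕ} [NeZero d] (p : ℕ → unitInterval) :
    StronglyTransient d p ↔ ∀ᵐ b ∂(flags p), ∀ᵐ x ∂(iid d), Esc b x := by
  unfold StronglyTransient law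
  have : IsProbabilityMeasure (flags p) := by unfold flags; infer_instance
  rw [Measure.ae_prod_iff_ae_ae measurableSet_st]
  simp only [tendsto_iff]
  rfl

theorem good3 (hLO : S_LO) (hHA : S_HA) (hB : S_Bin) (hS : S_Sum) {d : ℕ} [NeZero d]
    (hd : 3 ≤ d) (b : ℕ → Bool) : ∀ᵐ x ∂(iid d), Esc b x := by
  by_cases h : ∀ N, ∃ n, N ≤ n ∧ b n = true
  · obtain ⟨e, he⟩ := exists_enum b h
    have h1 : ∀ᵐ V ∂(iid d), ∀ R : ℕ, ∀ᶠ k in atTop, ∀ s : ℕ, s ≤ lens e k →
        ∃ i, (R : ℤ) < |W (lens e) V k i + (s : ℤ) * vec (V k) i| := by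
      rw [ae_all_iff]
      intro R
      exact core3 hLO hHA hB hS hd (lens e) (fun j => he.lens_pos j) R
    have h2 := (mp_reindex (d := d) e he.mono.injective).quasiMeasurePreserving.ae h1
    filter_upwards [h2] with x hx R
    exact he.transfer x R (hx R)
  · push Not at h
    obtain ⟨N, hN⟩ := h
    refine Filter.Eventually.of_forall fun x R => finite_resets b x N (fun n hn => ?_) R
    exact Bool.eq_false_iff.2 (hN n hn)

/-- a nearest-neighbour integer sequence with absolute value tending to infinity has a limit -/
theorem sign_limit (f : ℕ → ℤ) (hf : ∀ n, |f (n + 1) - f n| ≤ 1)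
    (h : ∀ R : ℕ, ∀ᶠ n in atTop, (R : ℤ) < |f n|) :
    Tendsto f atTop atTop ∨ Tendsto f atTop atBot := by
  obtain ⟨N, hN⟩ := eventually_atTop.1 (h 1)
  have hstep : ∀ n, N ≤ n → (0 < f n ↔ 0 < f N) := by
    intro n hn
    induction n, hn using Nat.le_induction with
    | base => rfl
    | succ n hn ih =>
      rw [← ih]
      have h1 := hN n hn
      have h2 := hN (n + 1) (by omega)
      have h3 := abs_le.1 (hf n)
      constructor
      · intro h4
        rw [abs_of_pos h4] at h2
        push_cast at h2
        by_contra h5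
        have : f n ≤ 0 := not_lt.1 h5
        omega
      · intro h4
        rw [abs_of_pos h4] at h1
        push_cast at h1
        omega
  by_cases h0 : 0 < f N
  · left
    rw [tendsto_atTop]
    intro c
    filter_upwards [h c.toNat, eventually_ge_atTop N] with n hn hnN
    have h1 : 0 < f n := (hstep n hnN).2 h0
    rw [abs_of_pos h1] at hn
    exact (Int.self_le_toNat c).trans hn.le
  · right
    rw [tendsto_atBot]
    intro c
    filter_upwards [h (-c).toNat, eventually_ge_atTop N] with n hn hnN
    have h1 : ¬ 0 < f n := fun h2 => h0 ((hstep n hnN).1 h2)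
    rw [abs_of_nonpos (not_lt.1 h1)] at hn
    have := (Int.self_le_toNat (-c)).trans hn.le
    omega

theorem bad1 (hO : S_One) (b : ℕ → Bool) (h : ∀ N, ∃ n, N ≤ n ∧ b n = true) :
    ∀ᵐ x ∂(iid 1), ¬ Esc b x := by
  obtain ⟨e, he⟩ := exists_enum b h
  have h1 := hO (lens e) (fun j => he.lens_pos j)
  have h2 := (mp_reindex (d := 1) e he.mono.injective).quasiMeasurePreserving.ae h1
  filter_upwards [h2] with x hx hesc
  have h3 := sign_limit (fun n => walk b x n 0) (fun n => by
    simp only [walk_succ, Pi.add_apply, add_sub_cancel_left]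
    unfold vec
    split_ifs <;> simp) (fun R => by
      filter_upwards [hesc R] with n hn
      obtain ⟨i, hi⟩ := hn
      rw [Subsingleton.elim i 0] at hi
      exact hi)
  have h4 : Tendsto (fun k => e k - 1) atTop atTop := by
    refine tendsto_atTop_mono (f := fun k => k) (fun k => ?_) tendsto_id
    have h5 : k ≤ e k - 1 := by
      induction k with
      | zero => omega
      | succ k ih =>
        have h6 : e k < e (k + 1) := he.mono (Nat.lt_succ_self k)
        have := he.pos k
        omega
    exact h5
  have h5 : (fun k => W (lens e) (fun j => x (e j)) k 0)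
      = (fun n => walk b x n 0) ∘ (fun k => e k - 1) := by
    funext k
    simp only [Function.comp_apply]
    rw [he.walk_eq]
  rcases h3 with h3 | h3
  · refine hx.1 ?_
    rw [h5]
    exact h3.comp h4
  · refine hx.2 ?_
    rw [h5]
    exact h3.comp h4

section Flags

variable (p : ℕ → unitInterval)

instance instFlags : IsProbabilityMeasure (flags p) := by unfold flags; infer_instance

theorem flags_apply (n : ℕ) :
    (flags p) {b | b n = true} = ENNReal.ofReal (p n : ℝ) := by
  have h1 : (flags p) {b | b n = true}
      = ((flags p).map (fun b => b n)) {true} := by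
    rw [Measure.map_apply (by fun_prop) (measurableSet_singleton _)]
    rfl
  have h2 : (flags p).map (fun b => b n) = bernoulliMeasure true false (p n) := by
    unfold flags
    exact Measure.infinitePi_map_eval _ n
  classical
  rw [h1, h2, bernoulliMeasure_apply _ (measurableSet_singleton _)]
  simp only [Set.mem_singleton_iff, if_true]
  rw [if_neg (by simp)]
  rw [ENNReal.ofReal]
  congr 1
  ext
  simp only [unitInterval.coe_toNNReal, Real.coe_toNNReal', left_eq_sup]
  exact (p n).2.1

theorem flags_sum (h : Summable (fun n => (p n : ℝ))) :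
    ∀ᵐ b ∂(flags p), ∃ N, ∀ n, N ≤ n → b n = false := by
  have hne : ∑' n, (flags p) {b | b n = true} ≠ ⊤ := by
    simp only [flags_apply]
    exact h.tsum_ofReal_ne_top
  filter_upwards [ae_eventually_notMem hne] with b hb
  obtain ⟨N, hN⟩ := eventually_atTop.1 hb
  refine ⟨N, fun n hn => ?_⟩
  have := hN n hn
  simpa using this

theorem flags_div (h : ¬ Summable (fun n => (p n : ℝ))) :
    ∀ᵐ b ∂(flags p), ∀ N, ∃ n, N ≤ n ∧ b n = true := by
  have hind : iIndepFun (fun (n : ℕ) (b : ℕ → Bool) => b n) (flags p) := by
    unfold flags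
    exact iIndepFun_infinitePi (X := fun n (t : Bool) => t) (by fun_prop)
  have hset : iIndepSet (fun n : ℕ => {b : ℕ → Bool | b n = true}) (flags p) := by
    rw [iIndepSet_iff_meas_biInter (fun n => by
      have h2 : Measurable (fun b : ℕ → Bool => b n) := by fun_prop
      exact h2 (measurableSet_singleton true))]
    intro s
    have h3 := hind.measure_inter_preimage_eq_mul s (sets := fun _ => {true})
      (fun _ _ => measurableSet_singleton _)
    exact h3
  have hsum : ∑' n, (flags p) {b | b n = true} = ⊤ := by
    simp only [flags_apply]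
    by_contra hcon
    refine h ?_
    have h4 := ENNReal.summable_toReal hcon
    refine h4.congr fun n => ?_
    rw [ENNReal.toReal_ofReal (p n).2.1]
  have h5 := measure_limsup_eq_one (μ := flags p) (fun n => by
      have h2 : Measurable (fun b : ℕ → Bool => b n) := by fun_prop
      exact h2 (measurableSet_singleton true)) hset hsum
  have h6 : ∀ᵐ b ∂(flags p), b ∈ limsup (fun n : ℕ => {b : ℕ → Bool | b n = true}) atTop := by
    rw [← prob_compl_eq_zero_iff₀] at h5
    · exact h5
    · refine (MeasurableSet.measurableSet_limsup fun n => ?_).nullMeasurableSet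
      have h2 : Measurable (fun b : ℕ → Bool => b n) := by fun_prop
      exact h2 (measurableSet_singleton true)
  filter_upwards [h6] with b hb N
  rw [mem_limsup_iff_frequently_mem] at hb
  obtain ⟨n, hn, hb⟩ := (frequently_atTop.1 hb) N
  exact ⟨n, hn, hb⟩

/-- the criterion in dimension one -/
theorem one_iff (hO : S_One) : StronglyTransient 1 p ↔ Summable (fun n => (p n : ℝ)) := by
  rw [st_iff]
  constructor
  · intro h
    by_contra hs
    have h1 := flags_div p hs
    obtain ⟨b, hb1, hb2⟩ := (h.and h1).exists
    have h3 := bad1 hO b hb2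
    obtain ⟨x, hx1, hx2⟩ := (hb1.and h3).exists
    exact hx2 hx1
  · intro h
    filter_upwards [flags_sum p h] with b hb
    obtain ⟨N, hN⟩ := hb
    exact Filter.Eventually.of_forall fun x R => finite_resets b x N hN R

end Flags

/-- deterministic flags -/
theorem st_det {d : ℕ} [NeZero d] (b : ℕ → Bool) :
    StronglyTransient d (fun n => if b n = true then 1 else 0) ↔ ∀ᵐ x ∂(iid d), Esc b x := by
  rw [st_iff]
  have h1 : flags (fun n => if b n = true then 1 else 0) = Measure.dirac b := by
    unfold flags
    rw [← Measure.infinitePi_dirac]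
    congr 1
    funext n
    by_cases h : b n = true
    · simp [h]
    · rw [Bool.not_eq_true] at h
      simp [h]
  rw [h1, ae_dirac_eq]
  exact Filter.eventually_pure

end Pool.Agent.Q293.CR
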