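import Mathlib
import Pool.Agent.Q293.CR.Red

set_option autoImplicit false
set_option linter.unusedSectionVars false

open MeasureTheory ProbabilityTheory

namespace Pool.Agent.Q293.CR

/-- stage `s`: `K s` pieces of length `L s`, then `T s` unit steps -/
structure Sched where
  tau : ℕ → ℕ
  K : ℕ → ℕ
  L : ℕ → ℕ
  T : ℕ → ℕ
  h0 : tau 0 = 0
  hs : ∀ s, tau (s + 1) = tau s + K s * L s + T s
  hK : ∀ s, 1 ≤ K s
  hL : ∀ s, 1 ≤ L s

namespace Sched

variable (S : Sched)

def IsReset (n : ℕ) : Prop :=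
  ∃ s, (∃ j, j < S.K s ∧ n = S.tau s + j * S.L s + 1) ∨
    (∃ m, m < S.T s ∧ n = S.tau s + S.K s * S.L s + m + 1)

open Classical in
/-- the flags of the schedule -/
noncomputable def flg (n : ℕ) : Bool := decide (S.IsReset n)

theorem flg_iff (n : ℕ) : S.flg n = true ↔ S.IsReset n := by
  unfold flg
  simp

theorem tau_lt (s : ℕ) : S.tau s < S.tau (s + 1) := by
  have h1 := S.hs s
  have h2 : 1 ≤ S.K s * S.L s := Nat.one_le_iff_ne_zero.2
    (Nat.mul_ne_zero (by have := S.hK s; omega) (by have := S.hL s; omega))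
  omega

theorem tau_mono : StrictMono S.tau := strictMono_nat_of_lt_succ S.tau_lt

theorem stage_unique {s s' n : ℕ} (h1 : S.tau s < n) (h2 : n ≤ S.tau (s + 1))
    (h3 : S.tau s' < n) (h4 : n ≤ S.tau (s' + 1)) : s = s' := by
  have h5 : S.tau s < S.tau (s' + 1) := by omega
  have h6 : S.tau s' < S.tau (s + 1) := by omega
  have h7 := S.tau_mono.lt_iff_lt.1 h5
  have h8 := S.tau_mono.lt_iff_lt.1 h6
  omega

theorem piece_le {s j : ℕ} (hj : j < S.K s) : j * S.L s + S.L s ≤ S.K s * S.L s := by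
  have : (j + 1) * S.L s ≤ S.K s * S.L s := Nat.mul_le_mul_right _ hj
  rw [add_mul, one_mul] at this
  exact this

theorem fresh_piece (s j : ℕ) (hj : j < S.K s) : S.flg (S.tau s + j * S.L s + 1) = true := by
  rw [flg_iff]
  exact ⟨s, Or.inl ⟨j, hj, rfl⟩⟩

theorem fresh_run (s m : ℕ) (hm : m < S.T s) :
    S.flg (S.tau s + S.K s * S.L s + m + 1) = true := by
  rw [flg_iff]
  exact ⟨s, Or.inr ⟨m, hm, rfl⟩⟩

theorem keep_piece (s j i : ℕ) (hj : j < S.K s) (hi : 2 ≤ i) (hi2 : i ≤ S.L s) :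
    S.flg (S.tau s + j * S.L s + i) = false := by
  rw [← Bool.not_eq_true, flg_iff]
  rintro ⟨s', h⟩
  have hp := S.piece_le hj
  have hs := S.hs s
  have hn1 : S.tau s < S.tau s + j * S.L s + i := by omega
  have hn2 : S.tau s + j * S.L s + i ≤ S.tau (s + 1) := by omega
  rcases h with ⟨j', hj', h⟩ | ⟨m, hm, h⟩
  · have hp' := S.piece_le hj'
    have hs' := S.hs s'
    have hL' := S.hL s'
    have he : s = s' := S.stage_unique hn1 hn2 (by omega) (by omega)
    subst he
    rcases le_or_gt j' j with h1 | h1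
    · have := Nat.mul_le_mul_right (S.L s) h1
      omega
    · have := Nat.mul_le_mul_right (S.L s) h1
      rw [Nat.succ_mul] at this
      omega
  · have hs' := S.hs s'
    have he : s = s' := S.stage_unique hn1 hn2 (by omega) (by omega)
    subst he
    omega

variable {d : ℕ} (x : ℕ → Dir d)

theorem walk_piece (s j : ℕ) (hj : j < S.K s) (i : ℕ) (hi : i ≤ S.L s) (c : Fin d) :
    walk S.flg x (S.tau s + j * S.L s + i) c
      = walk S.flg x (S.tau s + j * S.L s) c + (i : ℤ) * vec (x (S.tau s + j * S.L s + 1)) c := by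
  rw [walk_block S.flg x (S.tau s + j * S.L s) (S.L s) (Or.inr (S.fresh_piece s j hj))
    (fun l h1 h2 => S.keep_piece s j l hj h1 h2) i hi]
  rfl

theorem walk_pieces (s j : ℕ) (hj : j ≤ S.K s) (c : Fin d) :
    walk S.flg x (S.tau s + j * S.L s) c
      = walk S.flg x (S.tau s) c
        + (S.L s : ℤ) * ∑ l ∈ Finset.range j, vec (x (S.tau s + l * S.L s + 1)) c := by
  induction j with
  | zero => simp
  | succ j ih =>
    have h1 : S.tau s + (j + 1) * S.L s = S.tau s + j * S.L s + S.L s := by ring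
    rw [h1, S.walk_piece x s j (by omega) (S.L s) le_rfl c, ih (by omega),
      Finset.sum_range_succ]
    ring

theorem walk_run (s i : ℕ) (hi : i ≤ S.T s) (c : Fin d) :
    walk S.flg x (S.tau s + S.K s * S.L s + i) c
      = walk S.flg x (S.tau s + S.K s * S.L s) c
        + ∑ l ∈ Finset.range i, vec (x (S.tau s + S.K s * S.L s + l + 1)) c := by
  induction i with
  | zero => simp
  | succ i ih =>
    rw [← Nat.add_assoc, walk_succ, Pi.add_apply, ih (by omega),
      dirAt_fresh _ _ _ (Or.inr (S.fresh_run s i (by omega))), Finset.sum_range_succ]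
    ring

theorem abs_vec_le {d : ℕ} (u : Dir d) (c : Fin d) : |vec u c| ≤ 1 := by
  unfold vec
  split_ifs <;> simp

theorem abs_walk_le (b : ℕ → Bool) (n : ℕ) (c : Fin d) : |walk b x n c| ≤ (n : ℤ) := by
  induction n with
  | zero => simp [walk]
  | succ n ih =>
    rw [walk_succ, Pi.add_apply]
    refine (abs_add_le _ _).trans ?_
    push_cast
    have := abs_vec_le (dirAt b x (n + 1)) c
    linarith

theorem abs_sum_vec_le (f : ℕ → ℕ) (i : ℕ) (c : Fin d) :
    |∑ l ∈ Finset.range i, vec (x (f l)) c| ≤ (i : ℤ) := by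
  refine (Finset.abs_sum_le_sum_abs _ _).trans ?_
  refine (Finset.sum_le_card_nsmul _ _ 1 (fun l _ => abs_vec_le _ _)).trans ?_
  simp

/-- the displacement coefficient of a coordinate over the first `j` pieces -/
def coef (s j : ℕ) (c : Fin d) : ℤ :=
  ∑ l ∈ Finset.range j, vec (x (S.tau s + l * S.L s + 1)) c

/-- value after a nonzero coefficient -/
theorem far (hbig : ∀ s, S.tau s + S.T s + s + 1 ≤ S.L s) (s j : ℕ) (hj : j ≤ S.K s)
    (c : Fin d) (h : S.coef x s j c ≠ 0) :
    ((S.T s + s + 1 : ℕ) : ℤ) ≤ |walk S.flg x (S.tau s + j * S.L s) c| := by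
  have h1 := S.walk_pieces x s j hj c
  have h2 : (1 : ℤ) ≤ |S.coef x s j c| := Int.one_le_abs h
  have h3 := abs_walk_le x S.flg (S.tau s) c
  have h4 : |(S.L s : ℤ) * S.coef x s j c| = (S.L s : ℤ) * |S.coef x s j c| := by
    rw [abs_mul, abs_of_nonneg (by positivity : (0 : ℤ) ≤ (S.L s : ℤ))]
  have h5 : (S.L s : ℤ) ≤ |(S.L s : ℤ) * S.coef x s j c| := by
    rw [h4]
    nlinarith [h2]
  have h6 : (S.L s : ℤ) * S.coef x s j c
      = walk S.flg x (S.tau s + j * S.L s) c - walk S.flg x (S.tau s) c := by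
    rw [h1]
    unfold coef
    ring
  rw [h6] at h5
  have h7 := abs_sub (walk S.flg x (S.tau s + j * S.L s) c) (walk S.flg x (S.tau s) c)
  have h8 : ((S.tau s + S.T s + s + 1 : ℕ) : ℤ) ≤ (S.L s : ℤ) := by exact_mod_cast hbig s
  push_cast at h8 ⊢
  linarith

/-- in the run after a nonzero coefficient -/
theorem far_run (hbig : ∀ s, S.tau s + S.T s + s + 1 ≤ S.L s) (s i : ℕ) (hi : i ≤ S.T s)
    (c : Fin d) (h : S.coef x s (S.K s) c ≠ 0) :
    ((s + 1 : ℕ) : ℤ) ≤ |walk S.flg x (S.tau s + S.K s * S.L s + i) c| := by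
  have h1 := S.far x hbig s (S.K s) le_rfl c h
  rw [S.walk_run x s i hi c]
  have h2 : |∑ l ∈ Finset.range i, vec (x (S.tau s + S.K s * S.L s + l + 1)) c| ≤ (i : ℤ) :=
    abs_sum_vec_le x (fun l => S.tau s + S.K s * S.L s + l + 1) i c
  have h3 := abs_sub (walk S.flg x (S.tau s + S.K s * S.L s) c
    + ∑ l ∈ Finset.range i, vec (x (S.tau s + S.K s * S.L s + l + 1)) c)
    (∑ l ∈ Finset.range i, vec (x (S.tau s + S.K s * S.L s + l + 1)) c)
  rw [add_sub_cancel_right] at h3
  have h4 : (i : ℤ) ≤ (S.T s : ℤ) := by exact_mod_cast hi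
  push_cast at h1 ⊢
  linarith

/-- deterministic escape -/
theorem escape (x : ℕ → Dir 2) (hbig : ∀ s, S.tau s + S.T s + s + 1 ≤ S.L s)
    (h : ∀ᶠ s in Filter.atTop, ∀ c : Fin 2, S.coef x s (S.K s) c ≠ 0) (R : ℕ) :
    ∀ᶠ n in Filter.atTop, ∃ i, (R : ℤ) < |walk S.flg x n i| := by
  obtain ⟨s0, hs0⟩ := Filter.eventually_atTop.1 h
  have hstart : ∀ s, s0 + 1 ≤ s → ∀ c : Fin 2, (s : ℤ) ≤ |walk S.flg x (S.tau s) c| := by
    intro s hs c
    obtain ⟨s', rfl⟩ : ∃ s', s = s' + 1 := ⟨s - 1, by omega⟩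
    have h1 := S.far_run x hbig s' (S.T s') le_rfl c (hs0 s' (by omega) c)
    rwa [← S.hs s'] at h1
  have hmain : ∀ s, s0 + 1 ≤ s → ∀ n, S.tau s ≤ n → n < S.tau (s + 1) →
      ∃ c : Fin 2, (s : ℤ) ≤ |walk S.flg x n c| := by
    intro s hs n hn1 hn2
    rcases lt_or_ge n (S.tau s + S.K s * S.L s) with h1 | h1
    · set q := n - S.tau s with hq
      have hL : 0 < S.L s := S.hL s
      set j := q / S.L s with hj
      set i := q % S.L s with hi
      have e1 : S.L s * j + i = q := Nat.div_add_mod q (S.L s)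
      have e2 : i < S.L s := Nat.mod_lt _ hL
      have hjK : j < S.K s := by
        rw [hj, Nat.div_lt_iff_lt_mul hL]
        omega
      have en : n = S.tau s + j * S.L s + i := by
        rw [mul_comm j]
        omega
      obtain ⟨c, hc⟩ : ∃ c : Fin 2, c ≠ (x (S.tau s + j * S.L s + 1)).1 := exists_ne _
      refine ⟨c, ?_⟩
      rw [en, S.walk_piece x s j hjK i e2.le c]
      have hv : vec (x (S.tau s + j * S.L s + 1)) c = 0 := by
        unfold vec
        rw [if_neg hc]
      rw [hv, mul_zero, add_zero]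
      by_cases h0 : S.coef x s j c = 0
      · rw [S.walk_pieces x s j hjK.le c]
        unfold coef at h0
        rw [h0, mul_zero, add_zero]
        exact hstart s hs c
      · have h2 := S.far x hbig s j hjK.le c h0
        push_cast at h2
        have : (0 : ℤ) ≤ (S.T s : ℤ) := by positivity
        linarith
    · have en : n = S.tau s + S.K s * S.L s + (n - (S.tau s + S.K s * S.L s)) := by omega
      refine ⟨0, ?_⟩
      rw [en]
      have h2 := S.far_run x hbig s (n - (S.tau s + S.K s * S.L s))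
        (by have := S.hs s; omega) 0 (hs0 s (by omega) 0)
      push_cast at h2
      linarith
  set s1 := max (s0 + 1) (R + 1) with hs1
  refine Filter.eventually_atTop.2 ⟨S.tau s1, fun n hn => ?_⟩
  have hex : ∃ s, n < S.tau (s + 1) := ⟨n, lt_of_lt_of_le (Nat.lt_succ_self n)
    (S.tau_mono.le_apply (x := n + 1))⟩
  classical
  set s := Nat.find hex with hsdef
  have h1 : n < S.tau (s + 1) := Nat.find_spec hex
  have h2 : S.tau s ≤ n := by
    rcases Nat.eq_zero_or_pos s with h0 | h0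
    · rw [h0, S.h0]
      exact Nat.zero_le _
    · have h3 := Nat.find_min hex (m := s - 1) (by omega)
      rw [not_lt, Nat.sub_add_cancel h0] at h3
      exact h3
  have h3 : s1 ≤ s := by
    by_contra hcon
    have h4 : s + 1 ≤ s1 := by omega
    have h5 := S.tau_mono.monotone h4
    omega
  obtain ⟨c, hc⟩ := hmain s (le_trans (le_max_left _ _) h3) n h2 h1
  refine ⟨c, lt_of_lt_of_le ?_ hc⟩
  have h6 : R + 1 ≤ s := le_trans (le_max_right _ _) h3
  exact_mod_cast h6

end Sched

end Pool.Agent.Q293.CR
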