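import Mathlib
import Pool.Agent.Q293.CR.Sched
import Pool.Agent.Q293.CR.Classes

set_option autoImplicit false
set_option linter.unusedSectionVars false

open MeasureTheory ProbabilityTheory

namespace Pool.Agent.Q293.CR

/-- one conditional step -/
theorem cond_step (n : ℕ) (B : Set (ℕ → Dir 2)) (hB : MeasurableSet B)
    (hdep : ∀ V V' : ℕ → Dir 2, (∀ j < n, V j = V' j) → (V ∈ B ↔ V' ∈ B))
    (Z : (ℕ → Dir 2) → (Fin 2 → ℤ)) (hZ : Measurable Z)
    (hZdep : ∀ V V' : ℕ → Dir 2, (∀ j < n, V j = V' j) → Z V = Z V')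
    (box : Finset (Fin 2 → ℤ)) (hbox : ∀ V, Z V ∈ box)
    (F : (Fin 2 → ℤ) → Set (ℕ → Dir 2)) (hF : ∀ z, MeasurableSet (F z))
    (q : ℝ) (hq : ∀ z ∈ box, q ≤ (iid 2).real (F z)) :
    (iid 2).real {V | V ∈ B ∧ (fun j => V (n + j)) ∉ F (Z V)} ≤ (1 - q) * (iid 2).real B := by
  classical
  have hshift : Measurable (fun V : ℕ → Dir 2 => fun j => V (n + j)) := by fun_prop
  have h1 : {V | V ∈ B ∧ (fun j => V (n + j)) ∉ F (Z V)}
      = ⋃ z ∈ box, {V | V ∈ (B ∩ {V | Z V = z}) ∧ (fun j => V (n + j)) ∈ (F z)ᶜ} := by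
    ext V
    simp only [Set.mem_ofPred_eq, Set.mem_iUnion, Set.mem_inter_iff, Set.mem_compl_iff,
      exists_prop]
    constructor
    · rintro ⟨h1, h2⟩
      exact ⟨Z V, hbox V, ⟨h1, rfl⟩, h2⟩
    · rintro ⟨z, _, ⟨h1, h2⟩, h3⟩
      subst h2
      exact ⟨h1, h3⟩
  have hBz : ∀ z, MeasurableSet (B ∩ {V | Z V = z}) := fun z =>
    hB.inter (hZ (measurableSet_singleton z))
  have h2 : B = ⋃ z ∈ box, (B ∩ {V | Z V = z}) := by
    ext V
    simp only [Set.mem_iUnion, Set.mem_inter_iff, Set.mem_ofPred_eq, exists_prop]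
    constructor
    · intro h
      exact ⟨Z V, hbox V, h, rfl⟩
    · rintro ⟨z, _, h, _⟩
      exact h
  have h3 : (iid 2).real B = ∑ z ∈ box, (iid 2).real (B ∩ {V | Z V = z}) := by
    conv_lhs => rw [h2]
    rw [measureReal_biUnion_finset]
    · intro z _ z' _ hzz
      simp only [Function.onFun]
      rw [Set.disjoint_left]
      intro V hV hV'
      exact hzz (hV.2.symm.trans hV'.2)
    · intro z _
      exact hBz z
  rw [h1, h3, Finset.mul_sum]
  refine (measureReal_biUnion_finset_le _ _).trans ?_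
  refine Finset.sum_le_sum fun z hz => ?_
  rw [past_future n (B ∩ {V | Z V = z}) (F z)ᶜ (hBz z) (hF z).compl (fun V V' h => by
    have e1 := hdep V V' h
    have e2 := hZdep V V' h
    simp only [Set.mem_inter_iff, Set.mem_ofPred_eq]
    rw [e1, e2]), mul_comm]
  refine mul_le_mul_of_nonneg_right ?_ measureReal_nonneg
  have := hq z hz
  rw [probReal_compl_eq_one_sub (hF z)]
  linarith

/-- two given directions -/
theorem two_dirs (L : ℕ) (hL : 1 ≤ L) (u0 u1 : Dir 2) :
    (iid 2).real {y | y 0 = u0 ∧ y L = u1} = 1 / 16 := by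
  have h1 : {y : ℕ → Dir 2 | y 0 = u0 ∧ y L = u1}
      = Set.pi (({0, L} : Finset ℕ) : Set ℕ) (fun j => if j = 0 then {u0} else {u1}) := by
    ext y
    simp only [Set.mem_ofPred_eq, Set.mem_pi, Finset.mem_coe, Finset.mem_insert,
      Finset.mem_singleton]
    constructor
    · rintro ⟨h0, h1⟩ j (rfl | rfl)
      · simp [h0]
      · rw [if_neg (by omega)]
        exact h1
    · intro h
      refine ⟨?_, ?_⟩
      · have := h 0 (Or.inl rfl)
        simpa using this
      · have := h L (Or.inr rfl)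
        rw [if_neg (by omega)] at this
        exact this
  rw [Measure.real, h1]
  unfold iid
  rw [Measure.infinitePi_pi _ (fun i _ => MeasurableSet.of_discrete),
    Finset.prod_pair (by omega), if_pos rfl, if_neg (by omega), ENNReal.toReal_mul]
  have h2 := unif_real_singleton (d := 2) u0
  have h3 := unif_real_singleton (d := 2) u1
  rw [Measure.real] at h2 h3
  rw [h2, h3]
  norm_num

theorem dirAt_dep {d : ℕ} (b : ℕ → Bool) (x x' : ℕ → Dir d) (n : ℕ)
    (h : ∀ j ≤ n, x j = x' j) : dirAt b x n = dirAt b x' n := by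
  induction n with
  | zero => exact h 0 le_rfl
  | succ n ih =>
    unfold dirAt
    rw [h (n + 1) le_rfl, ih (fun j hj => h j (by omega))]

theorem walk_dep {d : ℕ} (b : ℕ → Bool) (x x' : ℕ → Dir d) (n : ℕ)
    (h : ∀ j ≤ n, x j = x' j) : walk b x n = walk b x' n := by
  unfold walk
  refine Finset.sum_congr rfl fun k hk => ?_
  rw [Finset.mem_Icc] at hk
  rw [dirAt_dep b x x' k (fun j hj => h j (by omega))]

theorem measurable_walk_snd {d : ℕ} (b : ℕ → Bool) (n : ℕ) :
    Measurable (fun x : ℕ → Dir d => walk b x n) := by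
  refine measurable_pi_lambda _ fun i => ?_
  exact (measurable_walk (d := d) n i).comp (measurable_const.prodMk measurable_id)

namespace Sched

variable (S : Sched)

/-- a visit close to the origin during stage `s` -/
def visit (s : ℕ) : Set (ℕ → Dir 2) :=
  {x | ∃ n, S.tau s ≤ n ∧ n ≤ S.tau (s + 1) ∧ ∀ c, |walk S.flg x n c| ≤ 1}

/-- the future event -/
def fut (s : ℕ) (z : Fin 2 → ℤ) : Set (ℕ → Dir 2) :=
  {y | (y 0 = (0, true) ∧ y (S.L s) = (0, false)) ∧
    ∃ t ≤ S.T s, ∀ c, |z c + W (fun _ => 1) (fun j => y (2 * S.L s + j)) t c| ≤ 1}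

theorem measurableSet_srw (z : Fin 2 → ℤ) (T : ℕ) :
    MeasurableSet {V : ℕ → Dir 2 | ∃ t ≤ T, ∀ c, |z c + W (fun _ => 1) V t c| ≤ 1} := by
  have h : {V : ℕ → Dir 2 | ∃ t ≤ T, ∀ c, |z c + W (fun _ => 1) V t c| ≤ 1}
      = ⋃ t : ℕ, ⋃ (_ : t ≤ T), ⋂ c : Fin 2,
        {V : ℕ → Dir 2 | |z c + W (fun _ => 1) V t c| ≤ 1} := by
    ext V
    simp only [Set.mem_iUnion, Set.mem_iInter, Set.mem_ofPred_eq, exists_prop]
  rw [h]
  refine MeasurableSet.iUnion fun t => MeasurableSet.iUnion fun _ =>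
    MeasurableSet.iInter fun c => ?_
  exact (measurable_W (fun _ => 1) t c) (MeasurableSet.of_discrete
    (s := {w : ℤ | |z c + w| ≤ 1}))

theorem measurableSet_fut (s : ℕ) (z : Fin 2 → ℤ) : MeasurableSet (S.fut s z) := by
  have h1 : Measurable (fun y : ℕ → Dir 2 => y 0) := by fun_prop
  have h2 : Measurable (fun y : ℕ → Dir 2 => y (S.L s)) := by fun_prop
  have h3 : Measurable (fun y : ℕ → Dir 2 => fun j => y (2 * S.L s + j)) := by fun_prop
  exact ((h1 (measurableSet_singleton _)).inter (h2 (measurableSet_singleton _))).inter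
    (h3 (measurableSet_srw z (S.T s)))

theorem fut_prob (q : ℝ) (s : ℕ) (z : Fin 2 → ℤ)
    (h : q ≤ (iid 2).real {V : ℕ → Dir 2 | ∃ t ≤ S.T s, ∀ c, |z c + W (fun _ => 1) V t c| ≤ 1}) :
    q / 16 ≤ (iid 2).real (S.fut s z) := by
  have hL := S.hL s
  have h1 := past_future (d := 2) (2 * S.L s) {y | y 0 = (0, true) ∧ y (S.L s) = (0, false)}
    {V : ℕ → Dir 2 | ∃ t ≤ S.T s, ∀ c, |z c + W (fun _ => 1) V t c| ≤ 1}
    (by
      have h1 : Measurable (fun y : ℕ → Dir 2 => y 0) := by fun_prop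
      have h2 : Measurable (fun y : ℕ → Dir 2 => y (S.L s)) := by fun_prop
      exact (h1 (measurableSet_singleton _)).inter (h2 (measurableSet_singleton _)))
    (measurableSet_srw z (S.T s)) (fun V V' hV => by
      simp only [Set.mem_ofPred_eq]
      rw [hV 0 (by omega), hV (S.L s) (by omega)])
  rw [two_dirs _ hL] at h1
  have h2 : S.fut s z = {V | V ∈ {y : ℕ → Dir 2 | y 0 = (0, true) ∧ y (S.L s) = (0, false)} ∧
      (fun j => V (2 * S.L s + j)) ∈
      {V : ℕ → Dir 2 | ∃ t ≤ S.T s, ∀ c, |z c + W (fun _ => 1) V t c| ≤ 1}} := rfl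
  rw [h2, h1]
  linarith

theorem visit_of_fut (hK : ∀ s, S.K s = 2) (s : ℕ) (x : ℕ → Dir 2)
    (h : (fun j => x (S.tau s + 1 + j)) ∈ S.fut s (walk S.flg x (S.tau s))) :
    x ∈ S.visit s := by
  obtain ⟨⟨h0, h1⟩, t, ht, h2⟩ := h
  have hs := S.hs s
  refine ⟨S.tau s + S.K s * S.L s + t, by omega, by omega, fun c => ?_⟩
  rw [S.walk_run x s t ht c, S.walk_pieces x s (S.K s) le_rfl c]
  have h3 : ∑ l ∈ Finset.range (S.K s), vec (x (S.tau s + l * S.L s + 1)) c = 0 := by
    rw [hK s, Finset.sum_range_succ, Finset.sum_range_one]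
    have e0 : x (S.tau s + 0 * S.L s + 1) = (0, true) := by
      simpa using h0
    have e1 : x (S.tau s + 1 * S.L s + 1) = (0, false) := by
      have e : S.tau s + 1 * S.L s + 1 = S.tau s + 1 + S.L s := by ring
      rw [e]
      exact h1
    rw [e0, e1]
    unfold vec
    by_cases hc : c = 0 <;> simp [hc]
  rw [h3, mul_zero, add_zero]
  have h4 := h2 c
  have h5 : W (fun _ => 1) (fun j => x (S.tau s + 1 + (2 * S.L s + j))) t c
      = ∑ l ∈ Finset.range t, vec (x (S.tau s + S.K s * S.L s + l + 1)) c := by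
    unfold W
    refine Finset.sum_congr rfl fun l _ => ?_
    have e : S.tau s + 1 + (2 * S.L s + l) = S.tau s + S.K s * S.L s + l + 1 := by
      rw [hK s]; ring
    simp only [Nat.cast_one, one_mul]
    rw [e]
  have h6 : W (fun _ => 1) (fun j => (fun j => x (S.tau s + 1 + j)) (2 * S.L s + j)) t c
      = W (fun _ => 1) (fun j => x (S.tau s + 1 + (2 * S.L s + j))) t c := rfl
  rw [h6, h5] at h4
  exact h4

theorem visit_dep (s : ℕ) (x x' : ℕ → Dir 2) (h : ∀ j ≤ S.tau (s + 1), x j = x' j) :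
    x ∈ S.visit s ↔ x' ∈ S.visit s := by
  have key : ∀ x x' : ℕ → Dir 2, (∀ j ≤ S.tau (s + 1), x j = x' j) →
      x ∈ S.visit s → x' ∈ S.visit s := by
    rintro x x' h ⟨n, h1, h2, h3⟩
    refine ⟨n, h1, h2, ?_⟩
    rw [← walk_dep S.flg x x' n (fun j hj => h j (hj.trans h2))]
    exact h3
  exact ⟨key x x' h, key x' x (fun j hj => (h j hj).symm)⟩

theorem measurableSet_visit (s : ℕ) : MeasurableSet (S.visit s) := by
  have h : S.visit s = ⋃ n : ℕ, ⋃ (_ : S.tau s ≤ n), ⋃ (_ : n ≤ S.tau (s + 1)), ⋂ c : Fin 2,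
      {x : ℕ → Dir 2 | |walk S.flg x n c| ≤ 1} := by
    ext x
    simp only [visit, Set.mem_iUnion, Set.mem_iInter, Set.mem_ofPred_eq, exists_prop]
  rw [h]
  refine MeasurableSet.iUnion fun n => MeasurableSet.iUnion fun _ =>
    MeasurableSet.iUnion fun _ => MeasurableSet.iInter fun c => ?_
  have h1 : Measurable (fun x : ℕ → Dir 2 => walk S.flg x n c) :=
    (measurable_pi_apply c).comp (measurable_walk_snd S.flg n)
  exact h1 (MeasurableSet.of_discrete (s := {w : ℤ | |w| ≤ 1}))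

/-- no visit in stages `m, ..., m + k - 1` -/
def noVisit (m k : ℕ) : Set (ℕ → Dir 2) := {x | ∀ i < k, x ∉ S.visit (m + i)}

theorem noVisit_le (hK : ∀ s, S.K s = 2) (q : ℝ) (hq1 : q / 16 ≤ 1)
    (hq : ∀ s, ∀ z : Fin 2 → ℤ, (∀ c, |z c| ≤ (S.tau s : ℤ)) →
      q ≤ (iid 2).real {V : ℕ → Dir 2 | ∃ t ≤ S.T s, ∀ c, |z c + W (fun _ => 1) V t c| ≤ 1})
    (m k : ℕ) : (iid 2).real (S.noVisit m k) ≤ (1 - q / 16) ^ k := by
  classical
  have hmeas : ∀ k, MeasurableSet (S.noVisit m k) := by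
    intro k
    have h : S.noVisit m k = ⋂ i : ℕ, ⋂ (_ : i < k), (S.visit (m + i))ᶜ := by
      ext x
      simp [noVisit]
    rw [h]
    exact MeasurableSet.iInter fun i => MeasurableSet.iInter fun _ =>
      (S.measurableSet_visit _).compl
  induction k with
  | zero => simp
  | succ k ih =>
    have hsub : S.noVisit m (k + 1) ⊆ {V | V ∈ S.noVisit m k ∧
        (fun j => V (S.tau (m + k) + 1 + j)) ∉
          S.fut (m + k) (walk S.flg V (S.tau (m + k)))} := by
      intro V hV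
      refine ⟨fun i hi => hV i (by omega), fun hcon => ?_⟩
      exact hV k (by omega) (S.visit_of_fut hK (m + k) V hcon)
    refine (measureReal_mono hsub).trans ?_
    refine (cond_step (S.tau (m + k) + 1) (S.noVisit m k) (hmeas k) ?_
      (fun V => walk S.flg V (S.tau (m + k))) (measurable_walk_snd _ _) ?_
      (Fintype.piFinset (fun _ => Finset.Icc (-(S.tau (m + k) : ℤ)) (S.tau (m + k) : ℤ))) ?_
      (S.fut (m + k)) (S.measurableSet_fut (m + k)) (q / 16) ?_).trans ?_
    · intro V V' h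
      have key : ∀ i < k, (V ∈ S.visit (m + i) ↔ V' ∈ S.visit (m + i)) := by
        intro i hi
        refine S.visit_dep (m + i) V V' (fun j hj => h j ?_)
        have := S.tau_mono.monotone (show m + i + 1 ≤ m + k by omega)
        omega
      constructor
      · intro h1 i hi h2
        exact h1 i hi ((key i hi).2 h2)
      · intro h1 i hi h2
        exact h1 i hi ((key i hi).1 h2)
    · intro V V' h
      exact walk_dep _ _ _ _ (fun j hj => h j (by omega))
    · intro V
      rw [Fintype.mem_piFinset]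
      intro c
      rw [Finset.mem_Icc, ← abs_le]
      exact abs_walk_le _ _ _ _
    · intro z hz
      refine S.fut_prob q (m + k) z (hq (m + k) z (fun c => ?_))
      rw [Fintype.mem_piFinset] at hz
      have := hz c
      rwa [Finset.mem_Icc, ← abs_le] at this
    · rw [pow_succ']
      exact mul_le_mul_of_nonneg_left ih (by linarith)

theorem not_esc (hK : ∀ s, S.K s = 2) (q : ℝ) (hq0 : 0 < q)
    (hq : ∀ s, ∀ z : Fin 2 → ℤ, (∀ c, |z c| ≤ (S.tau s : ℤ)) →
      q ≤ (iid 2).real {V : ℕ → Dir 2 | ∃ t ≤ S.T s, ∀ c, |z c + W (fun _ => 1) V t c| ≤ 1}) :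
    ∀ᵐ x ∂(iid 2), ¬ Esc S.flg x := by
  have hq1 : q ≤ 1 := (hq 0 0 (fun c => by simp)).trans measureReal_le_one
  have h1 : ∀ m, ∀ᵐ x ∂(iid 2), ∃ i, x ∈ S.visit (m + i) := by
    intro m
    have h2 : (iid 2).real {x | ∀ i, x ∉ S.visit (m + i)} = 0 := by
      refine le_antisymm ?_ measureReal_nonneg
      have h3 : ∀ k, (iid 2).real {x | ∀ i, x ∉ S.visit (m + i)} ≤ (1 - q / 16) ^ k := fun k =>
        (measureReal_mono (show {x | ∀ i, x ∉ S.visit (m + i)} ⊆ S.noVisit m k from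
          fun x hx i _ => hx i)).trans
          (S.noVisit_le hK q (by linarith) hq m k)
      have h4 := tendsto_pow_atTop_nhds_zero_of_lt_one (r := 1 - q / 16) (by linarith)
        (by linarith)
      exact ge_of_tendsto' h4 h3
    rw [ae_iff]
    rw [measureReal_eq_zero_iff] at h2
    convert h2 using 2
    ext x
    simp
  have h2 := ae_all_iff.2 h1
  filter_upwards [h2] with x hx hesc
  obtain ⟨N, hN⟩ := Filter.eventually_atTop.1 (hesc 1)
  obtain ⟨i, n, hn1, _, hn3⟩ := hx N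
  have h3 : N ≤ n := by
    have h4 : N + i ≤ S.tau (N + i) := S.tau_mono.le_apply
    omega
  obtain ⟨c, hc⟩ := hN n h3
  have := hn3 c
  push_cast at hc
  linarith

end Sched

end Pool.Agent.Q293.CR
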