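import Mathlib
import Pool.Agent.Q293.CR.Core3

set_option autoImplicit false
set_option linter.unusedSectionVars false

open MeasureTheory ProbabilityTheory Finset

namespace Pool.Agent.Q293.CR

theorem E0 {κ : Type} [Fintype κ] [DecidableEq κ] {d : ℕ} (hLO : S_LO) (hB : S_Bin)
    (i : Fin d) :
    (((univ : Finset (κ → Dir d)).filter (fun v =>
      |∑ j, ((1 : ℕ) : ℤ) * vec (v j) i| ≤ ((0 : ℕ) : ℤ))).card : ℝ)
      ≤ (2 * (d : ℝ)) ^ Fintype.card κ *
        Real.sqrt ((d : ℝ) / ((Fintype.card κ : ℝ) + 1)) := by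
  classical
  set a : κ → ℕ := fun _ => 1 with ha
  have e0 : ((univ : Finset (κ → Dir d)).filter (fun v =>
      |∑ j, ((1 : ℕ) : ℤ) * vec (v j) i| ≤ ((0 : ℕ) : ℤ))).card
      = ∑ α : κ → Fin d, ((univ : Finset (Finset κ)).filter (fun T =>
          |sg a (univ.filter (fun j => α j = i)) T| ≤ ((0 : ℕ) : ℤ))).card := by
    refine Eq.trans ?_ (cnt (κ := κ) (d := d) (fun w : (κ → Fin d) × Finset κ =>
          |sg a (univ.filter (fun j => w.1 j = i)) w.2| ≤ ((0 : ℕ) : ℤ)))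
    refine congrArg card (filter_congr fun v _ => ?_)
    rw [← pos_eq]
  rw [e0]
  push_cast
  have hα : ∀ α : κ → Fin d, ((((univ : Finset (Finset κ)).filter (fun T =>
      |sg a (univ.filter (fun j => α j = i)) T| ≤ (0 : ℤ))).card : ℕ) : ℝ)
      ≤ 2 ^ Fintype.card κ * (1 * (1 / Real.sqrt (((univ.filter (fun j => α j = i)).card : ℝ) + 1)))
      := by
    intro α
    have key : ∀ x : ℤ, ((((univ.filter (fun j => α j = i)).powerset.filter
        (fun T => |x + sg a (univ.filter (fun j => α j = i)) T| ≤ (0 : ℤ))).card : ℕ) : ℝ)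
        ≤ 2 ^ (univ.filter (fun j => α j = i)).card *
          (1 / Real.sqrt (((univ.filter (fun j => α j = i)).card : ℝ) + 1)) := by
      intro x
      have h := hLO κ (univ.filter (fun j => α j = i)) a 1 0 x le_rfl (fun j _ => le_rfl)
      simpa using h
    have h := peel (univ.filter (fun j => α j = i)) (univ.filter (fun j => α j = i)) subset_rfl
      (1 / Real.sqrt (((univ.filter (fun j => α j = i)).card : ℝ) + 1))
      (fun z => |z| ≤ (0 : ℤ)) a key (fun _ => True) (fun T => Iff.rfl)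
    simp only [and_true] at h
    refine h.trans (le_of_eq ?_)
    simp
    ring
  refine (sum_le_sum fun α _ => hα α).trans ?_
  rw [← mul_sum]
  have hcs := Real.sum_mul_le_sqrt_mul_sqrt (univ : Finset (κ → Fin d))
    (fun _ => 1) (fun α => 1 / Real.sqrt (((univ.filter (fun j => α j = i)).card : ℝ) + 1))
  have hX : ∑ α : κ → Fin d, (1 : ℝ) ^ 2 = (d : ℝ) ^ Fintype.card κ := by simp
  have hY : ∑ α : κ → Fin d, (1 / Real.sqrt (((univ.filter (fun j => α j = i)).card : ℝ) + 1)) ^ 2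
      ≤ (d : ℝ) ^ Fintype.card κ * ((d : ℝ) / ((Fintype.card κ : ℝ) + 1)) := by
    have e : ∀ α : κ → Fin d, (1 / Real.sqrt (((univ.filter (fun j => α j = i)).card : ℝ) + 1)) ^ 2
        = 1 / (((univ.filter (fun j => α j = i)).card : ℝ) + 1) := by
      intro α
      rw [div_pow, Real.sq_sqrt (by positivity), one_pow]
    simp only [e]
    have := (hB κ d univ i).1
    rwa [card_univ] at this
  rw [hX] at hcs
  have h1 : Real.sqrt ((d : ℝ) ^ Fintype.card κ) * Real.sqrt (∑ α : κ → Fin d,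
      (1 / Real.sqrt (((univ.filter (fun j => α j = i)).card : ℝ) + 1)) ^ 2)
      ≤ (d : ℝ) ^ Fintype.card κ * Real.sqrt ((d : ℝ) / ((Fintype.card κ : ℝ) + 1)) := by
    refine (mul_le_mul_of_nonneg_left (Real.sqrt_le_sqrt hY) (Real.sqrt_nonneg _)).trans ?_
    rw [Real.sqrt_mul (by positivity), ← mul_assoc, Real.mul_self_sqrt (by positivity)]
  have h2 := hcs.trans h1
  refine (mul_le_mul_of_nonneg_left h2 (by positivity : (0 : ℝ) ≤ 2 ^ Fintype.card κ)).trans
    (le_of_eq ?_)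
  rw [mul_pow]
  ring

theorem zero_le {d : ℕ} [NeZero d] (hLO : S_LO) (hB : S_Bin) (k : ℕ) (i : Fin d) :
    (iid d).real {V | W (fun _ => 1) V k i = 0} ≤ Real.sqrt ((d : ℝ) / ((k : ℝ) + 1)) := by
  classical
  have hd0 : (0 : ℝ) < d := by exact_mod_cast Nat.pos_of_ne_zero (NeZero.ne d)
  have hc := iid_count (d := d) k (fun v : Fin k → Dir d =>
      |∑ j : Fin k, ((1 : ℕ) : ℤ) * vec (v j) i| ≤ ((0 : ℕ) : ℤ))
  have h1 : {V : ℕ → Dir d | W (fun _ => 1) V k i = 0} ⊆ {V | (fun v : Fin k → Dir d =>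
      |∑ j : Fin k, ((1 : ℕ) : ℤ) * vec (v j) i| ≤ ((0 : ℕ) : ℤ)) (fun j : Fin k => V j)} := by
    intro V hV
    have hV' : W (fun _ => 1) V k i = 0 := hV
    rw [W_fin] at hV'
    show |∑ j : Fin k, ((1 : ℕ) : ℤ) * vec (V j) i| ≤ ((0 : ℕ) : ℤ)
    rw [hV']
    simp
  refine (measureReal_mono h1).trans (hc.le.trans ?_)
  rw [div_le_iff₀ (by positivity), mul_comm _ ((2 * (d : ℝ)) ^ k)]
  have h := E0 (κ := Fin k) (d := d) hLO hB i
  simpa only [Fintype.card_fin] using h

end Pool.Agent.Q293.CR
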