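import Mathlib
import Pool.Agent.Q293.CR.TwoB
import Pool.Agent.Q293.CR.Zero

set_option autoImplicit false
set_option linter.unusedSectionVars false

open MeasureTheory ProbabilityTheory

namespace Pool.Agent.Q293.CR

/-- start times of the stages -/
def tauOf (Tf : ℕ → ℕ) : ℕ → ℕ
  | 0 => 0
  | s + 1 => tauOf Tf s + 2 * 4 ^ s * (tauOf Tf s + Tf (tauOf Tf s) + s + 1) + Tf (tauOf Tf s)

/-- many pieces -/
def fine (Tf : ℕ → ℕ) : Sched where
  tau := tauOf Tf
  K := fun s => 2 * 4 ^ s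
  L := fun s => tauOf Tf s + Tf (tauOf Tf s) + s + 1
  T := fun s => Tf (tauOf Tf s)
  h0 := rfl
  hs := fun s => rfl
  hK := fun s => by
    have : 0 < 4 ^ s := by positivity
    omega
  hL := fun s => by omega

/-- two pieces -/
def coarse (Tf : ℕ → ℕ) : Sched where
  tau := tauOf Tf
  K := fun _ => 2
  L := fun s => 4 ^ s * (tauOf Tf s + Tf (tauOf Tf s) + s + 1)
  T := fun s => Tf (tauOf Tf s)
  h0 := rfl
  hs := fun s => by
    rw [tauOf, mul_assoc]
  hK := fun s => by omega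
  hL := fun s => by
    have h1 : 0 < 4 ^ s := by positivity
    exact Nat.mul_pos h1 (by omega)

theorem coarse_le_fine (Tf : ℕ → ℕ) (n : ℕ) (h : (coarse Tf).flg n = true) :
    (fine Tf).flg n = true := by
  rw [Sched.flg_iff] at h ⊢
  obtain ⟨s, h⟩ := h
  have h4 : 0 < 4 ^ s := by positivity
  refine ⟨s, ?_⟩
  rcases h with ⟨j, hj, h⟩ | ⟨m, hm, h⟩
  · left
    refine ⟨j * 4 ^ s, ?_, ?_⟩
    · show j * 4 ^ s < 2 * 4 ^ s
      exact Nat.mul_lt_mul_of_pos_right hj h4
    · rw [h]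
      show tauOf Tf s + j * (4 ^ s * (tauOf Tf s + Tf (tauOf Tf s) + s + 1)) + 1
        = tauOf Tf s + j * 4 ^ s * (tauOf Tf s + Tf (tauOf Tf s) + s + 1) + 1
      rw [mul_assoc]
  · right
    refine ⟨m, hm, ?_⟩
    rw [h]
    show tauOf Tf s + 2 * (4 ^ s * (tauOf Tf s + Tf (tauOf Tf s) + s + 1)) + m + 1
      = tauOf Tf s + 2 * 4 ^ s * (tauOf Tf s + Tf (tauOf Tf s) + s + 1) + m + 1
    rw [mul_assoc]

theorem coef_prob (hLO : S_LO) (hB : S_Bin) (S : Sched) (s : ℕ) (c : Fin 2) :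
    (iid 2).real {x | S.coef x s (S.K s) c = 0} ≤ Real.sqrt (2 / ((S.K s : ℝ) + 1)) := by
  have hL := S.hL s
  have hinj : Function.Injective (fun l => S.tau s + l * S.L s + 1) := by
    intro a b hab
    have hab' : S.tau s + a * S.L s + 1 = S.tau s + b * S.L s + 1 := hab
    exact Nat.eq_of_mul_eq_mul_right hL (by omega)
  have h1 := mp_reindex (d := 2) (fun l => S.tau s + l * S.L s + 1) hinj
  have hm : MeasurableSet {V : ℕ → Dir 2 | W (fun _ => 1) V (S.K s) c = 0} :=
    (measurable_W (fun _ => 1) (S.K s) c) (measurableSet_singleton (0 : ℤ))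
  have h2 := h1.measureReal_preimage hm.nullMeasurableSet
  have h3 : (fun (V : ℕ → Dir 2) j => V (S.tau s + j * S.L s + 1)) ⁻¹'
      {V : ℕ → Dir 2 | W (fun _ => 1) V (S.K s) c = 0} = {x | S.coef x s (S.K s) c = 0} := by
    ext x
    simp only [Set.mem_preimage, Set.mem_ofPred_eq, W, Sched.coef, Nat.cast_one, one_mul]
  rw [h3] at h2
  rw [h2]
  exact_mod_cast zero_le hLO hB (S.K s) c

theorem fine_esc (hLO : S_LO) (hB : S_Bin) (Tf : ℕ → ℕ) :
    ∀ᵐ x ∂(iid 2), Esc (fine Tf).flg x := by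
  set S := fine Tf with hS
  have hle : ∀ s, (iid 2).real (⋃ c : Fin 2, {x | S.coef x s (S.K s) c = 0})
      ≤ 2 * (1 / 2) ^ s := by
    intro s
    refine (measureReal_iUnion_fintype_le _).trans ?_
    have h1 : ∀ c ∈ (Finset.univ : Finset (Fin 2)),
        (iid 2).real {x | S.coef x s (S.K s) c = 0} ≤ (1 / 2) ^ s := by
      intro c _
      refine (coef_prob hLO hB S s c).trans ?_
      refine Real.sqrt_le_iff.2 ⟨by positivity, ?_⟩
      have hK : (S.K s : ℝ) = 2 * 4 ^ s := by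
        have : S.K s = 2 * 4 ^ s := rfl
        rw [this]
        push_cast
        ring
      rw [hK, ← pow_mul, mul_comm s 2, pow_mul, div_le_iff₀ (by positivity)]
      have h4 : ((1 / 2 : ℝ) ^ 2) ^ s * 4 ^ s = 1 := by
        rw [← mul_pow]
        norm_num
      have h5 : 0 < ((1 / 2 : ℝ) ^ 2) ^ s := by positivity
      nlinarith
    refine (Finset.sum_le_sum h1).trans ?_
    simp
  have hsum : Summable (fun s => (iid 2).real (⋃ c : Fin 2, {x | S.coef x s (S.K s) c = 0})) :=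
    Summable.of_nonneg_of_le (fun _ => measureReal_nonneg) hle
      ((summable_geometric_of_lt_one (by norm_num) (by norm_num)).mul_left 2)
  have hne : ∑' s, (iid 2) (⋃ c : Fin 2, {x | S.coef x s (S.K s) c = 0}) ≠ ⊤ := by
    have e : ∀ s, (iid 2) (⋃ c : Fin 2, {x | S.coef x s (S.K s) c = 0})
        = ENNReal.ofReal ((iid 2).real (⋃ c : Fin 2, {x | S.coef x s (S.K s) c = 0})) := by
      intro k
      exact (ofReal_measureReal).symm
    simp only [e]
    exact hsum.tsum_ofReal_ne_top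
  filter_upwards [ae_eventually_notMem hne] with x hx R
  refine S.escape x (fun s => le_rfl) ?_ R
  filter_upwards [hx] with s hs c hc
  exact hs (Set.mem_iUnion.2 ⟨c, hc⟩)

theorem two_fail (hLO : S_LO) (hB : S_Bin) (hR : S_SRW) :
    ∃ b b' : ℕ → Bool, (∀ n, b' n = true → b n = true) ∧ (∀ᵐ x ∂(iid 2), Esc b x) ∧
      ¬ ∀ᵐ x ∂(iid 2), Esc b' x := by
  obtain ⟨q, hq0, hq⟩ := hR
  choose Tf hTf using hq
  refine ⟨(fine Tf).flg, (coarse Tf).flg, coarse_le_fine Tf, fine_esc hLO hB Tf, ?_⟩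
  have h := (coarse Tf).not_esc (fun _ => rfl) q hq0 (fun s z hz => hTf _ z hz)
  intro h2
  obtain ⟨x, hx1, hx2⟩ := (h.and h2).exists
  exact hx1 hx2

/-- monotonicity of strong transience in dimension `d` -/
def Monotone2 (d : ℕ) [NeZero d] : Prop :=
  ∀ p p' : ℕ → unitInterval, (∀ n, 2 ≤ n → p' n ≤ p n) →
    StronglyTransient d p → StronglyTransient d p'

theorem final (hLO : S_LO) (hHA : S_HA) (hB : S_Bin) (hS : S_Sum) (hR : S_SRW) (hO : S_One) :
    (∀ (d : ℕ) [NeZero d], Monotone2 d ↔ d ≠ 2) ∧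
    (∀ (d : ℕ) [NeZero d], 3 ≤ d → ∀ p : ℕ → unitInterval, StronglyTransient d p) ∧
    (∀ p : ℕ → unitInterval, StronglyTransient 1 p ↔ Summable (fun n => (p n : ℝ))) := by
  have h3 : ∀ (d : ℕ) [NeZero d], 3 ≤ d → ∀ p : ℕ → unitInterval, StronglyTransient d p := by
    intro d _ hd p
    rw [st_iff]
    exact Filter.Eventually.of_forall fun b => good3 hLO hHA hB hS hd b
  have h1 : ∀ p : ℕ → unitInterval, StronglyTransient 1 p ↔ Summable (fun n => (p n : ℝ)) :=
    fun p => one_iff p hO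
  refine ⟨?_, h3, h1⟩
  intro d hd
  constructor
  · rintro hm rfl
    obtain ⟨b, b', hbb, hb, hb'⟩ := two_fail hLO hB hR
    refine hb' ((st_det b').1 (hm _ _ ?_ ((st_det b).2 hb)))
    intro n _
    by_cases h : b' n = true
    · rw [if_pos h, if_pos (hbb n h)]
    · rw [if_neg h]
      exact (unitInterval.nonneg' )
  · intro hd2 p p' hpp hst
    have hd0 : d ≠ 0 := NeZero.ne d
    rcases Nat.lt_or_ge d 3 with hlt | hge
    · have hd1 : d = 1 := by omega
      subst hd1
      have h4 := (h1 p).1 hst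
      refine (h1 p').2 ?_
      rw [← summable_nat_add_iff 2] at h4 ⊢
      exact Summable.of_nonneg_of_le (fun n => (p' (n + 2)).2.1)
        (fun n => hpp (n + 2) (by omega)) h4
    · exact h3 d hge p'

end Pool.Agent.Q293.CR
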