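import Mathlib
import Pool.Agent.Q293.CR.Stm

set_option autoImplicit false
set_option linter.unusedSectionVars false

open Finset

namespace Pool.Agent.Q293.CR

variable {κ : Type} [Fintype κ] [DecidableEq κ] {d : ℕ}

theorem fiber_card (G T : Finset κ) (hT : T ⊆ G) (i : Fin d) :
    ((univ : Finset (κ → Fin d)).filter (fun α => G.filter (fun j => α j = i) = T)).card
      = (d - 1) ^ (G.card - T.card) * d ^ (Fintype.card κ - G.card) := by
  have h1 : (univ : Finset (κ → Fin d)).filter (fun α => G.filter (fun j => α j = i) = T)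
      = Fintype.piFinset (fun j => if j ∈ T then {i} else if j ∈ G then univ.erase i else univ) := by
    ext α
    simp only [mem_filter, mem_univ, true_and, Fintype.mem_piFinset]
    constructor
    · intro h j
      by_cases h1 : j ∈ T
      · rw [if_pos h1]
        rw [← h, mem_filter] at h1
        simp [h1.2]
      · rw [if_neg h1]
        by_cases h2 : j ∈ G
        · rw [if_pos h2, mem_erase]
          refine ⟨fun h3 => h1 ?_, mem_univ _⟩
          rw [← h, mem_filter]
          exact ⟨h2, h3⟩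
        · rw [if_neg h2]
          exact mem_univ _
    · intro h
      ext j
      rw [mem_filter]
      have hj := h j
      constructor
      · rintro ⟨h1, h2⟩
        by_contra h3
        rw [if_neg h3, if_pos h1, mem_erase] at hj
        exact hj.1 h2
      · intro h1
        rw [if_pos h1, mem_singleton] at hj
        exact ⟨hT h1, hj⟩
  rw [h1, Fintype.card_piFinset]
  have h2 : ∀ j, (if j ∈ T then ({i} : Finset (Fin d)) else if j ∈ G then univ.erase i
      else univ).card = if j ∈ T then 1 else if j ∈ G then d - 1 else d := by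
    intro j
    split_ifs
    · simp
    · rw [card_erase_of_mem (mem_univ i)]
      simp
    · simp
  simp only [h2]
  rw [← prod_mul_prod_compl G, ← prod_sdiff hT]
  have h3 : ∏ j ∈ G \ T, (if j ∈ T then 1 else if j ∈ G then d - 1 else d)
      = (d - 1) ^ (G.card - T.card) := by
    rw [prod_congr rfl (g := fun _ => d - 1), prod_const, card_sdiff_of_subset hT]
    intro j hj
    rw [Finset.mem_sdiff] at hj
    rw [if_neg hj.2, if_pos hj.1]
  have h4 : ∏ j ∈ T, (if j ∈ T then 1 else if j ∈ G then d - 1 else d) = 1 := by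
    refine prod_eq_one fun j hj => ?_
    rw [if_pos hj]
  have h5 : ∏ j ∈ Gᶜ, (if j ∈ T then 1 else if j ∈ G then d - 1 else d)
      = d ^ (Fintype.card κ - G.card) := by
    rw [prod_congr rfl (g := fun _ => d), prod_const, card_compl]
    intro j hj
    rw [mem_compl] at hj
    rw [if_neg (fun h => hj (hT h)), if_neg hj]
  rw [h3, h4, h5, mul_one]

theorem sum_alpha (G : Finset κ) (i : Fin d) (F : ℕ → ℝ) :
    ∑ α : κ → Fin d, F ((G.filter (fun j => α j = i)).card)
      = ∑ t ∈ range (G.card + 1), ((G.card.choose t : ℕ) : ℝ) *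
        ((((d - 1 : ℕ) : ℝ) ^ (G.card - t) * (d : ℝ) ^ (Fintype.card κ - G.card)) * F t) := by
  rw [← sum_fiberwise_of_maps_to (s := univ) (t := G.powerset)
    (g := fun α : κ → Fin d => G.filter (fun j => α j = i))
    (fun α _ => mem_powerset.2 (filter_subset _ _))]
  have h1 : ∀ T ∈ G.powerset, ∑ α ∈ (univ : Finset (κ → Fin d)).filter
      (fun α => G.filter (fun j => α j = i) = T), F ((G.filter (fun j => α j = i)).card)
      = (((d - 1 : ℕ) : ℝ) ^ (G.card - T.card) * (d : ℝ) ^ (Fintype.card κ - G.card)) * F T.card := by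
    intro T hT
    rw [sum_congr rfl (g := fun _ => F T.card), sum_const, nsmul_eq_mul,
      fiber_card G T (mem_powerset.1 hT) i]
    · push_cast
      ring
    · intro α hα
      rw [(mem_filter.1 hα).2]
  rw [sum_congr rfl h1, sum_powerset_apply_card
    (f := fun t => (((d - 1 : ℕ) : ℝ) ^ (G.card - t) * (d : ℝ) ^ (Fintype.card κ - G.card)) * F t)]
  refine sum_congr rfl fun t _ => ?_
  rw [nsmul_eq_mul]

theorem bin : S_Bin := by
  intro κ _ _ d G i
  have hd : 1 ≤ d := Nat.one_le_iff_ne_zero.2 (fun h => by subst h; exact i.elim0)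
  set g := G.card with hg
  set n := Fintype.card κ with hn
  have hgn : g ≤ n := card_le_univ G
  have hdr : ((d - 1 : ℕ) : ℝ) = (d : ℝ) - 1 := by
    rw [Nat.cast_sub hd, Nat.cast_one]
  have hd1 : (0 : ℝ) ≤ (d : ℝ) - 1 := by
    have : (1 : ℝ) ≤ d := by exact_mod_cast hd
    linarith
  have hd0 : (0 : ℝ) < d := by exact_mod_cast hd
  have hpow : (d : ℝ) ^ (n - g) * (d : ℝ) ^ g = (d : ℝ) ^ n := by
    rw [← pow_add, Nat.sub_add_cancel hgn]
  constructor
  · rw [sum_alpha G i (fun t => 1 / ((t : ℝ) + 1))]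
    rw [← hg, ← hn]
    have h1 : ∀ t ∈ range (g + 1), ((g.choose t : ℕ) : ℝ) *
        ((((d - 1 : ℕ) : ℝ) ^ (g - t) * (d : ℝ) ^ (n - g)) * (1 / ((t : ℝ) + 1)))
        = ((d : ℝ) ^ (n - g) / ((g : ℝ) + 1)) *
          ((1 : ℝ) ^ (t + 1) * ((d : ℝ) - 1) ^ (g + 1 - (t + 1)) * (((g + 1).choose (t + 1) : ℕ) : ℝ)) := by
      intro t _
      have h2 : ((g + 1 : ℕ) : ℝ) * ((g.choose t : ℕ) : ℝ)
          = (((g + 1).choose (t + 1) : ℕ) : ℝ) * ((t + 1 : ℕ) : ℝ) := by
        exact_mod_cast Nat.add_one_mul_choose_eq g t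
      push_cast at h2
      have h3 : (0 : ℝ) < (t : ℝ) + 1 := by positivity
      have h4 : (0 : ℝ) < (g : ℝ) + 1 := by positivity
      rw [hdr, Nat.add_sub_add_right, one_pow, one_mul]
      field_simp
      linear_combination (((d : ℝ) - 1) ^ (g - t)) * h2
    rw [sum_congr rfl h1, ← mul_sum]
    have h5 : ∑ t ∈ range (g + 1), ((1 : ℝ) ^ (t + 1) * ((d : ℝ) - 1) ^ (g + 1 - (t + 1)) *
        (((g + 1).choose (t + 1) : ℕ) : ℝ)) ≤ (d : ℝ) ^ (g + 1) := by
      have h6 := add_pow (1 : ℝ) ((d : ℝ) - 1) (g + 1)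
      rw [add_sub_cancel, sum_range_succ'] at h6
      rw [h6]
      have : (0 : ℝ) ≤ 1 ^ 0 * ((d : ℝ) - 1) ^ (g + 1 - 0) * (((g + 1).choose 0 : ℕ) : ℝ) := by
        positivity
      linarith
    refine (mul_le_mul_of_nonneg_left h5 (by positivity)).trans (le_of_eq ?_)
    rw [← hpow, pow_succ]
    field_simp
  · rw [sum_alpha G i (fun t => 1 / ((t : ℝ) + 1) ^ 2)]
    rw [← hg, ← hn]
    have h1 : ∀ t ∈ range (g + 1), ((g.choose t : ℕ) : ℝ) *
        ((((d - 1 : ℕ) : ℝ) ^ (g - t) * (d : ℝ) ^ (n - g)) * (1 / ((t : ℝ) + 1) ^ 2))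
        ≤ (2 * (d : ℝ) ^ (n - g) / ((g : ℝ) + 1) ^ 2) *
          ((1 : ℝ) ^ (t + 1 + 1) * ((d : ℝ) - 1) ^ (g + 2 - (t + 1 + 1)) *
            (((g + 2).choose (t + 1 + 1) : ℕ) : ℝ)) := by
      intro t _
      have h2 : ((g + 1 : ℕ) : ℝ) * ((g.choose t : ℕ) : ℝ)
          = (((g + 1).choose (t + 1) : ℕ) : ℝ) * ((t + 1 : ℕ) : ℝ) := by
        exact_mod_cast Nat.add_one_mul_choose_eq g t
      have h2' : ((g + 2 : ℕ) : ℝ) * (((g + 1).choose (t + 1) : ℕ) : ℝ)
          = (((g + 2).choose (t + 1 + 1) : ℕ) : ℝ) * ((t + 2 : ℕ) : ℝ) := by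
        exact_mod_cast Nat.add_one_mul_choose_eq (g + 1) (t + 1)
      push_cast at h2 h2'
      have h3 : (0 : ℝ) < (t : ℝ) + 1 := by positivity
      have h4 : (0 : ℝ) < (g : ℝ) + 1 := by positivity
      have h4' : (0 : ℝ) < (g : ℝ) + 2 := by positivity
      have h3' : (0 : ℝ) < (t : ℝ) + 2 := by positivity
      have e1 : ((g.choose t : ℕ) : ℝ)
          = (((g + 2).choose (t + 1 + 1) : ℕ) : ℝ) * ((t : ℝ) + 2) * ((t : ℝ) + 1)
            / (((g : ℝ) + 2) * ((g : ℝ) + 1)) := by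
        rw [eq_div_iff (by positivity)]
        linear_combination ((g : ℝ) + 2) * h2 + ((t : ℝ) + 1) * h2'
      rw [hdr, show g + 2 - (t + 1 + 1) = g - t by omega, one_pow, one_mul, e1]
      set X := (((g + 2).choose (t + 1 + 1) : ℕ) : ℝ) with hX
      have hX0 : 0 ≤ X := by positivity
      set Y := ((d : ℝ) - 1) ^ (g - t) with hY
      have hY0 : 0 ≤ Y := by positivity
      set D := (d : ℝ) ^ (n - g) with hD
      have hD0 : 0 ≤ D := by positivity
      have e2 : X * ((t : ℝ) + 2) * ((t : ℝ) + 1) / (((g : ℝ) + 2) * ((g : ℝ) + 1)) *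
          (Y * D * (1 / ((t : ℝ) + 1) ^ 2))
          = (X * Y * D) * ((((t : ℝ) + 2) / ((t : ℝ) + 1)) * (1 / (((g : ℝ) + 2) * ((g : ℝ) + 1)))) := by
        field_simp
      have e3 : 2 * D / ((g : ℝ) + 1) ^ 2 * (Y * X)
          = (X * Y * D) * (2 * (1 / ((g : ℝ) + 1) ^ 2)) := by
        field_simp
      rw [e2, e3]
      refine mul_le_mul_of_nonneg_left ?_ (by positivity)
      refine mul_le_mul ?_ ?_ (by positivity) (by norm_num)
      · rw [div_le_iff₀ h3]
        nlinarith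
      · refine one_div_le_one_div_of_le (by positivity) ?_
        nlinarith
    refine (sum_le_sum h1).trans ?_
    rw [← mul_sum]
    have h5 : ∑ t ∈ range (g + 1), ((1 : ℝ) ^ (t + 1 + 1) * ((d : ℝ) - 1) ^ (g + 2 - (t + 1 + 1)) *
        (((g + 2).choose (t + 1 + 1) : ℕ) : ℝ)) ≤ (d : ℝ) ^ (g + 2) := by
      have h6 := add_pow (1 : ℝ) ((d : ℝ) - 1) (g + 2)
      rw [add_sub_cancel, sum_range_succ', sum_range_succ'] at h6
      rw [h6]
      have h7 : (0 : ℝ) ≤ 1 ^ 0 * ((d : ℝ) - 1) ^ (g + 2 - 0) * (((g + 2).choose 0 : ℕ) : ℝ) := by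
        positivity
      have h8 : (0 : ℝ) ≤ 1 ^ (0 + 1) * ((d : ℝ) - 1) ^ (g + 2 - (0 + 1)) *
          (((g + 2).choose (0 + 1) : ℕ) : ℝ) := by
        positivity
      linarith
    refine (mul_le_mul_of_nonneg_left h5 (by positivity)).trans (le_of_eq ?_)
    rw [← hpow, pow_add]
    field_simp

end Pool.Agent.Q293.CR
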