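import Mathlib
import Pool.Agent.Q293.CR.Stm

/-!
# CR-HA: anti-concentration of signed sums with few coincidences among the weights
-/

open Finset MeasureTheory intervalIntegral

namespace Pool.Agent.Q293.CR.HAp

lemma int_cos (m : ℤ) :
    ∫ t in (0:ℝ)..1, Real.cos (2 * Real.pi * m * t) = if m = 0 then (1:ℝ) else 0 := by
  split_ifs with h
  · subst h; simp
  · have hm : (m:ℝ) ≠ 0 := by exact_mod_cast h
    have h1 : (2 * Real.pi * (m:ℝ)) ≠ 0 := by
      have := Real.pi_ne_zero
      positivity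
    rw [intervalIntegral.integral_comp_mul_left (fun t => Real.cos t) h1]
    have h2 : Real.sin (2 * Real.pi * (m:ℝ) * 1) = 0 := by
      have := Real.sin_int_mul_pi (2 * m)
      rw [← this]; congr 1; push_cast; ring
    rw [integral_cos, h2]
    simp

lemma int_cos_cos (a b : ℕ) (ha : 1 ≤ a) (hb : 1 ≤ b) :
    ∫ t in (0:ℝ)..1, Real.cos (4 * Real.pi * a * t) * Real.cos (4 * Real.pi * b * t)
      = if a = b then (1/2:ℝ) else 0 := by
  have h : ∀ t : ℝ, Real.cos (4 * Real.pi * a * t) * Real.cos (4 * Real.pi * b * t)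
      = (1/2) * Real.cos (2 * Real.pi * ((2 * (a:ℤ) - 2 * (b:ℤ) : ℤ) : ℝ) * t)
        + (1/2) * Real.cos (2 * Real.pi * ((2 * (a:ℤ) + 2 * (b:ℤ) : ℤ) : ℝ) * t) := by
    intro t
    have e1 : 2 * Real.pi * ((2 * (a:ℤ) - 2 * (b:ℤ) : ℤ) : ℝ) * t
        = 4 * Real.pi * a * t - 4 * Real.pi * b * t := by push_cast; ring
    have e2 : 2 * Real.pi * ((2 * (a:ℤ) + 2 * (b:ℤ) : ℤ) : ℝ) * t
        = 4 * Real.pi * a * t + 4 * Real.pi * b * t := by push_cast; ring
    rw [e1, e2, Real.cos_sub, Real.cos_add]; ring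
  simp_rw [h]
  rw [intervalIntegral.integral_add, intervalIntegral.integral_const_mul,
    intervalIntegral.integral_const_mul, int_cos, int_cos]
  · have h2 : (2 * (a:ℤ) + 2 * (b:ℤ) : ℤ) ≠ 0 := by omega
    rw [if_neg h2]
    by_cases hab : a = b
    · have h1 : (2 * (a:ℤ) - 2 * (b:ℤ) : ℤ) = 0 := by omega
      rw [if_pos h1, if_pos hab]; norm_num
    · have h1 : (2 * (a:ℤ) - 2 * (b:ℤ) : ℤ) ≠ 0 := by omega
      rw [if_neg h1, if_neg hab]; norm_num
  · exact (by fun_prop : Continuous _).intervalIntegrable _ _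
  · exact (by fun_prop : Continuous _).intervalIntegrable _ _

lemma sum_cos {κ : Type} [DecidableEq κ] (J : Finset κ) (φ : κ → ℝ) (φ0 : ℝ) :
    ∑ T ∈ J.powerset, Real.cos (φ0 + ∑ j ∈ J, (if j ∈ T then φ j else -φ j))
      = 2 ^ J.card * (Real.cos φ0 * ∏ j ∈ J, Real.cos (φ j)) := by
  induction J using Finset.induction_on with
  | empty => simp
  | insert i J hi ih =>
    rw [Finset.sum_powerset_insert hi, Finset.card_insert_of_notMem hi, Finset.prod_insert hi]
    have h1 : ∀ T ∈ J.powerset,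
        Real.cos (φ0 + ∑ j ∈ insert i J, (if j ∈ T then φ j else -φ j))
        = Real.cos ((φ0 + ∑ j ∈ J, (if j ∈ T then φ j else -φ j)) - φ i) := by
      intro T hT
      have hiT : i ∉ T := fun h => hi (Finset.mem_powerset.1 hT h)
      rw [Finset.sum_insert hi, if_neg hiT]; congr 1; ring
    have h2 : ∀ T ∈ J.powerset,
        Real.cos (φ0 + ∑ j ∈ insert i J, (if j ∈ insert i T then φ j else -φ j))
        = Real.cos ((φ0 + ∑ j ∈ J, (if j ∈ T then φ j else -φ j)) + φ i) := by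
      intro T hT
      rw [Finset.sum_insert hi, if_pos (Finset.mem_insert_self i T)]
      have : ∑ j ∈ J, (if j ∈ insert i T then φ j else -φ j)
          = ∑ j ∈ J, (if j ∈ T then φ j else -φ j) := by
        refine Finset.sum_congr rfl fun j hj => ?_
        have hji : j ≠ i := fun h => hi (h ▸ hj)
        simp [Finset.mem_insert, hji]
      rw [this]; congr 1; ring
    rw [Finset.sum_congr rfl h1, Finset.sum_congr rfl h2, ← Finset.sum_add_distrib]
    have h3 : ∀ T ∈ J.powerset,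
        Real.cos ((φ0 + ∑ j ∈ J, (if j ∈ T then φ j else -φ j)) - φ i)
        + Real.cos ((φ0 + ∑ j ∈ J, (if j ∈ T then φ j else -φ j)) + φ i)
        = (2 * Real.cos (φ i)) * Real.cos (φ0 + ∑ j ∈ J, (if j ∈ T then φ j else -φ j)) := by
      intro T _
      generalize φ0 + ∑ j ∈ J, (if j ∈ T then φ j else -φ j) = S
      rw [Real.cos_sub, Real.cos_add]; ring
    rw [Finset.sum_congr rfl h3, ← Finset.mul_sum, ih]; ring

lemma abs_cos_le (z : ℝ) : |Real.cos z| ≤ Real.exp (-(1 - Real.cos (2 * z)) / 4) := by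
  have h1 : Real.cos z ^ 2 ≤ Real.exp (-(1 - Real.cos (2 * z)) / 4) ^ 2 := by
    rw [← Real.exp_nat_mul]
    have h2 : Real.cos (2 * z) = 2 * Real.cos z ^ 2 - 1 := Real.cos_two_mul z
    have h3 := Real.add_one_le_exp (((2:ℕ):ℝ) * (-(1 - Real.cos (2 * z)) / 4))
    have h4 : ((2:ℕ):ℝ) * (-(1 - Real.cos (2 * z)) / 4) + 1 = Real.cos z ^ 2 := by
      rw [h2]; push_cast; ring
    linarith
  exact abs_le_of_sq_le_sq h1 (Real.exp_pos _).le

lemma prod_le {κ : Type} (J : Finset κ) (a : κ → ℕ) (hn : 1 ≤ J.card) (t : ℝ) :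
    ∏ j ∈ J, |Real.cos (2 * Real.pi * a j * t)|
      ≤ Real.exp (-(J.card : ℝ) / 8)
        + 4 / (J.card : ℝ) ^ 2 * (∑ j ∈ J, Real.cos (4 * Real.pi * a j * t)) ^ 2 := by
  set n : ℝ := (J.card : ℝ) with hnn
  have hn0 : (1:ℝ) ≤ n := by rw [hnn]; exact_mod_cast hn
  set Th : ℝ := ∑ j ∈ J, Real.cos (4 * Real.pi * a j * t) with hTh
  have h1 : ∏ j ∈ J, |Real.cos (2 * Real.pi * a j * t)| ≤ Real.exp (-(n - Th) / 4) := by
    calc ∏ j ∈ J, |Real.cos (2 * Real.pi * a j * t)|
        ≤ ∏ j ∈ J, Real.exp (-(1 - Real.cos (2 * (2 * Real.pi * a j * t))) / 4) :=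
          Finset.prod_le_prod (fun _ _ => abs_nonneg _) (fun _ _ => abs_cos_le _)
      _ = Real.exp (-(n - Th) / 4) := by
          rw [← Real.exp_sum, ← Finset.sum_div, Finset.sum_neg_distrib, Finset.sum_sub_distrib]
          congr 3
          rw [hTh, hnn]
          simp only [Finset.sum_const, nsmul_eq_mul, mul_one]
          congr 1
          refine Finset.sum_congr rfl fun j _ => ?_
          congr 1; ring
  by_cases hc : Th ≤ n / 2
  · have h2 : Real.exp (-(n - Th) / 4) ≤ Real.exp (-n / 8) :=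
      Real.exp_le_exp.2 (by linarith)
    have h3 : 0 ≤ 4 / n ^ 2 * Th ^ 2 := by positivity
    linarith
  · push Not at hc
    have h2 : ∏ j ∈ J, |Real.cos (2 * Real.pi * a j * t)| ≤ 1 :=
      Finset.prod_le_one (fun _ _ => abs_nonneg _) (fun _ _ => Real.abs_cos_le_one _)
    have h3 : 1 ≤ 4 / n ^ 2 * Th ^ 2 := by
      rw [div_mul_eq_mul_div, le_div_iff₀ (by positivity)]
      nlinarith
    have h4 := (Real.exp_pos (-n / 8)).le
    linarith

lemma int_sq {κ : Type} [DecidableEq κ] (J : Finset κ) (a : κ → ℕ) (M : ℕ)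
    (ha : ∀ j ∈ J, 1 ≤ a j) (hM : ∀ v : ℕ, (J.filter (fun j => a j = v)).card ≤ M) :
    ∫ t in (0:ℝ)..1, (∑ j ∈ J, Real.cos (4 * Real.pi * a j * t)) ^ 2
      ≤ (J.card : ℝ) * M / 2 := by
  have h : ∀ t : ℝ, (∑ j ∈ J, Real.cos (4 * Real.pi * a j * t)) ^ 2
      = ∑ j ∈ J, ∑ l ∈ J, Real.cos (4 * Real.pi * a j * t) * Real.cos (4 * Real.pi * a l * t) := by
    intro t; rw [sq, Finset.sum_mul_sum]
  simp_rw [h]
  rw [intervalIntegral.integral_finsetSum
    (fun j _ => (by fun_prop : Continuous _).intervalIntegrable _ _)]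
  have h2 : ∀ j ∈ J, ∫ t in (0:ℝ)..1, ∑ l ∈ J,
      Real.cos (4 * Real.pi * a j * t) * Real.cos (4 * Real.pi * a l * t) ≤ (M:ℝ) / 2 := by
    intro j hj
    rw [intervalIntegral.integral_finsetSum
      (fun l _ => (by fun_prop : Continuous _).intervalIntegrable _ _)]
    have h3 : ∀ l ∈ J, ∫ t in (0:ℝ)..1,
        Real.cos (4 * Real.pi * a j * t) * Real.cos (4 * Real.pi * a l * t)
        = if a l = a j then (1/2:ℝ) else 0 := by
      intro l hl
      rw [int_cos_cos _ _ (ha j hj) (ha l hl)]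
      by_cases e : a j = a l
      · rw [if_pos e, if_pos e.symm]
      · rw [if_neg e, if_neg (fun e' => e e'.symm)]
    rw [Finset.sum_congr rfl h3, ← Finset.sum_filter, Finset.sum_const, nsmul_eq_mul]
    have h4 : (((J.filter (fun l => a l = a j)).card : ℕ) : ℝ) ≤ M := by exact_mod_cast hM (a j)
    linarith
  calc _ ≤ ∑ j ∈ J, (M:ℝ) / 2 := Finset.sum_le_sum h2
    _ = _ := by rw [Finset.sum_const, nsmul_eq_mul]; ring

lemma point {κ : Type} [DecidableEq κ] (J : Finset κ) (a : κ → ℕ) (M : ℕ) (x y : ℤ) (hM1 : 1 ≤ M)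
    (ha : ∀ j ∈ J, 1 ≤ a j) (hM : ∀ v : ℕ, (J.filter (fun j => a j = v)).card ≤ M) :
    (((J.powerset.filter (fun T => x + sg a J T = y)).card : ℕ) : ℝ)
      ≤ 2 ^ J.card * (12 * (M : ℝ) / ((J.card : ℝ) + 1)) := by
  have hM1' : (1:ℝ) ≤ M := by exact_mod_cast hM1
  rcases Nat.eq_zero_or_pos J.card with h0 | hn
  · have h1 : (((J.powerset.filter (fun T => x + sg a J T = y)).card : ℕ) : ℝ) ≤ 1 := by
      have := Finset.card_filter_le J.powerset (fun T => x + sg a J T = y)
      rw [Finset.card_powerset, h0, pow_zero] at this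
      exact_mod_cast this
    rw [h0]
    push_cast
    rw [pow_zero, one_mul, zero_add, div_one]
    linarith
  · set n : ℝ := (J.card : ℝ) with hnn
    have hn0 : (1:ℝ) ≤ n := by rw [hnn]; exact_mod_cast hn
    have hcount : (((J.powerset.filter (fun T => x + sg a J T = y)).card : ℕ) : ℝ)
        = ∫ t in (0:ℝ)..1, ∑ T ∈ J.powerset,
            Real.cos (2 * Real.pi * ((x + sg a J T - y : ℤ) : ℝ) * t) := by
      rw [intervalIntegral.integral_finsetSum
        (fun l _ => (by fun_prop : Continuous _).intervalIntegrable _ _)]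
      simp_rw [int_cos]
      rw [← Finset.sum_filter, Finset.sum_const, nsmul_eq_mul, mul_one]
      congr 2
      ext T
      simp only [Finset.mem_filter]
      constructor
      · rintro ⟨h1, h2⟩; exact ⟨h1, by omega⟩
      · rintro ⟨h1, h2⟩; exact ⟨h1, by omega⟩
    have hF : ∀ t : ℝ, ∑ T ∈ J.powerset,
        Real.cos (2 * Real.pi * ((x + sg a J T - y : ℤ) : ℝ) * t)
        = 2 ^ J.card * (Real.cos (2 * Real.pi * ((x - y : ℤ) : ℝ) * t)
          * ∏ j ∈ J, Real.cos (2 * Real.pi * a j * t)) := by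
      intro t
      rw [← sum_cos J (fun j => 2 * Real.pi * a j * t)]
      refine Finset.sum_congr rfl fun T _ => ?_
      congr 1
      have : ∑ j ∈ J, (if j ∈ T then 2 * Real.pi * a j * t else -(2 * Real.pi * a j * t))
          = 2 * Real.pi * ((sg a J T : ℤ) : ℝ) * t := by
        rw [sg]
        push_cast
        rw [Finset.mul_sum, Finset.sum_mul]
        refine Finset.sum_congr rfl fun j _ => ?_
        split_ifs <;> ring
      rw [this]
      push_cast; ring
    rw [hcount]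
    simp_rw [hF]
    rw [intervalIntegral.integral_const_mul]
    refine mul_le_mul_of_nonneg_left ?_ (by positivity)
    have hbound : ∀ t : ℝ, Real.cos (2 * Real.pi * ((x - y : ℤ) : ℝ) * t)
          * ∏ j ∈ J, Real.cos (2 * Real.pi * a j * t)
        ≤ Real.exp (-n / 8)
          + 4 / n ^ 2 * (∑ j ∈ J, Real.cos (4 * Real.pi * a j * t)) ^ 2 := by
      intro t
      refine le_trans ?_ (prod_le J a hn t)
      rw [← Finset.abs_prod]
      refine (le_abs_self _).trans ?_
      rw [abs_mul]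
      exact mul_le_of_le_one_left (abs_nonneg _) (Real.abs_cos_le_one _)
    have hint : ∫ t in (0:ℝ)..1, Real.cos (2 * Real.pi * ((x - y : ℤ) : ℝ) * t)
          * ∏ j ∈ J, Real.cos (2 * Real.pi * a j * t)
        ≤ ∫ t in (0:ℝ)..1, (Real.exp (-n / 8)
          + 4 / n ^ 2 * (∑ j ∈ J, Real.cos (4 * Real.pi * a j * t)) ^ 2) := by
      refine intervalIntegral.integral_mono_on (by norm_num) ?_ ?_ (fun t _ => hbound t)
      · exact (by fun_prop : Continuous _).intervalIntegrable _ _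
      · exact (by fun_prop : Continuous _).intervalIntegrable _ _
    refine hint.trans ?_
    rw [intervalIntegral.integral_add, intervalIntegral.integral_const_mul]
    · have h5 := int_sq J a M ha hM
      rw [← hnn] at h5
      have h6 : ∫ t in (0:ℝ)..1, Real.exp (-n / 8) = Real.exp (-n / 8) := by simp
      rw [h6]
      have h7 : 4 / n ^ 2 * ∫ t in (0:ℝ)..1, (∑ j ∈ J, Real.cos (4 * Real.pi * a j * t)) ^ 2
          ≤ 4 / n ^ 2 * (n * M / 2) := mul_le_mul_of_nonneg_left h5 (by positivity)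
      have h8 : 4 / n ^ 2 * (n * M / 2) = 2 * M / n := by field_simp; ring
      have h9 : Real.exp (-n / 8) ≤ 8 / (n + 1) := by
        have h10 := Real.add_one_le_exp (n / 8)
        have h11 : Real.exp (-n / 8) * Real.exp (n / 8) = 1 := by
          rw [← Real.exp_add]; simp [neg_div]
        rw [le_div_iff₀ (by positivity)]
        have h12 := (Real.exp_pos (-n / 8)).le
        nlinarith
      have h13 : 2 * M / n ≤ 4 * M / (n + 1) := by
        rw [div_le_div_iff₀ (by positivity) (by positivity)]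
        nlinarith
      have h14 : 8 / (n + 1) + 4 * M / (n + 1) ≤ 12 * M / (n + 1) := by
        rw [← add_div]
        exact div_le_div_of_nonneg_right (by linarith) (by positivity)
      rw [h8] at h7
      linarith
    · exact (by fun_prop : Continuous _).intervalIntegrable _ _
    · exact (by fun_prop : Continuous _).intervalIntegrable _ _

end Pool.Agent.Q293.CR.HAp

namespace Pool.Agent.Q293.CR

open HAp

theorem ha : S_HA := by
  intro κ _ J a L M x hM1 ha hM
  have hsub : J.powerset.filter (fun T => |x + sg a J T| ≤ (L : ℤ))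
      ⊆ (Finset.Icc (-(L:ℤ)) L).biUnion
        (fun y => J.powerset.filter (fun T => x + sg a J T = y)) := by
    intro T hT
    rw [Finset.mem_filter] at hT
    rw [Finset.mem_biUnion]
    exact ⟨x + sg a J T, Finset.mem_Icc.2 (abs_le.1 hT.2), Finset.mem_filter.2 ⟨hT.1, rfl⟩⟩
  have h1 : (((J.powerset.filter (fun T => |x + sg a J T| ≤ (L : ℤ))).card : ℕ) : ℝ)
      ≤ ∑ y ∈ Finset.Icc (-(L:ℤ)) L,
        (((J.powerset.filter (fun T => x + sg a J T = y)).card : ℕ) : ℝ) := by
    have := (Finset.card_le_card hsub).trans Finset.card_biUnion_le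
    exact_mod_cast this
  refine h1.trans ?_
  have h2 : ∑ y ∈ Finset.Icc (-(L:ℤ)) L,
        (((J.powerset.filter (fun T => x + sg a J T = y)).card : ℕ) : ℝ)
      ≤ ∑ _y ∈ Finset.Icc (-(L:ℤ)) L, 2 ^ J.card * (12 * (M : ℝ) / ((J.card : ℝ) + 1)) :=
    Finset.sum_le_sum fun y _ => point J a M x y hM1 ha hM
  refine h2.trans (le_of_eq ?_)
  rw [Finset.sum_const, nsmul_eq_mul, Int.card_Icc]
  have h3 : (((L:ℤ) + 1 - -(L:ℤ)).toNat : ℝ) = 2 * (L:ℝ) + 1 := by
    have : ((L:ℤ) + 1 - -(L:ℤ)).toNat = 2 * L + 1 := by omega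
    rw [this]; push_cast; ring
  rw [h3]; ring

end Pool.Agent.Q293.CR
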