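import Mathlib
import Pool.Agent.Q293.CR.Stm

set_option autoImplicit false
set_option linter.unusedSectionVars false

open Finset

namespace Pool.Agent.Q293.CR

theorem cb_sq (m : ℕ) : (Nat.centralBinom m) ^ 2 * (2 * m + 1) ≤ 16 ^ m := by
  induction m with
  | zero => simp
  | succ m ih =>
    have h1 := Nat.succ_mul_centralBinom_succ m
    have h2 : (m + 1) ^ 2 * (Nat.centralBinom (m + 1) ^ 2 * (2 * (m + 1) + 1))
        ≤ (m + 1) ^ 2 * 16 ^ (m + 1) := by
      have h3 : (m + 1) ^ 2 * (Nat.centralBinom (m + 1) ^ 2 * (2 * (m + 1) + 1))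
          = ((m + 1) * Nat.centralBinom (m + 1)) ^ 2 * (2 * m + 3) := by ring
      rw [h3, h1]
      have h4 : (2 * (2 * m + 1) * Nat.centralBinom m) ^ 2 * (2 * m + 3)
          = 4 * (2 * m + 1) * (2 * m + 3) * (Nat.centralBinom m ^ 2 * (2 * m + 1)) := by ring
      rw [h4]
      refine (Nat.mul_le_mul_left _ ih).trans ?_
      have h5 : 4 * (2 * m + 1) * (2 * m + 3) ≤ 16 * (m + 1) ^ 2 := by nlinarith
      refine (Nat.mul_le_mul_right _ h5).trans (le_of_eq ?_)
      ring
    exact Nat.le_of_mul_le_mul_left h2 (by positivity)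

theorem choose_half_sq (n : ℕ) : (n.choose (n / 2)) ^ 2 * (n + 1) ≤ 4 ^ n := by
  rcases Nat.even_or_odd' n with ⟨m, rfl | rfl⟩
  · have h := cb_sq m
    rw [Nat.centralBinom] at h
    rw [Nat.mul_div_cancel_left m (by norm_num : 0 < 2), pow_mul]
    norm_num
    exact h
  · have h := cb_sq (m + 1)
    have h1 : (2 * m + 1) / 2 = m := by omega
    have h2 : Nat.centralBinom (m + 1) = 2 * (2 * m + 1).choose m := by
      rw [Nat.centralBinom, show 2 * (m + 1) = (2 * m + 1) + 1 by ring, Nat.choose_succ_succ,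
        Nat.choose_symm_half]
      ring
    rw [h1]
    rw [h2] at h
    have h3 : (2 * (2 * m + 1).choose m) ^ 2 * (2 * (m + 1) + 1)
        = 4 * ((2 * m + 1).choose m ^ 2 * (2 * m + 3)) := by ring
    have h4 : (16 : ℕ) ^ (m + 1) = 4 * 4 ^ (2 * m + 1) := by
      rw [pow_succ, pow_succ 4 (2 * m), pow_mul]
      norm_num
      ring
    rw [h3, h4] at h
    have h5 := Nat.le_of_mul_le_mul_left h (by norm_num : 0 < 4)
    refine le_trans ?_ h5
    exact Nat.mul_le_mul_left _ (by omega)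

theorem choose_half_le (n : ℕ) :
    ((n.choose (n / 2) : ℕ) : ℝ) ≤ 2 ^ n * (1 / Real.sqrt ((n : ℝ) + 1)) := by
  have h := choose_half_sq n
  have h1 : (((n.choose (n / 2) : ℕ) : ℝ)) ^ 2 * ((n : ℝ) + 1) ≤ 4 ^ n := by exact_mod_cast h
  have hs : 0 < Real.sqrt ((n : ℝ) + 1) := Real.sqrt_pos.2 (by positivity)
  rw [mul_one_div, le_div_iff₀ hs]
  refine le_of_sq_le_sq ?_ (by positivity)
  rw [mul_pow, Real.sq_sqrt (by positivity), ← pow_mul, mul_comm n 2, pow_mul]
  norm_num
  exact h1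

variable {κ : Type} [DecidableEq κ]

theorem sperner_sub (J : Finset κ) (A : Finset (Finset κ)) (h : A ⊆ J.powerset)
    (hA : IsAntichain (· ⊆ ·) (A : Set (Finset κ))) : A.card ≤ (J.card).choose (J.card / 2) := by
  set f : Finset κ → Finset {j // j ∈ J} := fun T => T.subtype (· ∈ J) with hf
  have hsub : ∀ T ∈ A, ∀ T' ∈ A, f T ⊆ f T' → T ⊆ T' := by
    intro T hT T' _ hTT j hj
    have hjJ : j ∈ J := (mem_powerset.1 (h hT)) hj
    have h1 : (⟨j, hjJ⟩ : {j // j ∈ J}) ∈ f T := by simp [hf, hj]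
    have h2 := hTT h1
    simpa [hf] using h2
  have hinj : Set.InjOn f (A : Set (Finset κ)) := by
    intro T hT T' hT' he
    exact Subset.antisymm (hsub T hT T' hT' he.subset) (hsub T' hT' T hT he.symm.subset)
  have hanti : IsAntichain (· ⊆ ·) ((A.image f : Finset (Finset {j // j ∈ J})) :
      Set (Finset {j // j ∈ J})) := by
    intro U hU U' hU' hne hUU
    rw [mem_coe, mem_image] at hU hU'
    obtain ⟨T, hT, rfl⟩ := hU
    obtain ⟨T', hT', rfl⟩ := hU'
    refine hA hT hT' (fun he => hne (by rw [he])) (hsub T hT T' hT' hUU)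
  have h1 := hanti.sperner
  rw [card_image_of_injOn hinj, Fintype.card_coe] at h1
  exact h1

theorem sg_diff (a : κ → ℕ) (J T T' : Finset κ) (h : T ⊆ T') (h' : T' ⊆ J) :
    sg a J T' - sg a J T = 2 * ∑ j ∈ T' \ T, (a j : ℤ) := by
  unfold sg
  rw [← sum_sub_distrib, mul_sum, ← sum_subset (s₁ := T' \ T) (s₂ := J)]
  · refine sum_congr rfl fun j hj => ?_
    rw [Finset.mem_sdiff] at hj
    rw [if_pos hj.1, if_neg hj.2]
    ring
  · exact sdiff_subset.trans h'
  · intro j _ hj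
    rw [Finset.mem_sdiff, not_and, not_not] at hj
    by_cases h1 : j ∈ T'
    · rw [if_pos h1, if_pos (hj h1), sub_self]
    · rw [if_neg h1, if_neg (fun h2 => h1 (h h2)), sub_self]

theorem window (J : Finset κ) (a : κ → ℕ) (c : ℕ) (x y : ℤ) (_hc : 1 ≤ c)
    (ha : ∀ j ∈ J, c ≤ a j) :
    (J.powerset.filter (fun T => y ≤ x + sg a J T ∧ x + sg a J T < y + 2 * c)).card
      ≤ (J.card).choose (J.card / 2) := by
  refine sperner_sub J _ (filter_subset _ _) ?_
  intro T hT T' hT' hne hTT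
  simp only [coe_filter, Set.mem_ofPred_eq, mem_powerset] at hT hT'
  have h1 := sg_diff a J T T' hTT hT'.1
  obtain ⟨j, hj⟩ : (T' \ T).Nonempty := by
    rw [sdiff_nonempty]
    intro h2
    exact hne (Subset.antisymm hTT h2)
  have h2 : (c : ℤ) ≤ ∑ j ∈ T' \ T, (a j : ℤ) := by
    have h3 : (a j : ℤ) ≤ ∑ j ∈ T' \ T, (a j : ℤ) :=
      single_le_sum (f := fun j => (a j : ℤ)) (fun _ _ => by positivity) hj
    have h4 : (c : ℤ) ≤ (a j : ℤ) := by
      exact_mod_cast ha j (hT'.1 (Finset.mem_sdiff.1 hj).1)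
    linarith
  obtain ⟨_, h5, _⟩ := hT
  obtain ⟨_, _, h6⟩ := hT'
  linarith

theorem lo : S_LO := by
  intro κ _ J a c L x hc ha
  have hcov : (J.powerset.filter (fun T => |x + sg a J T| ≤ (L : ℤ)))
      ⊆ (range (L / c + 1)).biUnion (fun r => J.powerset.filter (fun T =>
        (-(L : ℤ) + 2 * c * r) ≤ x + sg a J T ∧
          x + sg a J T < (-(L : ℤ) + 2 * c * r) + 2 * c)) := by
    intro T hT
    rw [mem_filter] at hT
    have h1 := abs_le.1 hT.2
    set z := x + sg a J T with hz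
    obtain ⟨w, hw⟩ := Int.eq_ofNat_of_zero_le (show 0 ≤ z + L by linarith)
    have hw2 : w ≤ 2 * L := by
      have : (w : ℤ) ≤ 2 * L := by linarith
      exact_mod_cast this
    rw [mem_biUnion]
    refine ⟨w / (2 * c), ?_, ?_⟩
    · rw [mem_range]
      have h2 : w / (2 * c) ≤ 2 * L / (2 * c) := Nat.div_le_div_right hw2
      rw [Nat.mul_div_mul_left _ _ (by norm_num : 0 < 2)] at h2
      omega
    · rw [mem_filter]
      refine ⟨hT.1, ?_⟩
      have h3 := Nat.div_add_mod w (2 * c)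
      have h4 := Nat.mod_lt w (show 0 < 2 * c by omega)
      have h5 : (2 * (c : ℤ)) * ((w / (2 * c) : ℕ) : ℤ) + ((w % (2 * c) : ℕ) : ℤ) = (w : ℤ) := by
        exact_mod_cast h3
      have h6 : ((w % (2 * c) : ℕ) : ℤ) < 2 * (c : ℤ) := by exact_mod_cast h4
      have h7 : (0 : ℤ) ≤ ((w % (2 * c) : ℕ) : ℤ) := by positivity
      constructor
      · linarith
      · linarith
  have h1 : (J.powerset.filter (fun T => |x + sg a J T| ≤ (L : ℤ))).card
      ≤ (L / c + 1) * (J.card).choose (J.card / 2) := by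
    refine (card_le_card hcov).trans (card_biUnion_le.trans ?_)
    refine (sum_le_sum fun r _ => window J a c x _ hc ha).trans (le_of_eq ?_)
    rw [sum_const, card_range, smul_eq_mul]
  have h2 : (((J.powerset.filter (fun T => |x + sg a J T| ≤ (L : ℤ))).card : ℕ) : ℝ)
      ≤ ((L / c + 1 : ℕ) : ℝ) * (((J.card).choose (J.card / 2) : ℕ) : ℝ) := by
    exact_mod_cast h1
  refine h2.trans ?_
  refine (mul_le_mul_of_nonneg_left (choose_half_le J.card) (by positivity)).trans (le_of_eq ?_)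
  ring

end Pool.Agent.Q293.CR
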