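import Pool.Agent.Q293.CR.Stm

/-!
# ONE: in dimension one a sum of independent symmetric terms does not tend to infinity
-/

set_option autoImplicit false

open MeasureTheory ProbabilityTheory Filter Finset

namespace Pool.Agent.Q293.CR.One

open Pool.Agent.Q293.CR

instance (d : ℕ) [NeZero d] : IsProbabilityMeasure (unif d) := by
  unfold unif; infer_instance

instance (d : ℕ) [NeZero d] : IsProbabilityMeasure (iid d) := by
  unfold iid; infer_instance

/-- The sums from `n` on. -/
def G (a : ℕ → ℕ) (n k : ℕ) (V : ℕ → Dir 1) : ℤ := ∑ j ∈ Finset.Ico n k, (a j : ℤ) * vec (V j) 0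

theorem W_eq (a : ℕ → ℕ) (n k : ℕ) (hk : n ≤ k) (V : ℕ → Dir 1) :
    W a V k 0 = W a V n 0 + G a n k V := by
  simp only [W, G]
  rw [Finset.sum_range_add_sum_Ico _ hk]

/-- The event that the sum tends to infinity. -/
def Ap (a : ℕ → ℕ) : Set (ℕ → Dir 1) := {V | Tendsto (fun k => W a V k 0) atTop atTop}

/-- The event that the sum tends to minus infinity. -/
def Am (a : ℕ → ℕ) : Set (ℕ → Dir 1) := {V | Tendsto (fun k => W a V k 0) atTop atBot}

theorem Ap_eq (a : ℕ → ℕ) (n : ℕ) :
    Ap a = ⋂ M : ℤ, ⋃ K : ℕ, ⋂ k : ℕ, ⋂ (_ : K ≤ k), {V | M ≤ G a n k V} := by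
  ext V
  simp only [Ap, Set.mem_setOf_eq, Set.mem_iInter, Set.mem_iUnion]
  rw [tendsto_atTop_atTop]
  constructor
  · intro h M
    obtain ⟨K, hK⟩ := h (M + W a V n 0)
    refine ⟨max K n, fun k hk => ?_⟩
    have h1 := hK k ((le_max_left _ _).trans hk)
    have h2 := W_eq a n k ((le_max_right _ _).trans hk) V
    omega
  · intro h M
    obtain ⟨K, hK⟩ := h (M - W a V n 0)
    refine ⟨max K n, fun k hk => ?_⟩
    have h1 := hK k ((le_max_left _ _).trans hk)
    have h2 := W_eq a n k ((le_max_right _ _).trans hk) V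
    omega

/-- The sigma-algebras of the coordinates. -/
def s (n : ℕ) : MeasurableSpace (ℕ → Dir 1) := MeasurableSpace.comap (fun V => V n) inferInstance

theorem meas_Ap (a : ℕ → ℕ) : MeasurableSet[limsup s atTop] (Ap a) := by
  rw [limsup_eq_iInf_iSup_of_nat, MeasurableSpace.measurableSet_iInf]
  intro n
  rw [Ap_eq a n]
  refine MeasurableSet.iInter fun M => MeasurableSet.iUnion fun K => MeasurableSet.iInter fun k =>
    MeasurableSet.iInter fun _ => ?_
  have hG : @Measurable _ _ (⨆ i ≥ n, s i) _ (fun V => G a n k V) := by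
    unfold G
    refine Finset.measurable_sum _ fun j hj => ?_
    have hj' : n ≤ j := (Finset.mem_Ico.1 hj).1
    have h1 : @Measurable _ _ (⨆ i ≥ n, s i) _ (fun V : ℕ → Dir 1 => V j) :=
      (comap_measurable (fun V : ℕ → Dir 1 => V j)).mono (le_iSup₂_of_le j hj' le_rfl) le_rfl
    have h2 : Measurable (fun u : Dir 1 => (a j : ℤ) * vec u 0) := measurable_of_countable _
    exact h2.comp h1
  exact hG (measurableSet_Ici (a := M))

/-- The exchange of the signs. -/
def flip (V : ℕ → Dir 1) : ℕ → Dir 1 := fun j => ((V j).1, !(V j).2)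

theorem vec_flip (u : Dir 1) : vec ((u.1, !u.2) : Dir 1) 0 = - vec u 0 := by
  obtain ⟨i, b⟩ := u
  have : (0 : Fin 1) = i := Subsingleton.elim _ _
  cases b <;> simp [vec, this]

theorem W_flip (a : ℕ → ℕ) (V : ℕ → Dir 1) (k : ℕ) : W a (flip V) k 0 = - W a V k 0 := by
  simp only [W, flip]
  rw [← Finset.sum_neg_distrib]
  refine Finset.sum_congr rfl fun j _ => ?_
  rw [vec_flip]; ring

theorem meas_flip : Measurable (fun u : Dir 1 => ((u.1, !u.2) : Dir 1)) :=
  measurable_of_countable _

theorem map_unif : (unif 1).map (fun u : Dir 1 => ((u.1, !u.2) : Dir 1)) = unif 1 := by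
  refine Measure.ext_of_singleton fun u => ?_
  rw [Measure.map_apply meas_flip (measurableSet_singleton u)]
  have : (fun u : Dir 1 => ((u.1, !u.2) : Dir 1)) ⁻¹' {u} = {((u.1, !u.2) : Dir 1)} := by
    ext v
    simp only [Set.mem_preimage, Set.mem_singleton_iff]
    constructor
    · intro h
      rw [← h]; simp
    · intro h
      rw [h]; simp
  rw [this, unif, PMF.toMeasure_apply_singleton _ _ (measurableSet_singleton _),
    PMF.toMeasure_apply_singleton _ _ (measurableSet_singleton _)]
  simp [PMF.uniformOfFintype_apply]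

theorem map_iid : (iid 1).map flip = iid 1 := by
  have h := Measure.infinitePi_map_pi (μ := fun _ : ℕ => unif 1)
    (f := fun _ (u : Dir 1) => ((u.1, !u.2) : Dir 1)) (fun _ => meas_flip)
  simp only [map_unif] at h
  exact h

theorem meas_flip' : Measurable flip := by
  refine measurable_pi_iff.2 fun j => ?_
  exact meas_flip.comp (measurable_pi_apply j)

theorem flip_pre (a : ℕ → ℕ) : flip ⁻¹' (Ap a) = Am a := by
  ext V
  simp only [Set.mem_preimage, Ap, Am, Set.mem_setOf_eq]
  have : (fun k => W a (flip V) k 0) = fun k => - W a V k 0 := by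
    ext k; exact W_flip a V k
  rw [this, tendsto_neg_atTop_iff]

theorem s_le (n : ℕ) : s n ≤ (inferInstance : MeasurableSpace (ℕ → Dir 1)) :=
  (measurable_pi_apply n).comap_le

theorem one : S_One := by
  intro a _
  have hind : iIndep s (iid 1) := by
    have h : iIndepFun (fun (i : ℕ) (V : ℕ → Dir 1) => V i) (iid 1) :=
      iIndepFun_infinitePi (P := fun _ : ℕ => unif 1) (X := fun (_ : ℕ) (u : Dir 1) => u)
        (fun _ => measurable_id)
    exact h.iIndep
  have hm : MeasurableSet (Ap a) := by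
    have h1 : limsup s atTop ≤ (inferInstance : MeasurableSpace (ℕ → Dir 1)) :=
      limsup_le_iSup.trans (iSup_le s_le)
    exact h1 _ (meas_Ap a)
  have h01 := measure_zero_or_one_of_measurableSet_limsup_atTop s_le hind (meas_Ap a)
  have hflip : (iid 1) (Am a) = (iid 1) (Ap a) := by
    rw [← flip_pre, ← Measure.map_apply meas_flip' hm, map_iid]
  have hdisj : Disjoint (Ap a) (Am a) := by
    rw [Set.disjoint_left]
    intro V h1 h2
    exact (h1.not_tendsto disjoint_atTop_atBot) h2
  have hzero : (iid 1) (Ap a) = 0 := by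
    rcases h01 with h | h
    · exact h
    · exfalso
      have hmm : MeasurableSet (Am a) := by
        rw [← flip_pre]; exact meas_flip' hm
      have h2 : (iid 1) (Ap a ∪ Am a) = 2 := by
        rw [measure_union hdisj hmm, hflip, h]; norm_num
      have h3 : (iid 1) (Ap a ∪ Am a) ≤ 1 := prob_le_one
      rw [h2] at h3
      norm_num at h3
  have hzero' : (iid 1) (Am a) = 0 := by rw [hflip, hzero]
  have e1 : ∀ᵐ V ∂(iid 1), V ∉ Ap a := measure_eq_zero_iff_ae_notMem.1 hzero
  have e2 : ∀ᵐ V ∂(iid 1), V ∉ Am a := measure_eq_zero_iff_ae_notMem.1 hzero'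
  filter_upwards [e1, e2] with V h1 h2
  exact ⟨h1, h2⟩

end Pool.Agent.Q293.CR.One

namespace Pool.Agent.Q293.CR

/-- ONE. -/
theorem one : S_One := One.one

end Pool.Agent.Q293.CR
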