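import Mathlib
import Pool.Agent.Q293.CR.Core3

set_option autoImplicit false
set_option linter.unusedSectionVars false

open MeasureTheory ProbabilityTheory Finset Asymptotics

namespace Pool.Agent.Q293.CR

/-! ### counting -/

/-- sign of a boolean -/
def sn (u : Bool) : ℤ := if u then 1 else -1

/-- number of sign vectors with a given sum -/
def cB (n : ℕ) (m : ℤ) : ℕ :=
  ((univ : Finset (Fin n → Bool)).filter (fun u => ∑ j, sn (u j) = m)).card

theorem cB_choose (n k : ℕ) : cB n (2 * (k : ℤ) - n) = n.choose k := by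
  classical
  have h1 : n.choose k = (powersetCard k (univ : Finset (Fin n))).card := by
    rw [card_powersetCard, card_univ, Fintype.card_fin]
  rw [h1]
  unfold cB
  refine card_bij' (fun u _ => univ.filter (fun j => u j = true))
    (fun T _ => fun j => decide (j ∈ T)) ?_ ?_ ?_ ?_
  · intro u hu
    rw [mem_filter] at hu
    rw [mem_powersetCard]
    refine ⟨subset_univ _, ?_⟩
    have h2 : ∑ j, sn (u j) = 2 * ((univ.filter (fun j => u j = true)).card : ℤ) - n := by
      have h3 : ∀ j, sn (u j) = 2 * (if u j = true then 1 else 0) - 1 := by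
        intro j
        unfold sn
        split_ifs <;> rfl
      simp only [h3]
      rw [sum_sub_distrib, ← mul_sum, sum_boole]
      simp
    have h4 := hu.2
    rw [h2] at h4
    have : ((univ.filter (fun j => u j = true)).card : ℤ) = k := by linarith
    exact_mod_cast this
  · intro T hT
    rw [mem_powersetCard] at hT
    rw [mem_filter]
    refine ⟨mem_univ _, ?_⟩
    have h3 : ∀ j, sn (decide (j ∈ T)) = 2 * (if j ∈ T then 1 else 0) - 1 := by
      intro j
      unfold sn
      by_cases h : j ∈ T <;> simp [h]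
    simp only [h3]
    rw [sum_sub_distrib, ← mul_sum, sum_boole]
    simp [hT.2]
  · intro u _
    funext j
    simp
  · intro T _
    ext j
    simp

/-- rotated coordinates -/
def rot : Dir 2 ≃ Bool × Bool where
  toFun u := (u.2, if u.1 = 0 then u.2 else !u.2)
  invFun w := (if w.1 = w.2 then 0 else 1, w.1)
  left_inv := by decide
  right_inv := by decide

theorem rot_plus (u : Dir 2) : vec u 0 + vec u 1 = sn (rot u).1 := by
  revert u; decide

theorem rot_minus (u : Dir 2) : vec u 0 - vec u 1 = sn (rot u).2 := by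
  revert u; decide

theorem count_pos (n : ℕ) (z : Fin 2 → ℤ) :
    ((univ : Finset (Fin n → Dir 2)).filter (fun v => ∀ i, ∑ j, vec (v j) i = z i)).card
      = cB n (z 0 + z 1) * cB n (z 0 - z 1) := by
  classical
  unfold cB
  rw [← card_product]
  set e : (Fin n → Dir 2) ≃ (Fin n → Bool) × (Fin n → Bool) :=
    (Equiv.arrowCongr (Equiv.refl (Fin n)) rot).trans
      (Equiv.arrowProdEquivProdArrow (Fin n) (fun _ => Bool) (fun _ => Bool)) with he
  have h1 : ∀ v j, (e v).1 j = (rot (v j)).1 := fun v j => rfl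
  have h2 : ∀ v j, (e v).2 j = (rot (v j)).2 := fun v j => rfl
  refine card_bij (fun v _ => e v) ?_ (fun a _ b _ h => e.injective h) ?_
  · intro v hv
    rw [mem_filter] at hv
    have h0 := hv.2 0
    have h3 := hv.2 1
    rw [mem_product, mem_filter, mem_filter]
    refine ⟨⟨mem_univ _, ?_⟩, ⟨mem_univ _, ?_⟩⟩
    · simp only [h1, ← rot_plus]
      rw [sum_add_distrib, h0, h3]
    · simp only [h2, ← rot_minus]
      rw [sum_sub_distrib, h0, h3]
  · intro w hw
    rw [mem_product, mem_filter, mem_filter] at hw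
    refine ⟨e.symm w, ?_, e.apply_symm_apply w⟩
    rw [mem_filter]
    refine ⟨mem_univ _, ?_⟩
    have h3 := hw.1.2
    have h4 := hw.2.2
    set v := e.symm w with hv
    have h5 : e v = w := e.apply_symm_apply w
    rw [← h5] at h3 h4
    simp only [h1, ← rot_plus] at h3
    simp only [h2, ← rot_minus] at h4
    rw [sum_add_distrib] at h3
    rw [sum_sub_distrib] at h4
    intro i
    fin_cases i
    · show ∑ j, vec (v j) 0 = z 0
      linarith
    · show ∑ j, vec (v j) 1 = z 1
      linarith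

/-! ### probabilities -/

/-- `P(S_{2t} = z)` -/
noncomputable def pr (t : ℕ) (z : Fin 2 → ℤ) : ℝ :=
  (iid 2).real {V | W (fun _ => 1) V (2 * t) = z}

theorem pr_eq (t : ℕ) (z : Fin 2 → ℤ) :
    pr t z = ((cB (2 * t) (z 0 + z 1) : ℕ) : ℝ) * ((cB (2 * t) (z 0 - z 1) : ℕ) : ℝ)
      / 16 ^ t := by
  classical
  unfold pr
  have h1 : {V : ℕ → Dir 2 | W (fun _ => 1) V (2 * t) = z}
      = {V : ℕ → Dir 2 | (fun v : Fin (2 * t) → Dir 2 => ∀ i, ∑ j, vec (v j) i = z i)
        (fun j : Fin (2 * t) => V j)} := by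
    ext V
    simp only [Set.mem_ofPred_eq]
    rw [funext_iff]
    refine forall_congr' fun i => ?_
    rw [W_fin]
    simp only [Nat.cast_one, one_mul]
  rw [h1]
  refine (iid_count (d := 2) (2 * t) (fun v : Fin (2 * t) → Dir 2 =>
    ∀ i, ∑ j, vec (v j) i = z i)).trans ?_
  rw [count_pos]
  push_cast
  congr 1
  rw [pow_mul]
  norm_num

theorem pr_nonneg (t : ℕ) (z : Fin 2 → ℤ) : 0 ≤ pr t z := measureReal_nonneg

theorem choose_ratio (a : ℕ) :
    Filter.Tendsto (fun t : ℕ => (((2 * t).choose (t + a) : ℕ) : ℝ) / (((2 * t).choose t : ℕ) : ℝ))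
      Filter.atTop (nhds 1) := by
  induction a with
  | zero =>
    refine tendsto_const_nhds.congr fun t => ?_
    rw [Nat.add_zero, div_self]
    have : 0 < (2 * t).choose t := Nat.choose_pos (by omega)
    positivity
  | succ a ih =>
    have h1 : Filter.Tendsto (fun t : ℕ => ((t : ℝ) - a) / ((t : ℝ) + a + 1)) Filter.atTop
        (nhds 1) := by
      have h2 : Filter.Tendsto (fun t : ℕ => 1 - (2 * (a : ℝ) + 1) / ((t : ℝ) + ((a : ℝ) + 1)))
          Filter.atTop (nhds (1 - 0)) := by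
        refine tendsto_const_nhds.sub ?_
        refine tendsto_const_nhds.div_atTop ?_
        exact Filter.tendsto_atTop_add_const_right _ _ tendsto_natCast_atTop_atTop
      rw [sub_zero] at h2
      refine h2.congr fun t => ?_
      have h3 : (0 : ℝ) < (t : ℝ) + a + 1 := by positivity
      have h4 : (t : ℝ) + ((a : ℝ) + 1) ≠ 0 := by positivity
      field_simp
      ring
    have h2 := ih.mul h1
    rw [one_mul] at h2
    refine h2.congr' ?_
    filter_upwards [Filter.eventually_ge_atTop a] with t ht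
    have h3 := Nat.choose_succ_right_eq (2 * t) (t + a)
    have h4 : 2 * t - (t + a) = t - a := by omega
    rw [h4] at h3
    have h5 : (((2 * t).choose (t + a + 1) : ℕ) : ℝ) * ((t : ℝ) + a + 1)
        = (((2 * t).choose (t + a) : ℕ) : ℝ) * ((t : ℝ) - a) := by
      have h6 : (((2 * t).choose (t + a + 1) * (t + a + 1) : ℕ) : ℝ)
          = (((2 * t).choose (t + a) * (t - a) : ℕ) : ℝ) := by rw [h3]
      push_cast [Nat.cast_sub ht] at h6
      exact h6
    have h7 : (0 : ℝ) < (t : ℝ) + a + 1 := by positivity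
    rw [div_mul_div_comm, ← h5, ← Nat.add_assoc]
    rw [mul_div_mul_right _ _ h7.ne']

theorem cB_ratio (i : ℤ) :
    Filter.Tendsto (fun t : ℕ => ((cB (2 * t) (2 * i) : ℕ) : ℝ) / (((2 * t).choose t : ℕ) : ℝ))
      Filter.atTop (nhds 1) := by
  refine (choose_ratio i.natAbs).congr' ?_
  filter_upwards [Filter.eventually_ge_atTop i.natAbs] with t ht
  congr 2
  rcases Int.natAbs_eq i with h | h
  · have h1 : 2 * i = 2 * ((t + i.natAbs : ℕ) : ℤ) - ((2 * t : ℕ) : ℤ) := by
      omega
    rw [h1, cB_choose]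
  · have h1 : 2 * i = 2 * ((t - i.natAbs : ℕ) : ℤ) - ((2 * t : ℕ) : ℤ) := by
      omega
    rw [h1, cB_choose]
    exact Nat.choose_symm_of_eq_add (by omega)

theorem pr_zero (t : ℕ) : pr t 0 = ((((2 * t).choose t : ℕ) : ℝ) / 4 ^ t) ^ 2 := by
  rw [pr_eq]
  have h1 : cB (2 * t) ((0 : Fin 2 → ℤ) 0 + (0 : Fin 2 → ℤ) 1) = (2 * t).choose t := by
    rw [← cB_choose (2 * t) t]
    congr 1
    push_cast
    simp
  have h2 : cB (2 * t) ((0 : Fin 2 → ℤ) 0 - (0 : Fin 2 → ℤ) 1) = (2 * t).choose t := by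
    rw [← cB_choose (2 * t) t]
    congr 1
    push_cast
    simp
  rw [h1, h2, div_pow, ← pow_mul, mul_comm t 2, pow_mul]
  norm_num
  ring

theorem pr_ratio (z : Fin 2 → ℤ) (i j : ℤ) (hi : z 0 + z 1 = 2 * i) (hj : z 0 - z 1 = 2 * j) :
    Filter.Tendsto (fun t : ℕ => pr t z / pr t 0) Filter.atTop (nhds 1) := by
  have h := (cB_ratio i).mul (cB_ratio j)
  rw [one_mul] at h
  refine h.congr fun t => ?_
  rw [pr_eq t z, hi, hj, pr_zero, div_pow, ← pow_mul, mul_comm t 2, pow_mul]
  norm_num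
  have h1 : (0 : ℝ) < (((2 * t).choose t : ℕ) : ℝ) := by
    exact_mod_cast Nat.choose_pos (by omega)
  field_simp

theorem cb_lower (t : ℕ) (ht : 1 ≤ t) : 16 ^ t ≤ 4 * t * (Nat.centralBinom t) ^ 2 := by
  induction t, ht using Nat.le_induction with
  | base => decide
  | succ t ht ih =>
    have h1 := Nat.succ_mul_centralBinom_succ t
    have h2 : (t + 1) * 16 ^ (t + 1) ≤ (t + 1) * (4 * (t + 1) * (Nat.centralBinom (t + 1)) ^ 2) := by
      have h3 : (t + 1) * (4 * (t + 1) * (Nat.centralBinom (t + 1)) ^ 2)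
          = 4 * ((t + 1) * Nat.centralBinom (t + 1)) ^ 2 := by ring
      rw [h3, h1]
      have h4 : 4 * (2 * (2 * t + 1) * Nat.centralBinom t) ^ 2
          = (16 * (2 * t + 1) ^ 2) * (Nat.centralBinom t) ^ 2 := by ring
      rw [h4]
      have h5 : (t + 1) * 16 ^ (t + 1) = 16 * (t + 1) * 16 ^ t := by ring
      rw [h5]
      refine (Nat.mul_le_mul_left _ ih).trans ?_
      have h6 : 16 * (t + 1) * (4 * t * (Nat.centralBinom t) ^ 2)
          = (64 * t * (t + 1)) * (Nat.centralBinom t) ^ 2 := by ring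
      rw [h6]
      refine Nat.mul_le_mul_right _ ?_
      nlinarith
    exact Nat.le_of_mul_le_mul_left h2 (by omega)

theorem pr_zero_ge (t : ℕ) (ht : 1 ≤ t) : (1 / 4) * (1 / (t : ℝ)) ≤ pr t 0 := by
  rw [pr_zero, div_pow, ← pow_mul, mul_comm t 2, pow_mul]
  norm_num
  have h := cb_lower t ht
  have h1 : (16 : ℝ) ^ t ≤ 4 * t * ((((2 * t).choose t : ℕ) : ℝ)) ^ 2 := by
    rw [Nat.centralBinom] at h
    exact_mod_cast h
  have ht0 : (0 : ℝ) < t := by exact_mod_cast ht
  rw [le_div_iff₀ (by positivity)]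
  have h2 : (16 : ℝ) ^ t / t ≤ 4 * ((((2 * t).choose t : ℕ) : ℝ)) ^ 2 := by
    rw [div_le_iff₀ ht0]
    linarith
  have h3 : (16 : ℝ) ^ t / t = (t : ℝ)⁻¹ * 16 ^ t := by rw [div_eq_inv_mul]
  rw [h3] at h2
  linarith

/-- Green function -/
noncomputable def Gr (n : ℕ) (z : Fin 2 → ℤ) : ℝ := ∑ t ∈ range n, pr t z

theorem Gr_tendsto : Filter.Tendsto (fun n => Gr n 0) Filter.atTop Filter.atTop := by
  unfold Gr
  rw [← not_summable_iff_tendsto_nat_atTop_of_nonneg (fun t => pr_nonneg t 0)]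
  intro h
  have h1 : Summable (fun t : ℕ => (1 / 4) * (1 / (t : ℝ))) := by
    refine Summable.of_nonneg_of_le (fun t => by positivity) (fun t => ?_) h
    rcases Nat.eq_zero_or_pos t with h0 | h0
    · subst h0
      simp only [Nat.cast_zero, div_zero, mul_zero]
      exact pr_nonneg 0 0
    · exact pr_zero_ge t h0
  have h2 : Summable (fun t : ℕ => 1 / (t : ℝ)) := by
    have := h1.mul_left 4
    refine this.congr fun t => ?_
    ring
  exact Real.not_summable_one_div_natCast h2

theorem Gr_ratio (z : Fin 2 → ℤ) (i j : ℤ) (hi : z 0 + z 1 = 2 * i) (hj : z 0 - z 1 = 2 * j) :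
    ∀ᶠ n in Filter.atTop, (1 / 2) * Gr n 0 ≤ Gr n z := by
  have h0 : ∀ t, 0 < pr t 0 := by
    intro t
    rw [pr_zero]
    have h1 : (0 : ℝ) < (((2 * t).choose t : ℕ) : ℝ) := by
      exact_mod_cast Nat.choose_pos (by omega)
    positivity
  have h1 := pr_ratio z i j hi hj
  have h2 : (fun t => pr t z - pr t 0) =o[Filter.atTop] (fun t => pr t 0) := by
    refine (isLittleO_iff_tendsto' (Filter.Eventually.of_forall fun t ht => ?_)).2 ?_
    · exact absurd ht (h0 t).ne'
    · have h3 := h1.sub_const 1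
      rw [sub_self] at h3
      refine h3.congr fun t => ?_
      rw [sub_div, div_self (h0 t).ne']
  have h3 := h2.sum_range (fun t => (h0 t).le) Gr_tendsto
  have h4 := h3.bound (show (0 : ℝ) < 1 / 2 by norm_num)
  filter_upwards [h4] with n hn
  rw [sum_sub_distrib, Real.norm_eq_abs, Real.norm_eq_abs] at hn
  have h5 : 0 ≤ ∑ t ∈ range n, pr t 0 := sum_nonneg fun t _ => (h0 t).le
  rw [abs_of_nonneg h5] at hn
  have h6 := (abs_le.1 hn).1
  unfold Gr
  linarith

/-! ### first passage -/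

/-- first visit of `w` at even time `2 s` -/
def fst (w : Fin 2 → ℤ) (s : ℕ) : Set (ℕ → Dir 2) :=
  {V | W (fun _ => 1) V (2 * s) = w ∧ ∀ r < s, W (fun _ => 1) V (2 * r) ≠ w}

theorem measurable_Wv (n : ℕ) : Measurable (fun V : ℕ → Dir 2 => W (fun _ => 1) V n) :=
  measurable_pi_lambda _ fun i => measurable_W _ n i

theorem measurableSet_fst (w : Fin 2 → ℤ) (s : ℕ) : MeasurableSet (fst w s) := by
  have h : fst w s = {V | W (fun _ => 1) V (2 * s) = w} ∩
      ⋂ r : ℕ, ⋂ (_ : r < s), {V : ℕ → Dir 2 | W (fun _ => 1) V (2 * r) = w}ᶜ := by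
    ext V
    simp only [fst, Set.mem_inter_iff, Set.mem_iInter, Set.mem_ofPred_eq, Set.mem_compl_iff]
  rw [h]
  refine (measurable_Wv _ (measurableSet_singleton w)).inter ?_
  exact MeasurableSet.iInter fun r => MeasurableSet.iInter fun _ =>
    (measurable_Wv _ (measurableSet_singleton w)).compl

theorem W_dep (V V' : ℕ → Dir 2) (n : ℕ) (h : ∀ j < n, V j = V' j) :
    W (fun _ => 1) V n = W (fun _ => 1) V' n := by
  funext i
  unfold W
  refine sum_congr rfl fun j hj => ?_
  rw [h j (mem_range.1 hj)]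

theorem W_add (V : ℕ → Dir 2) (n m : ℕ) (i : Fin 2) :
    W (fun _ => 1) V (n + m) i
      = W (fun _ => 1) V n i + W (fun _ => 1) (fun j => V (n + j)) m i := by
  unfold W
  rw [sum_range_add]

theorem fst_step (w : Fin 2 → ℤ) (s t : ℕ) (hst : s ≤ t) :
    (iid 2).real (fst w s ∩ {V | W (fun _ => 1) V (2 * t) = w})
      = (iid 2).real (fst w s) * pr (t - s) 0 := by
  have h1 : fst w s ∩ {V | W (fun _ => 1) V (2 * t) = w}
      = {V | V ∈ fst w s ∧ (fun j => V (2 * s + j)) ∈
        {U : ℕ → Dir 2 | W (fun _ => 1) U (2 * (t - s)) = 0}} := by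
    ext V
    simp only [Set.mem_inter_iff, Set.mem_ofPred_eq]
    refine and_congr_right fun hV => ?_
    have h2 : 2 * t = 2 * s + 2 * (t - s) := by omega
    have h3 : W (fun _ => 1) V (2 * s) = w := hV.1
    rw [h2, funext_iff, funext_iff]
    refine forall_congr' fun i => ?_
    rw [W_add, h3]
    simp
  rw [h1]
  refine past_future (2 * s) (fst w s) _ (measurableSet_fst w s)
    (measurable_Wv _ (measurableSet_singleton _)) (fun V V' h => ?_)
  have key : ∀ r ≤ s, W (fun _ => 1) V (2 * r) = W (fun _ => 1) V' (2 * r) := fun r hr =>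
    W_dep V V' _ (fun j hj => h j (by omega))
  unfold fst
  simp only [Set.mem_ofPred_eq]
  rw [key s le_rfl]
  refine and_congr_right fun _ => ?_
  refine forall_congr' fun r => forall_congr' fun hr => ?_
  rw [key r hr.le]

theorem pr_le (w : Fin 2 → ℤ) (t : ℕ) :
    pr t w ≤ ∑ s ∈ range (t + 1), (iid 2).real (fst w s) * pr (t - s) 0 := by
  have h1 : {V | W (fun _ => 1) V (2 * t) = w}
      ⊆ ⋃ s ∈ range (t + 1), (fst w s ∩ {V | W (fun _ => 1) V (2 * t) = w}) := by
    classical
    intro V hV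
    have hex : ∃ s, W (fun _ => 1) V (2 * s) = w := ⟨t, hV⟩
    simp only [Set.mem_iUnion, exists_prop]
    refine ⟨Nat.find hex, ?_, ⟨Nat.find_spec hex, fun r hr => Nat.find_min hex hr⟩, hV⟩
    rw [mem_range, Nat.lt_succ_iff]
    exact Nat.find_min' hex hV
  unfold pr
  refine (measureReal_mono h1 (h₂ := measure_ne_top _ _)).trans
    ((measureReal_biUnion_finset_le _ _).trans ?_)
  refine sum_le_sum fun s hs => ?_
  rw [fst_step w s t (by rw [mem_range] at hs; omega)]
  exact le_rfl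

/-- a visit of `w` at an even time at most `2 n` -/
def hit (w : Fin 2 → ℤ) (n : ℕ) : Set (ℕ → Dir 2) :=
  {V | ∃ s ≤ n, W (fun _ => 1) V (2 * s) = w}

theorem sum_fst_le (w : Fin 2 → ℤ) (n : ℕ) :
    ∑ s ∈ range (n + 1), (iid 2).real (fst w s) ≤ (iid 2).real (hit w n) := by
  rw [← measureReal_biUnion_finset]
  · refine measureReal_mono ?_
    intro V hV
    simp only [Set.mem_iUnion, exists_prop] at hV
    obtain ⟨s, hs, hV⟩ := hV
    exact ⟨s, by rw [mem_range] at hs; omega, hV.1⟩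
  · intro s _ s' _ hss
    simp only [Function.onFun]
    rw [Set.disjoint_left]
    rintro V ⟨h1, h2⟩ ⟨h3, h4⟩
    rcases lt_trichotomy s s' with h | h | h
    · exact h4 s h h1
    · exact hss h
    · exact h2 s' h h3
  · intro s _
    exact measurableSet_fst w s

theorem Gr_le (w : Fin 2 → ℤ) (n : ℕ) :
    Gr (n + 1) w ≤ (iid 2).real (hit w n) * Gr (n + 1) 0 := by
  have h1 : Gr (n + 1) w ≤ ∑ t ∈ range (n + 1), ∑ s ∈ range (t + 1),
      (iid 2).real (fst w s) * pr (t - s) 0 := sum_le_sum fun t _ => pr_le w t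
  have h2 : ∑ t ∈ range (n + 1), ∑ s ∈ range (t + 1), (iid 2).real (fst w s) * pr (t - s) 0
      = ∑ s ∈ range (n + 1), ∑ t ∈ Ico s (n + 1), (iid 2).real (fst w s) * pr (t - s) 0 := by
    refine sum_comm' ?_
    intro t s
    simp only [mem_range, mem_Ico]
    omega
  have h3 : ∀ s ∈ range (n + 1), ∑ t ∈ Ico s (n + 1), (iid 2).real (fst w s) * pr (t - s) 0
      ≤ (iid 2).real (fst w s) * Gr (n + 1) 0 := by
    intro s hs
    rw [← mul_sum]
    refine mul_le_mul_of_nonneg_left ?_ measureReal_nonneg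
    rw [sum_Ico_eq_sum_range]
    unfold Gr
    have h4 : ∀ k ∈ range (n + 1 - s), pr (s + k - s) 0 = pr k 0 := by
      intro k _
      rw [Nat.add_sub_cancel_left]
    rw [sum_congr rfl h4]
    refine sum_le_sum_of_subset_of_nonneg ?_ (fun k _ _ => pr_nonneg k 0)
    intro k hk
    rw [mem_range] at hk ⊢
    omega
  refine h1.trans (h2.le.trans ((sum_le_sum h3).trans ?_))
  rw [← sum_mul]
  refine mul_le_mul_of_nonneg_right (sum_fst_le w n) ?_
  exact sum_nonneg fun t _ => pr_nonneg t 0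

theorem hit_ge (w : Fin 2 → ℤ) (i j : ℤ) (hi : w 0 + w 1 = 2 * i) (hj : w 0 - w 1 = 2 * j) :
    ∀ᶠ n in Filter.atTop, 1 / 2 ≤ (iid 2).real (hit w n) := by
  have h1 := (Filter.tendsto_add_atTop_nat 1).eventually (Gr_ratio w i j hi hj)
  have h2 := (Filter.tendsto_add_atTop_nat 1).eventually (Gr_tendsto.eventually_gt_atTop 0)
  filter_upwards [h1, h2] with n hn hn2
  have h3 := hn.trans (Gr_le w n)
  exact le_of_mul_le_mul_right h3 hn2

theorem srw : S_SRW := by
  classical
  refine ⟨1 / 2, by norm_num, fun B => ?_⟩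
  -- targets
  set tgt : (Fin 2 → ℤ) → (Fin 2 → ℤ) := fun y =>
    if Even (y 0 + y 1) then (fun i => - y i) else (fun i => if i = 0 then 1 - y 0 else - y i)
    with htgt
  have htgt_even : ∀ y, ∃ i j : ℤ, tgt y 0 + tgt y 1 = 2 * i ∧ tgt y 0 - tgt y 1 = 2 * j := by
    intro y
    by_cases h : Even (y 0 + y 1)
    · obtain ⟨k, hk⟩ := h
      have he : Even (y 0 + y 1) := ⟨k, hk⟩
      simp only [htgt, if_pos he]
      exact ⟨-k, -k + y 1, by linarith, by linarith⟩
    · have ho := Int.not_even_iff_odd.1 h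
      obtain ⟨k, hk⟩ := ho
      simp only [htgt, if_neg h]
      refine ⟨-k, -k + y 1, ?_, ?_⟩
      · simp
        linarith
      · simp
        linarith
  set box : Finset (Fin 2 → ℤ) := Fintype.piFinset (fun _ => Finset.Icc (-(B : ℤ)) (B : ℤ))
    with hbox
  have hall : ∀ᶠ n in Filter.atTop, ∀ y ∈ box, 1 / 2 ≤ (iid 2).real (hit (tgt y) n) := by
    rw [Filter.eventually_all_finset]
    intro y _
    obtain ⟨i, j, hi, hj⟩ := htgt_even y
    exact hit_ge (tgt y) i j hi hj
  obtain ⟨n, hn⟩ := hall.exists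
  refine ⟨2 * n, fun y hy => ?_⟩
  have hyb : y ∈ box := by
    rw [hbox, Fintype.mem_piFinset]
    intro i
    rw [Finset.mem_Icc, ← abs_le]
    exact hy i
  refine (hn y hyb).trans (measureReal_mono ?_)
  rintro V ⟨s, hs, hV⟩
  refine ⟨2 * s, by omega, fun i => ?_⟩
  rw [hV]
  by_cases h : Even (y 0 + y 1)
  · simp only [htgt, if_pos h]
    simp
  · simp only [htgt, if_neg h]
    by_cases hi : i = 0
    · subst hi
      simp
    · simp [hi]

end Pool.Agent.Q293.CR
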