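import Mathlib
import Pool.Agent.Q293.CR.Stm

/-!
# Conservative random walk: the summability criterion (job CR-SUM, by helper277)
-/

set_option autoImplicit false

open Finset

namespace Pool.Agent.Q293.CR

/-- reordering a sum over a finite set by the number of smaller elements -/
lemma sum_rank (f : ℕ → ℝ) (E : Finset ℕ) :
    ∑ k ∈ E, f ((E ∩ Finset.range k).card) = ∑ t ∈ Finset.range E.card, f t := by
  induction E using Finset.induction_on_max with
  | empty => simp
  | insert x E hx ih =>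
    have hxE : x ∉ E := fun h => lt_irrefl _ (hx x h)
    rw [Finset.sum_insert hxE, Finset.card_insert_of_notMem hxE, Finset.sum_range_succ]
    have h1 : (insert x E) ∩ Finset.range x = E := by
      ext y
      rw [Finset.mem_inter, Finset.mem_insert, Finset.mem_range]
      constructor
      · rintro ⟨h1 | h1, h2⟩
        · omega
        · exact h1
      · intro h
        exact ⟨Or.inr h, hx y h⟩
    have h2 : ∀ k ∈ E, f (((insert x E) ∩ Finset.range k).card) =
        f ((E ∩ Finset.range k).card) := by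
      intro k hk
      congr 2
      ext y
      rw [Finset.mem_inter, Finset.mem_insert, Finset.mem_inter, Finset.mem_range]
      have := hx k hk
      constructor
      · rintro ⟨h1 | h1, h2⟩
        · omega
        · exact ⟨h1, h2⟩
      · rintro ⟨h1, h2⟩
        exact ⟨Or.inr h1, h2⟩
    rw [h1, Finset.sum_congr rfl h2, ih]
    ring

lemma harm (n j : ℕ) (hn : n ≤ 4 ^ (j + 1)) :
    ∑ t ∈ Finset.range n, 1 / ((t : ℝ) + 1) ≤ 3 * ((j : ℝ) + 1) := by
  rcases Nat.eq_zero_or_pos n with h0 | h0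
  · subst h0
    rw [Finset.range_zero, Finset.sum_empty]
    positivity
  have h1 : ∑ t ∈ Finset.range n, 1 / ((t : ℝ) + 1) = ((harmonic n : ℚ) : ℝ) := by
    rw [harmonic]
    push_cast
    refine Finset.sum_congr rfl fun t _ => ?_
    rw [one_div]
  rw [h1]
  refine (harmonic_le_one_add_log n).trans ?_
  have h2 : Real.log n ≤ Real.log ((4 : ℝ) ^ (j + 1)) := by
    apply Real.log_le_log (by exact_mod_cast h0)
    exact_mod_cast hn
  rw [Real.log_pow] at h2
  have h3 : Real.log 4 = 2 * Real.log 2 := by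
    rw [show (4 : ℝ) = 2 ^ 2 by norm_num, Real.log_pow]
    norm_num
  have h4 := Real.log_two_lt_d9
  rw [h3] at h2
  push_cast at h2
  have hj : (0 : ℝ) ≤ j := Nat.cast_nonneg _
  nlinarith

theorem summ : S_Sum := by
  classical
  intro a h C hC hh h1 h2
  set m : ℕ → ℕ := fun k => ((Finset.range k).filter (fun j => a k ≤ a j)).card with hm
  -- the trivial bound
  have hsmall : ∀ j k : ℕ, 4 ^ j ≤ k → h k ≤ C / 4 ^ j := by
    intro j k hk
    refine (h1 k).trans ?_
    have hk' : (4 : ℝ) ^ j ≤ k := by exact_mod_cast hk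
    have h3 : (1 : ℝ) ≤ Real.sqrt ((m k : ℝ) + 1) := by
      rw [Real.one_le_sqrt]
      have : (0 : ℝ) ≤ (m k : ℝ) := Nat.cast_nonneg _
      linarith
    apply div_le_div_of_nonneg_left hC (by positivity)
    calc (4 : ℝ) ^ j ≤ (k : ℝ) + 1 := by linarith
      _ = ((k : ℝ) + 1) * 1 := (mul_one _).symm
      _ ≤ ((k : ℝ) + 1) * Real.sqrt ((m k : ℝ) + 1) :=
          mul_le_mul_of_nonneg_left h3 (by positivity)
  -- many
  have hmany : ∀ j k : ℕ, 4 ^ j ≤ k → (j + 1) ^ 4 ≤ m k →
      h k ≤ C / (4 ^ j * ((j : ℝ) + 1) ^ 2) := by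
    intro j k hk hmk
    refine (h1 k).trans ?_
    have hk' : (4 : ℝ) ^ j ≤ k := by exact_mod_cast hk
    have hmk' : ((j : ℝ) + 1) ^ 4 ≤ (m k : ℝ) := by exact_mod_cast hmk
    have h3 : ((j : ℝ) + 1) ^ 2 ≤ Real.sqrt ((m k : ℝ) + 1) := by
      apply Real.le_sqrt_of_sq_le
      have e : (((j : ℝ) + 1) ^ 2) ^ 2 = ((j : ℝ) + 1) ^ 4 := by ring
      rw [e]
      linarith
    apply div_le_div_of_nonneg_left hC (by positivity)
    apply mul_le_mul (by linarith) h3 (by positivity) (by positivity)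
  -- the exceptional set of a block
  set E : ℕ → Finset ℕ := fun j =>
    (Finset.Ico (4 ^ j) (4 ^ (j + 1))).filter (fun k => m k < (j + 1) ^ 4) with hE
  have hmult : ∀ j v : ℕ, ((E j).filter (fun k => a k = v)).card ≤ (j + 1) ^ 4 := by
    intro j v
    rcases ((E j).filter (fun k => a k = v)).eq_empty_or_nonempty with h0 | h0
    · rw [h0, Finset.card_empty]
      positivity
    set k := ((E j).filter (fun k => a k = v)).max' h0 with hk
    have hkm : k ∈ (E j).filter (fun k => a k = v) := Finset.max'_mem _ _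
    obtain ⟨hkE, hkv⟩ := Finset.mem_filter.1 hkm
    obtain ⟨-, hkM⟩ := Finset.mem_filter.1 hkE
    have hsub : ((E j).filter (fun k => a k = v)).erase k ⊆
        (Finset.range k).filter (fun i => a k ≤ a i) := by
      intro i hi
      obtain ⟨hik, hi2⟩ := Finset.mem_erase.1 hi
      have hle : i ≤ k := Finset.le_max' _ _ hi2
      have hiv := (Finset.mem_filter.1 hi2).2
      rw [Finset.mem_filter, Finset.mem_range]
      exact ⟨by omega, by omega⟩
    have h3 := Finset.card_le_card hsub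
    rw [Finset.card_erase_of_mem hkm] at h3
    have h4 : m k < (j + 1) ^ 4 := hkM
    have h5 : ((Finset.range k).filter (fun i => a k ≤ a i)).card = m k := rfl
    omega
  have hexc : ∀ j : ℕ, ∑ k ∈ E j, h k ≤ C * (6 * ((j : ℝ) + 1) ^ 5 * (1 / 2) ^ (j + 1)) := by
    intro j
    have h3 : ∀ k ∈ E j, h k ≤ C * ((j : ℝ) + 1) ^ 4 / 2 ^ j *
        (1 / (((((E j) ∩ Finset.range k).card : ℕ) : ℝ) + 1)) := by
      intro k hk
      obtain ⟨hkB, -⟩ := Finset.mem_filter.1 hk
      rw [Finset.mem_Ico] at hkB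
      have i1 := hsmall j k hkB.1
      have i2 := h2 k ((E j) ∩ Finset.range k) ((j + 1) ^ 4) (Nat.one_le_pow _ _ (by omega))
        Finset.inter_subset_right (fun v => by
          refine (Finset.card_le_card ?_).trans (hmult j v)
          exact Finset.filter_subset_filter _ Finset.inter_subset_left)
      set t : ℝ := ((((E j) ∩ Finset.range k).card : ℕ) : ℝ) + 1 with ht
      have ht0 : 0 < t := by positivity
      have i3 : h k ^ 2 ≤ (C * ((j : ℝ) + 1) ^ 4 / 2 ^ j * (1 / t)) ^ 2 := by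
        calc h k ^ 2 = h k * h k := sq _
          _ ≤ (C / 4 ^ j) * (C * (((j + 1) ^ 4 : ℕ) : ℝ) ^ 2 / t ^ 2) :=
              mul_le_mul i1 i2 (hh k) (by positivity)
          _ = (C * ((j : ℝ) + 1) ^ 4 / 2 ^ j * (1 / t)) ^ 2 := by
              push_cast
              have e4 : (4 : ℝ) ^ j = (2 ^ j) ^ 2 := by
                rw [← pow_mul, mul_comm, pow_mul]
                norm_num
              rw [e4]
              field_simp
      exact abs_le_of_sq_le_sq' i3 (by positivity) |>.2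
    have hcard : (E j).card ≤ 4 ^ (j + 1) := by
      refine (Finset.card_filter_le _ _).trans ?_
      rw [Nat.card_Ico]
      exact Nat.sub_le _ _
    calc ∑ k ∈ E j, h k ≤ ∑ k ∈ E j, C * ((j : ℝ) + 1) ^ 4 / 2 ^ j *
        (1 / (((((E j) ∩ Finset.range k).card : ℕ) : ℝ) + 1)) := Finset.sum_le_sum h3
      _ = C * ((j : ℝ) + 1) ^ 4 / 2 ^ j * ∑ t ∈ Finset.range (E j).card, 1 / ((t : ℝ) + 1) := by
          rw [← Finset.mul_sum, sum_rank (fun t => 1 / ((t : ℝ) + 1)) (E j)]
      _ ≤ C * ((j : ℝ) + 1) ^ 4 / 2 ^ j * (3 * ((j : ℝ) + 1)) :=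
          mul_le_mul_of_nonneg_left (harm _ j hcard) (by positivity)
      _ = C * (6 * ((j : ℝ) + 1) ^ 5 * (1 / 2) ^ (j + 1)) := by
          rw [one_div, inv_pow, pow_succ (2 : ℝ) j]
          field_simp
          ring
  have hblock : ∀ j : ℕ, ∑ k ∈ Finset.Ico (4 ^ j) (4 ^ (j + 1)), h k ≤
      C * (3 / ((j : ℝ) + 1) ^ 2) + C * (6 * ((j : ℝ) + 1) ^ 5 * (1 / 2) ^ (j + 1)) := by
    intro j
    rw [← Finset.sum_filter_add_sum_filter_not (Finset.Ico (4 ^ j) (4 ^ (j + 1)))
      (fun k => m k < (j + 1) ^ 4) h]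
    rw [add_comm]
    apply add_le_add _ (hexc j)
    have h3 : ∀ k ∈ (Finset.Ico (4 ^ j) (4 ^ (j + 1))).filter (fun k => ¬ m k < (j + 1) ^ 4),
        h k ≤ C / (4 ^ j * ((j : ℝ) + 1) ^ 2) := by
      intro k hk
      obtain ⟨hkB, hkm⟩ := Finset.mem_filter.1 hk
      rw [Finset.mem_Ico] at hkB
      exact hmany j k hkB.1 (not_lt.1 hkm)
    refine (Finset.sum_le_card_nsmul _ _ _ h3).trans ?_
    rw [nsmul_eq_mul]
    have hc : ((((Finset.Ico (4 ^ j) (4 ^ (j + 1))).filter
        (fun k => ¬ m k < (j + 1) ^ 4)).card : ℕ) : ℝ) ≤ 3 * 4 ^ j := by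
      have h4 := Finset.card_filter_le (Finset.Ico (4 ^ j) (4 ^ (j + 1)))
        (fun k => ¬ m k < (j + 1) ^ 4)
      rw [Nat.card_Ico] at h4
      have h5 : 4 ^ (j + 1) - 4 ^ j = 3 * 4 ^ j := by
        rw [pow_succ]
        omega
      rw [h5] at h4
      exact_mod_cast h4
    calc _ ≤ 3 * 4 ^ j * (C / (4 ^ j * ((j : ℝ) + 1) ^ 2)) :=
          mul_le_mul_of_nonneg_right hc (by positivity)
      _ = C * (3 / ((j : ℝ) + 1) ^ 2) := by
          field_simp
  set β : ℕ → ℝ := fun j =>
    C * (3 / ((j : ℝ) + 1) ^ 2) + C * (6 * ((j : ℝ) + 1) ^ 5 * (1 / 2) ^ (j + 1)) with hβ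
  have hβ0 : ∀ j, 0 ≤ β j := by
    intro j
    rw [hβ]
    positivity
  have hβs : Summable β := by
    apply Summable.add
    · apply Summable.mul_left
      have s1 : Summable (fun j : ℕ => 1 / ((j : ℝ)) ^ 2) :=
        Real.summable_one_div_nat_pow.2 (by norm_num)
      have s2 := ((summable_nat_add_iff 1).2 s1).mul_left 3
      refine s2.congr fun j => ?_
      push_cast
      ring
    · apply Summable.mul_left
      have s1 : Summable (fun j : ℕ => ((j : ℝ)) ^ 5 * (1 / 2 : ℝ) ^ j) :=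
        summable_pow_mul_geometric_of_norm_lt_one 5 (by norm_num)
      have s2 := ((summable_nat_add_iff 1).2 s1).mul_left 6
      refine s2.congr fun j => ?_
      push_cast
      ring
  have htot : ∀ J : ℕ, ∑ k ∈ Finset.range (4 ^ J), h k ≤ h 0 + ∑ j ∈ Finset.range J, β j := by
    intro J
    induction J with
    | zero => simp
    | succ J ih =>
      rw [Finset.sum_range_succ, ← Finset.sum_range_add_sum_Ico h
        (Nat.pow_le_pow_right (by norm_num) (Nat.le_succ J))]
      have := hblock J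
      have e : β J = C * (3 / ((J : ℝ) + 1) ^ 2) +
        C * (6 * ((J : ℝ) + 1) ^ 5 * (1 / 2) ^ (J + 1)) := rfl
      linarith
  apply summable_of_sum_range_le (c := h 0 + ∑' j, β j) hh
  intro n
  have hn : n ≤ 4 ^ n := (Nat.lt_pow_self (by norm_num)).le
  calc ∑ k ∈ Finset.range n, h k ≤ ∑ k ∈ Finset.range (4 ^ n), h k :=
        Finset.sum_le_sum_of_subset_of_nonneg (Finset.range_mono hn) fun k _ _ => hh k
    _ ≤ h 0 + ∑ j ∈ Finset.range n, β j := htot n
    _ ≤ h 0 + ∑' j, β j := by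
        have := hβs.sum_le_tsum (Finset.range n) fun j _ => hβ0 j
        linarith

end Pool.Agent.Q293.CR
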