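import Mathlib
import Pool.Agent.Q293.CR.Assemble
import Pool.Agent.Q293.CR.HA
import Pool.Agent.Q293.CR.LO
import Pool.Agent.Q293.CR.Bin
import Pool.Agent.Q293.CR.Summ
import Pool.Agent.Q293.CR.SRW
import Pool.Agent.Q293.CR.One

set_option autoImplicit false
set_option linter.unusedSectionVars false

open MeasureTheory ProbabilityTheory

namespace Pool.Agent.Q293.CR

/-- infinitely many visits close to the origin -/
theorem Sched.visits (S : Sched) (hK : ∀ s, S.K s = 2) (q : ℝ) (hq0 : 0 < q)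
    (hq : ∀ s, ∀ z : Fin 2 → ℤ, (∀ c, |z c| ≤ (S.tau s : ℤ)) →
      q ≤ (iid 2).real {V : ℕ → Dir 2 | ∃ t ≤ S.T s, ∀ c, |z c + W (fun _ => 1) V t c| ≤ 1}) :
    ∀ᵐ x ∂(iid 2), ∀ N : ℕ, ∃ n, N ≤ n ∧ ∀ c : Fin 2, |walk S.flg x n c| ≤ 1 := by
  have hq1 : q ≤ 1 := (hq 0 0 (fun c => by simp)).trans measureReal_le_one
  have h1 : ∀ m, ∀ᵐ x ∂(iid 2), ∃ i, x ∈ S.visit (m + i) := by
    intro m
    have h2 : (iid 2).real {x | ∀ i, x ∉ S.visit (m + i)} = 0 := by
      refine le_antisymm ?_ measureReal_nonneg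
      have h3 : ∀ k, (iid 2).real {x | ∀ i, x ∉ S.visit (m + i)} ≤ (1 - q / 16) ^ k := fun k =>
        (measureReal_mono (show {x | ∀ i, x ∉ S.visit (m + i)} ⊆ S.noVisit m k from
          fun x hx i _ => hx i)).trans
          (S.noVisit_le hK q (by linarith) hq m k)
      have h4 := tendsto_pow_atTop_nhds_zero_of_lt_one (r := 1 - q / 16) (by linarith)
        (by linarith)
      exact ge_of_tendsto' h4 h3
    rw [ae_iff]
    rw [measureReal_eq_zero_iff] at h2
    convert h2 using 2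
    ext x
    simp
  have h2 := ae_all_iff.2 h1
  filter_upwards [h2] with x hx N
  obtain ⟨i, n, hn1, _, hn3⟩ := hx N
  refine ⟨n, ?_, hn3⟩
  have h4 : N + i ≤ S.tau (N + i) := S.tau_mono.le_apply
  omega

theorem enorm2_le_two (z : Fin 2 → ℤ) (h : ∀ c, |z c| ≤ 1) : enorm2 z ≤ 2 := by
  unfold enorm2
  refine Real.sqrt_le_iff.2 ⟨by norm_num, ?_⟩
  rw [Fin.sum_univ_two]
  have h1 : ∀ c, ((z c : ℤ) : ℝ) ^ 2 ≤ 1 := by
    intro c
    have h2 : |((z c : ℤ) : ℝ)| ≤ 1 := by exact_mod_cast h c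
    rw [← sq_abs]
    exact pow_le_one₀ (abs_nonneg _) h2
  have := h1 0
  have := h1 1
  linarith

/-- deterministic flags: almost sure statements about the walk -/
theorem ae_det {d : ℕ} [NeZero d] (b : ℕ → Bool) (P : (ℕ → Bool) × (ℕ → Dir d) → Prop)
    (hP : MeasurableSet {w | P w}) :
    (∀ᵐ w ∂(law d (fun n => if b n = true then 1 else 0)), P w) ↔ ∀ᵐ x ∂(iid d), P (b, x) := by
  unfold law
  rw [Measure.ae_prod_iff_ae_ae hP]
  have h1 : flags (fun n => if b n = true then 1 else 0) = Measure.dirac b := by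
    unfold flags
    rw [← Measure.infinitePi_dirac]
    congr 1
    funext n
    by_cases h : b n = true
    · simp [h]
    · rw [Bool.not_eq_true] at h
      simp [h]
  rw [h1, ae_dirac_eq]
  exact Filter.eventually_pure

theorem measurableSet_vis :
    MeasurableSet {w : (ℕ → Bool) × (ℕ → Dir 2) |
      ∃ᶠ n in Filter.atTop, enorm2 (walk w.1 w.2 n) ≤ 2} := by
  have h : {w : (ℕ → Bool) × (ℕ → Dir 2) |
      ∃ᶠ n in Filter.atTop, enorm2 (walk w.1 w.2 n) ≤ 2}
      = ⋂ N : ℕ, ⋃ n : ℕ, ⋃ (_ : N ≤ n),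
        {w : (ℕ → Bool) × (ℕ → Dir 2) | enorm2 (walk w.1 w.2 n) ≤ 2} := by
    ext w
    simp only [Set.mem_iInter, Set.mem_iUnion, Set.mem_ofPred_eq, exists_prop,
      Filter.frequently_atTop]
  rw [h]
  refine MeasurableSet.iInter fun N => MeasurableSet.iUnion fun n => MeasurableSet.iUnion fun _ => ?_
  have h1 : Measurable (fun w : (ℕ → Bool) × (ℕ → Dir 2) => walk w.1 w.2 n) :=
    measurable_pi_lambda _ fun i => measurable_walk n i
  exact h1 (MeasurableSet.of_discrete (s := {z : Fin 2 → ℤ | enorm2 z ≤ 2}))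

/-- the planar example -/
theorem planar : ∃ p p' : ℕ → unitInterval,
    (∀ n, p' n ≤ p n ∧ (p n = 0 ∨ p n = 1) ∧ (p' n = 0 ∨ p' n = 1)) ∧
    StronglyTransient 2 p ∧
    ∀ᵐ w ∂(law 2 p'), ∃ᶠ n in Filter.atTop, enorm2 (walk w.1 w.2 n) ≤ 2 := by
  obtain ⟨q, hq0, hq⟩ := srw
  choose Tf hTf using hq
  refine ⟨fun n => if (fine Tf).flg n = true then 1 else 0,
    fun n => if (coarse Tf).flg n = true then 1 else 0, fun n => ⟨?_, ?_, ?_⟩,
    (st_det _).2 (fine_esc lo bin Tf), ?_⟩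
  · by_cases h : (coarse Tf).flg n = true
    · simp only [if_pos h, if_pos (coarse_le_fine Tf n h)]
      exact le_rfl
    · simp only [if_neg h]
      exact unitInterval.nonneg'
  · by_cases h : (fine Tf).flg n = true
    · right
      simp only [if_pos h]
    · left
      simp only [if_neg h]
  · by_cases h : (coarse Tf).flg n = true
    · right
      simp only [if_pos h]
    · left
      simp only [if_neg h]
  · rw [ae_det _ _ measurableSet_vis]
    have h := (coarse Tf).visits (fun _ => rfl) q hq0 (fun s z hz => hTf _ z hz)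
    filter_upwards [h] with x hx
    rw [Filter.frequently_atTop]
    intro N
    obtain ⟨n, hn, h1⟩ := hx N
    exact ⟨n, hn, enorm2_le_two _ h1⟩

end Pool.Agent.Q293.CR
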